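import Pool.Agent.U280.Radon.Mut

/-!
Existence of the configurations in which a mutation with prescribed type takes place.
-/

set_option autoImplicit false
set_option linter.unusedSectionVars false
set_option linter.unusedVariables false
set_option linter.unusedSimpArgs false

namespace Pool.Agent.U280.Radon

open Finset Module MeasureTheory

theorem exists_avoid {d : ℕ} {κ : Type*} [Finite κ] (Q : κ → AffineSubspace ℝ (Fin d → ℝ))
    (hQ : ∀ k, Q k ≠ ⊤) {U : Set (Fin d → ℝ)} (hU : IsOpen U) (hne : U.Nonempty) :
    ∃ y ∈ U, ∀ k, y ∉ Q k := by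
  by_contra hcon
  push Not at hcon
  have hsub : U ⊆ ⋃ k, (Q k : Set (Fin d → ℝ)) := fun y hy => by
    obtain ⟨k, hk⟩ := hcon y hy
    exact Set.mem_iUnion.2 ⟨k, hk⟩
  have h0 : volume (⋃ k, (Q k : Set (Fin d → ℝ))) = 0 := by
    rw [measure_iUnion_null_iff]
    intro k
    exact Measure.addHaar_affineSubspace _ _ (hQ k)
  have h1 : 0 < volume U := hU.measure_pos _ hne
  exact h1.ne' (measure_mono_null hsub h0)

/-- A configuration in which `d + 1` points are on the hyperplane `h = 0`, with prescribed type. -/
structure Conf (d n p k : ℕ) (ι : Type) [Fintype ι] [DecidableEq ι] (x : ι → (Fin d → ℝ))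
    (D : Finset ι) (lD : ι → ℝ) (h : (Fin d → ℝ) →ₗ[ℝ] ℝ) : Prop where
  card : Fintype.card ι = d + 1 + n
  cardD : D.card = d + 1
  gp0 : ∀ l ∈ dep x, (supp l).card ≤ d + 1 → l = 0 ∨ supp l = D
  lD_mem : lD ∈ dep x
  lD_supp : supp lD = D
  hD : ∀ i ∈ D, h (x i) = 0
  hnD : ∀ i, i ∉ D → h (x i) ≠ 0
  cp : (D.filter (fun i => 0 < lD i)).card = p
  ck : (Dᶜ.filter (fun i => 0 < h (x i))).card = k

theorem span_ne_top {d : ℕ} {ι : Type*} [Fintype ι] [DecidableEq ι] (x : ι → (Fin d → ℝ))
    (B : Finset ι) (hB : B.card ≤ d) : affineSpan ℝ (x '' (B : Set ι)) ≠ ⊤ := by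
  classical
  rcases B.eq_empty_or_nonempty with rfl | hne
  · rw [Finset.coe_empty, Set.image_empty, AffineSubspace.span_empty]
    exact AffineSubspace.bot_ne_top _ _ _
  · intro htop
    obtain ⟨n, hn⟩ : ∃ n, B.card = n + 1 := ⟨B.card - 1, by
      have := Finset.card_pos.2 hne; omega⟩
    have h1 := finrank_vectorSpan_image_finset_le ℝ x B hn
    have h2 : vectorSpan ℝ (x '' (B : Set ι)) = ⊤ := by
      rw [← direction_affineSpan, htop, AffineSubspace.direction_top]
    rw [Finset.coe_image] at h1
    rw [h2, finrank_top, finrank_fin_fun] at h1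
    omega

theorem Conf.ext {d n p k : ℕ} {ι : Type} [Fintype ι] [DecidableEq ι] {x : ι → (Fin d → ℝ)}
    {D : Finset ι} {lD : ι → ℝ} {h : (Fin d → ℝ) →ₗ[ℝ] ℝ} (C : Conf d n p k ι x D lD h)
    {ε : ℝ} (hε : ε = 1 ∨ ε = -1) {u : Fin d → ℝ} (hu : h u = 1) :
    ∃ y : Fin d → ℝ, Conf d (n + 1) p (k + if ε = 1 then 1 else 0) (Option ι)
      (fun i => i.elim y x) (D.map Function.Embedding.some) (fun i => i.elim 0 lD) h := by
  classical
  have hcont : Continuous h := LinearMap.continuous_of_finiteDimensional h
  obtain ⟨y, hyU, hy⟩ := exists_avoid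
    (Q := fun B : {B : Finset ι // B.card ≤ d} => affineSpan ℝ (x '' (B.1 : Set ι)))
    (fun B => span_ne_top x B.1 B.2) (U := {y | 0 < ε * h y})
    (isOpen_lt continuous_const (continuous_const.mul hcont))
    ⟨ε • u, by
      rw [Set.mem_ofPred_eq, map_smul, hu, smul_eq_mul, mul_one]
      rcases hε with rfl | rfl <;> norm_num⟩
  rw [Set.mem_ofPred_eq] at hyU
  have hy0 : h y ≠ 0 := by
    intro h'; rw [h', mul_zero] at hyU; exact lt_irrefl _ hyU
  have hsupp : ∀ l : Option ι → ℝ, l none = 0 →
      supp l = (supp (fun i => l (some i))).map Function.Embedding.some := by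
    intro l hl
    ext i
    rw [mem_supp, Finset.mem_map]
    constructor
    · intro hi
      cases i with
      | none => exact absurd hl hi
      | some j => exact ⟨j, mem_supp.2 hi, rfl⟩
    · rintro ⟨j, hj, rfl⟩
      have h1 := mem_supp.1 hj
      exact h1
  refine ⟨y, ?_, ?_, ?_, ?_, ?_, ?_, ?_, ?_, ?_⟩
  · rw [Fintype.card_option, C.card]; ring
  · rw [Finset.card_map, C.cardD]
  · intro l hl hc
    rw [mem_dep, Fintype.sum_option, Fintype.sum_option] at hl
    simp only [Option.elim] at hl
    obtain ⟨hl1, hl2⟩ := hl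
    by_cases hl0 : l none = 0
    · have hl' : (fun i => l (some i)) ∈ dep x := by
        rw [mem_dep]
        rw [hl0, zero_add] at hl1
        rw [hl0, zero_smul, zero_add] at hl2
        exact ⟨hl1, hl2⟩
      have hs := hsupp l hl0
      rw [hs, Finset.card_map] at hc
      rcases C.gp0 _ hl' hc with h1 | h1
      · left
        ext i
        cases i with
        | none => exact hl0
        | some j => exact congrFun h1 j
      · right
        rw [hs, h1]
    · exfalso
      have hcard : (supp (fun i => l (some i))).card ≤ d := by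
        have : insert none ((supp (fun i => l (some i))).map Function.Embedding.some) ⊆ supp l := by
          intro i hi
          rw [Finset.mem_insert, Finset.mem_map] at hi
          rcases hi with rfl | ⟨j, hj, rfl⟩
          · exact mem_supp.2 hl0
          · have h1 := mem_supp.1 hj
            exact mem_supp.2 h1
        have h2 := Finset.card_le_card this
        rw [Finset.card_insert_of_notMem (by simp), Finset.card_map] at h2
        omega
      apply hy ⟨_, hcard⟩
      have hw : ∑ i, (-(l none)⁻¹ * l (some i)) = 1 := by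
        rw [← Finset.mul_sum]
        have : ∑ i, l (some i) = - l none := by linarith
        rw [this]; field_simp
      have h3 : Finset.univ.affineCombination ℝ x (fun i => -(l none)⁻¹ * l (some i)) ∈
          affineSpan ℝ (x '' ((supp (fun i => l (some i)) : Finset ι) : Set ι)) := by
        apply affineCombination_mem_affineSpan_image hw
        intro i _ hi
        have : l (some i) = 0 := by
          by_contra h'
          exact hi (Finset.mem_coe.2 (mem_supp.2 h'))
        rw [this, mul_zero]
      rw [Finset.affineCombination_eq_linear_combination _ _ _ hw] at h3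
      convert h3 using 1
      have h4 : ∑ i, l (some i) • x i = - (l none • y) := by
        rw [eq_neg_iff_add_eq_zero, add_comm]; exact hl2
      have h5 : ∑ i, (-(l none)⁻¹ * l (some i)) • x i = -(l none)⁻¹ • ∑ i, l (some i) • x i := by
        rw [Finset.smul_sum]
        apply Finset.sum_congr rfl
        intro i _
        rw [smul_smul]
      rw [h5, h4, smul_neg, neg_smul, neg_neg, smul_smul, inv_mul_cancel₀ hl0, one_smul]
  · rw [mem_dep, Fintype.sum_option, Fintype.sum_option]
    simp only [Option.elim, zero_add, zero_smul]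
    exact mem_dep.1 C.lD_mem
  · rw [hsupp _ rfl]
    simp only [Option.elim]
    rw [C.lD_supp]
  · intro i hi
    rw [Finset.mem_map] at hi
    obtain ⟨j, hj, rfl⟩ := hi
    exact C.hD j hj
  · intro i hi
    cases i with
    | none => exact hy0
    | some j =>
      apply C.hnD j
      intro hj
      exact hi (Finset.mem_map.2 ⟨j, hj, rfl⟩)
  · rw [← C.cp, Finset.filter_map, Finset.card_map]
    rfl
  · have h1 : ((D.map Function.Embedding.some)ᶜ : Finset (Option ι)) =
        insert none (Dᶜ.map Function.Embedding.some) := by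
      ext i
      cases i with
      | none => simp
      | some j => simp
    rw [h1, Finset.filter_insert, Finset.filter_map]
    have h2 : (0 < h y) ↔ ε = 1 := by
      rcases hε with rfl | rfl
      · constructor
        · intro _; rfl
        · intro _; linarith
      · constructor
        · intro h3; exfalso; linarith
        · intro h3; norm_num at h3
    have h2' : (0 < h (Option.elim (none : Option ι) y x)) ↔ ε = 1 := h2
    have h3 : ((Dᶜ.filter ((fun i : Option ι => 0 < h (Option.elim i y x)) ∘
        ⇑(Function.Embedding.some : ι ↪ Option ι))).map Function.Embedding.some).card = k := by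
      rw [Finset.card_map, ← C.ck]
      rfl
    by_cases hε1 : ε = 1
    · rw [if_pos (h2'.2 hε1), if_pos hε1, Finset.card_insert_of_notMem (by simp)]
      congr 1
    · rw [if_neg (fun h' => hε1 (h2'.1 h')), if_neg hε1, add_zero]
      exact h3

theorem exists_base (e p : ℕ) (hp : 1 ≤ p) (hpd : p ≤ e + 1) :
    ∃ (x : Option (Fin (e + 1)) → (Fin (e + 1) → ℝ)) (lD : Option (Fin (e + 1)) → ℝ),
      Conf (e + 1) 0 p 0 (Option (Fin (e + 1))) x univ lD (LinearMap.proj 0) := by
  classical
  obtain ⟨P, -, hP⟩ := Finset.exists_subset_card_eq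
    (s := (Finset.univ : Finset (Option (Fin (e + 1))))) (n := p)
    (by rw [Finset.card_univ, Fintype.card_option, Fintype.card_fin]; omega)
  have hp0 : (0 : ℝ) < p := by exact_mod_cast hp
  have hq0 : (0 : ℝ) < (e : ℝ) + 2 - p := by
    have : (p : ℝ) ≤ e + 1 := by exact_mod_cast hpd
    linarith
  set lD : Option (Fin (e + 1)) → ℝ := fun i => if i ∈ P then 1 / (p : ℝ) else - (1 / ((e : ℝ) + 2 - p))
    with hlD
  have hlD0 : ∀ i, lD i ≠ 0 := by
    intro i
    simp only [hlD]
    split_ifs
    · positivity
    · have : 0 < 1 / ((e : ℝ) + 2 - p) := by positivity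
      linarith
  have hpos : ∀ i, 0 < lD i ↔ i ∈ P := by
    intro i
    simp only [hlD]
    split_ifs with h
    · simp [h, hp0]
    · have : 0 < 1 / ((e : ℝ) + 2 - p) := by positivity
      constructor
      · intro h'; linarith
      · intro h'; exact absurd h' h
  have hsum : ∑ i, lD i = 0 := by
    simp only [hlD]
    rw [Finset.sum_ite, Finset.sum_const, Finset.sum_const]
    have h1 : (Finset.univ.filter (fun i => i ∈ P)) = P := by ext i; simp
    have h2 : (Finset.univ.filter (fun i => i ∉ P)) = Pᶜ := by ext i; simp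
    rw [h1, h2, Finset.card_compl, hP, Fintype.card_option, Fintype.card_fin, nsmul_eq_mul,
      nsmul_eq_mul, Nat.cast_sub (by omega)]
    push_cast
    have h3 : ((e : ℝ) + 1 + 1 - p) = (e : ℝ) + 2 - p := by ring
    rw [h3]
    field_simp
    ring
  set x : Option (Fin (e + 1)) → (Fin (e + 1) → ℝ) := fun i j =>
    if j = 0 then 0 else i.elim (-(lD (some j) / lD none)) (fun i => if i = j then 1 else 0) with hx
  have hdep : ∀ l : Option (Fin (e + 1)) → ℝ, l ∈ dep x ↔
      (∑ i, l i = 0 ∧ ∀ j : Fin (e + 1), j ≠ 0 → l (some j) = l none * (lD (some j) / lD none)) := by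
    intro l
    rw [mem_dep]
    apply and_congr_right
    intro _
    rw [funext_iff]
    apply forall_congr'
    intro j
    rw [Finset.sum_apply, Fintype.sum_option]
    simp only [hx, Pi.smul_apply, smul_eq_mul, Option.elim, Pi.zero_apply]
    by_cases hj : j = 0
    · simp [hj]
    · simp only [if_neg hj, mul_ite, mul_one, mul_zero, Finset.sum_ite_eq', Finset.mem_univ,
        if_true]
      constructor
      · intro h _; linarith
      · intro h
        have := h hj
        linarith
  refine ⟨x, lD, ?_, ?_, ?_, ?_, ?_, ?_, ?_, ?_, ?_⟩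
  · simp
  · simp
  · intro l hl _
    have h1 := (hdep l).1 hl
    obtain ⟨h1, h2⟩ := h1
    have h3 : ∀ i, l i = l none * (lD i / lD none) := by
      have h4 : ∀ i, i ≠ some 0 → l i = l none * (lD i / lD none) := by
        intro i hi
        cases i with
        | none => rw [div_self (hlD0 none), mul_one]
        | some j => exact h2 j (fun h => hi (by rw [h]))
      intro i
      by_cases hi : i = some 0
      · rw [← Finset.add_sum_erase _ _ (Finset.mem_univ (some (0 : Fin (e + 1))))] at h1 hsum
        have h5 : ∑ i ∈ Finset.univ.erase (some (0 : Fin (e + 1))), l i =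
            l none * ((∑ i ∈ Finset.univ.erase (some (0 : Fin (e + 1))), lD i) / lD none) := by
          rw [Finset.sum_div, Finset.mul_sum]
          apply Finset.sum_congr rfl
          intro i hi
          exact h4 i (Finset.ne_of_mem_erase hi)
        have h6 : ∑ i ∈ Finset.univ.erase (some (0 : Fin (e + 1))), lD i = - lD (some 0) := by
          linarith
        rw [h5, h6] at h1
        rw [hi]
        have := hlD0 none
        field_simp
        field_simp at h1
        linarith
      · exact h4 i hi
    by_cases hl0 : l none = 0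
    · left
      ext i
      rw [h3 i, hl0, zero_mul]; rfl
    · right
      ext i
      rw [mem_supp, h3 i]
      simp only [Finset.mem_univ, iff_true]
      exact mul_ne_zero hl0 (div_ne_zero (hlD0 i) (hlD0 none))
  · rw [hdep]
    refine ⟨hsum, fun j _ => ?_⟩
    have := hlD0 none
    field_simp
  · ext i
    rw [mem_supp]
    simp [hlD0 i]
  · intro i _
    rw [LinearMap.proj_apply]
    simp [hx]
  · intro i hi
    exact absurd (Finset.mem_univ i) hi
  · rw [← hP]
    congr 1
    ext i
    simp [hpos i]
  · simp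

theorem exists_conf (e p : ℕ) (hp : 1 ≤ p) (hpd : p ≤ e + 1) : ∀ n k : ℕ, k ≤ n →
    ∃ (ι : Type) (_ : Fintype ι) (_ : DecidableEq ι) (x : ι → (Fin (e + 1) → ℝ)) (D : Finset ι)
      (lD : ι → ℝ), Conf (e + 1) n p k ι x D lD (LinearMap.proj 0) := by
  classical
  have hu : (LinearMap.proj 0 : (Fin (e + 1) → ℝ) →ₗ[ℝ] ℝ) (Pi.single 0 1) = 1 := by simp
  intro n
  induction n with
  | zero =>
    intro k hk
    obtain rfl : k = 0 := by omega
    obtain ⟨x, lD, h⟩ := exists_base e p hp hpd
    exact ⟨_, _, _, x, _, lD, h⟩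
  | succ n ih =>
    intro k hk
    rcases Nat.eq_zero_or_pos k with rfl | hk0
    · obtain ⟨ι, i1, i2, x, D, lD, C⟩ := ih 0 (Nat.zero_le _)
      obtain ⟨y, hy⟩ := C.ext (ε := -1) (Or.inr rfl) hu
      rw [if_neg (by norm_num), add_zero] at hy
      exact ⟨Option ι, inferInstance, inferInstance, _, _, _, hy⟩
    · obtain ⟨ι, i1, i2, x, D, lD, C⟩ := ih (k - 1) (by omega)
      obtain ⟨y, hy⟩ := C.ext (ε := 1) (Or.inl rfl) hu
      rw [if_pos rfl, Nat.sub_add_cancel hk0] at hy
      exact ⟨Option ι, inferInstance, inferInstance, _, _, _, hy⟩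

theorem exists_mut {d m p k : ℕ} (hp : 1 ≤ p) (hpd : p ≤ d) (hk : k ≤ m + 1) :
    ∃ (ι : Type) (_ : Fintype ι) (_ : DecidableEq ι) (x : ι → (Fin d → ℝ)) (D : Finset ι)
      (lD : ι → ℝ) (h : (Fin d → ℝ) →ₗ[ℝ] ℝ) (u : Fin d → ℝ) (i0 : ι), MutData x D lD h u i0 m ∧
      (D.filter (fun i => 0 < lD i)).card = p ∧ (Dᶜ.filter (fun i => 0 < h (x i))).card = k := by
  classical
  obtain ⟨e, rfl⟩ : ∃ e, d = e + 1 := ⟨d - 1, by omega⟩
  obtain ⟨ι, i1, i2, x, D, lD, C⟩ := exists_conf e p hp hpd (m + 1) k hk
  obtain ⟨i0, hi0⟩ : (D.filter (fun i => 0 < lD i)).Nonempty := by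
    rw [← Finset.card_pos, C.cp]; exact hp
  rw [Finset.mem_filter] at hi0
  refine ⟨ι, i1, i2, x, D, lD, LinearMap.proj 0, Pi.single 0 1, i0, ?_, C.cp, C.ck⟩
  exact
    { card := by rw [C.card, finrank_fin_fun]
      cardD := by rw [C.cardD, finrank_fin_fun]
      gp0 := by rw [finrank_fin_fun]; exact C.gp0
      lD_mem := C.lD_mem
      lD_supp := C.lD_supp
      hD := C.hD
      hnD := C.hnD
      hu := by simp
      i0D := hi0.1
      i0pos := hi0.2 }

end Pool.Agent.U280.Radon
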