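import Mathlib

/-!
Definitions for the problem MP_620441_co.
-/

set_option autoImplicit false

namespace Pool.Agent.U280.Radon

open Finset

variable {d : ℕ}

/-- General position in `ℝ^d`: no `d + 1` points of `S` lie on an affine hyperplane
`{x | ∑ i, a i * x i = c}`, `a ≠ 0`. -/
def GenPos (S : Finset (Fin d → ℝ)) : Prop :=
  ∀ T ⊆ S, T.card = d + 1 → ∀ a : Fin d → ℝ, a ≠ 0 → ∀ c : ℝ, ∃ x ∈ T, ∑ i, a i * x i ≠ c

/-- Disjoint nonempty sets with intersecting convex hulls. -/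
def Meet (T₁ T₂ : Finset (Fin d → ℝ)) : Prop :=
  T₁.Nonempty ∧ T₂.Nonempty ∧ Disjoint T₁ T₂ ∧
    (convexHull ℝ (T₁ : Set (Fin d → ℝ)) ∩ convexHull ℝ (T₂ : Set (Fin d → ℝ))).Nonempty

/-- Minimality. -/
def IsMin (T₁ T₂ : Finset (Fin d → ℝ)) : Prop :=
  ∀ T₁' T₂' : Finset (Fin d → ℝ), T₁' ⊆ T₁ → T₂' ⊆ T₂ → Meet T₁' T₂' → s(T₁', T₂') = s(T₁, T₂)

/-- The number `r_i(S)` of Radon partitions of `S` of type `{i, |S| - i}`. -/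
noncomputable def radonNum (S : Finset (Fin d → ℝ)) (i : ℕ) : ℕ :=
  Set.ncard {T : Sym2 (Finset (Fin d → ℝ)) | ∃ T₁ T₂ : Finset (Fin d → ℝ), T = s(T₁, T₂) ∧
    T₁ ∪ T₂ = S ∧ Meet T₁ T₂ ∧ T₁.card = i ∧ T₂.card = S.card - i}

/-- The number `P_i(S)` of primitive Radon partitions in `S` of type `{i, d + 2 - i}`. -/
noncomputable def primNum (S : Finset (Fin d → ℝ)) (i : ℕ) : ℕ :=
  Set.ncard {T : Sym2 (Finset (Fin d → ℝ)) | ∃ T₁ T₂ : Finset (Fin d → ℝ), T = s(T₁, T₂) ∧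
    T₁ ⊆ S ∧ T₂ ⊆ S ∧ Meet T₁ T₂ ∧ IsMin T₁ T₂ ∧ T₁.card = i ∧ T₂.card = d + 2 - i}

/-- The set `V(s, d)` of the vectors `(r(S), P(S))` of all `s`-point sets `S` in general position
in `ℝ^d`. The coordinate with index `i : Fin n` (so `0 ≤ i < n`) is the `(i + 1)`-st one. -/
def V (d s : ℕ) : Set ((Fin (s / 2) → ℝ) × (Fin (d / 2 + 1) → ℝ)) :=
  {v | ∃ S : Finset (Fin d → ℝ), S.card = s ∧ GenPos S ∧
    v = (fun i : Fin (s / 2) => (radonNum S (i + 1) : ℝ),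
      fun i : Fin (d / 2 + 1) => (primNum S (i + 1) : ℝ))}

/-- The `i`-th coordinate of the vector `f`, counted from `1`; it is `0` if there is none. -/
def coord {n : ℕ} (f : Fin n → ℝ) (i : ℕ) : ℝ :=
  if h : 1 ≤ i ∧ i ≤ n then f ⟨i - 1, by omega⟩ else 0

/-- The system of linear equations in the unknowns `r 1, …, r (s / 2)`, `P 1, …, P (d / 2 + 1)`.
(`P 0` stands for `0`.) -/
def System (d s : ℕ) (r P : ℕ → ℝ) : Prop :=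
  (d = 1 → (∀ i ∈ Icc 1 (s / 2),
      r i = if 2 * i = s then (s.choose i : ℝ) / 2 - 1 else (s.choose i : ℝ) - 2) ∧
    P 1 = (s.choose 3 : ℝ)) ∧
  (2 ≤ d → s = d + 2 → (∀ i ∈ Icc 1 (s / 2), r i = P i) ∧
    ∑ i ∈ Icc 1 (d / 2 + 1), P i = 1) ∧
  (2 ≤ d → s = d + 3 → (∀ i ∈ Icc 1 (s / 2), 2 * r i =
      P (i - 1) + (if 2 * i < d + 2 then 1 else if 2 * i = d + 2 then 2 else 0) * P i) ∧
    ∑ i ∈ Icc 1 (d / 2 + 1), P i = (s.choose (d + 2) : ℝ)) ∧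
  (2 ≤ d → d + 4 ≤ s →
    ∑ i ∈ Icc 1 (d / 2 + 1), P i = (s.choose (d + 2) : ℝ) ∧
    ∑ i ∈ Icc 1 (s / 2), r i = 2 ^ (s - 1) - ∑ k ∈ range (d + 1), ((s - 1).choose k : ℝ) ∧
    ∑ i ∈ Icc 1 (s / 2), (((s : ℝ) - 2 * i) ^ 2 - s) * r i =
      ∑ i ∈ Icc 1 (d / 2 + 1), (((d : ℝ) + 2 - 2 * i) ^ 2 - (d + 2)) * P i ∧
    (Odd d → Even s → ∑ i ∈ Icc 1 (s / 2), (-1 : ℝ) ^ i * r i = 0))

end Pool.Agent.U280.Radon
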