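import Pool.Agent.U280.Radon.Geo
import Pool.Agent.U280.Radon.Defs

/-!
Counting Radon partitions by sign vectors.
-/

set_option autoImplicit false
set_option linter.unusedSectionVars false
set_option linter.unusedVariables false
set_option linter.unusedSimpArgs false

namespace Pool.Agent.U280.Radon

open Finset Module

theorem ncard_sym2 {X : Type*} (Q : X → X → Prop) (hs : ∀ a b, Q a b → Q b a)
    (hne : ∀ a b, Q a b → a ≠ b) (hfin : {p : X × X | Q p.1 p.2}.Finite) :
    2 * Set.ncard {T : Sym2 X | ∃ a b, T = s(a, b) ∧ Q a b} =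
      Set.ncard {p : X × X | Q p.1 p.2} := by
  classical
  obtain ⟨F, hF⟩ := hfin.exists_finset_coe
  have hmem : ∀ p : X × X, p ∈ F ↔ Q p.1 p.2 := by
    intro p
    rw [← Finset.mem_coe, hF]; rfl
  have h1 : {T : Sym2 X | ∃ a b, T = s(a, b) ∧ Q a b} =
      ((F.image (fun p => s(p.1, p.2)) : Finset (Sym2 X)) : Set (Sym2 X)) := by
    ext T
    rw [Finset.mem_coe, Finset.mem_image]
    constructor
    · rintro ⟨a, b, rfl, hQ⟩
      exact ⟨(a, b), (hmem _).2 hQ, rfl⟩
    · rintro ⟨p, hp, rfl⟩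
      exact ⟨p.1, p.2, rfl, (hmem _).1 hp⟩
  rw [h1, ← hF, Set.ncard_coe_finset, Set.ncard_coe_finset,
    Finset.card_eq_sum_card_image (fun p : X × X => s(p.1, p.2)) F]
  rw [Finset.sum_congr rfl (g := fun _ => 2), Finset.sum_const, smul_eq_mul, mul_comm]
  intro T hT
  rw [Finset.mem_image] at hT
  obtain ⟨⟨a, b⟩, hab, rfl⟩ := hT
  have hab' : Q a b := (hmem _).1 hab
  have h2 : F.filter (fun p : X × X => s(p.1, p.2) = s(a, b)) = {(a, b), (b, a)} := by
    ext ⟨c, e⟩
    rw [Finset.mem_filter, Finset.mem_insert, Finset.mem_singleton, Sym2.eq_iff]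
    constructor
    · rintro ⟨-, h | h⟩
      · left; exact Prod.ext h.1 h.2
      · right; exact Prod.ext h.1 h.2
    · rintro (h | h)
      · have h1 := congrArg Prod.fst h
        have h2 := congrArg Prod.snd h
        simp only at h1 h2
        subst h1; subst h2
        exact ⟨hab, Or.inl ⟨rfl, rfl⟩⟩
      · have h1 := congrArg Prod.fst h
        have h2 := congrArg Prod.snd h
        simp only at h1 h2
        subst h1; subst h2
        exact ⟨(hmem _).2 (hs _ _ hab'), Or.inr ⟨rfl, rfl⟩⟩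
  rw [h2, Finset.card_pair]
  intro h
  exact hne a b hab' (congrArg Prod.fst h)

/-- grouping by type. -/
theorem sum_type {β : Type*} (R : Finset β) (c : β → ℕ) (n : ℕ) (hc : ∀ A ∈ R, 1 ≤ c A ∧ c A < n)
    (α : ℕ → ℝ) :
    ∑ A ∈ R, α (min (c A) (n - c A)) =
      ∑ i ∈ Finset.Icc 1 (n / 2), α i * ((R.filter (fun A => c A = i ∨ c A = n - i)).card : ℝ) := by
  classical
  have h1 : ∀ A ∈ R, min (c A) (n - c A) ∈ Finset.Icc 1 (n / 2) := by
    intro A hA
    have := hc A hA
    rw [Finset.mem_Icc]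
    omega
  rw [← Finset.sum_fiberwise_of_maps_to h1]
  apply Finset.sum_congr rfl
  intro i hi
  rw [Finset.mem_Icc] at hi
  have h2 : R.filter (fun A => min (c A) (n - c A) = i) =
      R.filter (fun A => c A = i ∨ c A = n - i) := by
    apply Finset.filter_congr
    intro A hA
    have := hc A hA
    omega
  rw [h2, Finset.sum_congr rfl (g := fun _ => α i), Finset.sum_const, nsmul_eq_mul, mul_comm]
  intro A hA
  rw [← h2, Finset.mem_filter] at hA
  rw [hA.2]

variable {d : ℕ}

theorem GenPos.gp {S : Finset (Fin d → ℝ)} (hS : GenPos S) (hc : d + 1 ≤ S.card) :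
    GP (fun i : S => (i : Fin d → ℝ)) := by
  classical
  intro l hl hls
  by_contra hl0
  rw [finrank_fin_fun] at hls
  obtain ⟨B, hlB, hB⟩ := Finset.exists_superset_card_eq hls
    (by rw [Fintype.card_coe]; exact hc : d + 1 ≤ Fintype.card S)
  have h1 : finrank ℝ ↥(vanish Bᶜ) = finrank ℝ (ℝ × (Fin d → ℝ)) := by
    rw [finrank_vanish, Module.finrank_prod, finrank_self, finrank_fin_fun, Finset.card_compl, hB,
      Fintype.card_coe]
    omega
  set Ψ : ↥(vanish Bᶜ) →ₗ[ℝ] ℝ × (Fin d → ℝ) :=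
    (Phi (fun i : S => (i : Fin d → ℝ))).comp (vanish Bᶜ).subtype with hΨ
  have hlv : l ∈ vanish Bᶜ := supp_subset_iff.1 hlB
  have hninj : ¬ Function.Injective Ψ := by
    intro hinj
    apply hl0
    have h2 : Ψ ⟨l, hlv⟩ = Ψ 0 := by
      rw [map_zero, hΨ, LinearMap.comp_apply, Submodule.subtype_apply]
      exact hl
    exact congrArg Subtype.val (hinj h2)
  have hnsurj : LinearMap.range Ψ < ⊤ := by
    rw [lt_top_iff_ne_top]
    intro htop
    exact hninj ((LinearMap.injective_iff_surjective_of_finrank_eq_finrank h1).2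
      (LinearMap.range_eq_top.1 htop))
  obtain ⟨f, hf0, hf⟩ := Submodule.exists_le_ker_of_lt_top _ hnsurj
  have hfi : ∀ i ∈ B, f (1, (i : Fin d → ℝ)) = 0 := by
    intro i hi
    have h2 : (Pi.single i 1 : S → ℝ) ∈ vanish Bᶜ := by
      intro j hj
      rw [Finset.mem_compl] at hj
      rw [Pi.single_apply, if_neg]
      rintro rfl
      exact hj hi
    have h3 : Ψ ⟨Pi.single i 1, h2⟩ = (1, (i : Fin d → ℝ)) := by
      rw [hΨ, LinearMap.comp_apply, Submodule.subtype_apply, Phi_apply]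
      simp only [Prod.mk.injEq]
      constructor
      · simp
      · rw [Finset.sum_eq_single i]
        · simp
        · intro j _ hj
          simp [Pi.single_apply, hj]
        · intro h'; exact absurd (Finset.mem_univ _) h'
    have h4 := hf (LinearMap.mem_range.2 ⟨_, h3⟩)
    exact LinearMap.mem_ker.1 h4
  have hdec : ∀ (t : ℝ) (w : Fin d → ℝ), f (t, w) = t * f (1, 0) + ∑ j, f (0, Pi.single j 1) * w j := by
    intro t w
    have h2 : ((t, w) : ℝ × (Fin d → ℝ)) = t • ((1, 0) : ℝ × (Fin d → ℝ)) +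
        ∑ j, w j • ((0, Pi.single j 1) : ℝ × (Fin d → ℝ)) := by
      have h3 : ∑ j, w j • ((0, Pi.single j 1) : ℝ × (Fin d → ℝ)) = (0, w) := by
        rw [Prod.ext_iff]
        constructor
        · rw [Prod.fst_sum]; simp
        · rw [Prod.snd_sum]
          ext k
          rw [Finset.sum_apply]
          simp [Pi.single_apply]
      rw [h3, Prod.smul_mk, Prod.mk_add_mk]
      simp
    rw [h2, map_add, map_smul, map_sum, smul_eq_mul]
    congr 1
    apply Finset.sum_congr rfl
    intro j _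
    rw [map_smul, smul_eq_mul, mul_comm]
  obtain ⟨i0, hi0⟩ : B.Nonempty := by rw [← Finset.card_pos, hB]; omega
  have ha : (fun j => f (0, Pi.single j 1)) ≠ (0 : Fin d → ℝ) := by
    intro ha
    apply hf0
    have ha' : ∀ j, f (0, Pi.single j 1) = 0 := fun j => congrFun ha j
    have h2 := hfi i0 hi0
    rw [hdec] at h2
    simp only [ha', zero_mul, Finset.sum_const_zero, add_zero, one_mul] at h2
    apply LinearMap.ext
    rintro ⟨t, w⟩
    rw [hdec]
    simp [ha', h2]
  obtain ⟨y, hy, hyc⟩ := hS (B.map (Function.Embedding.subtype _))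
    (by
      intro y hy
      rw [Finset.mem_map] at hy
      obtain ⟨i, _, rfl⟩ := hy
      exact i.2) (by rw [Finset.card_map, hB]) _ ha (- f (1, 0))
  rw [Finset.mem_map] at hy
  obtain ⟨i, hi, rfl⟩ := hy
  apply hyc
  have h2 := hfi i hi
  rw [hdec] at h2
  rw [Function.Embedding.subtype_apply]
  linarith

variable {ι : Type*} [Fintype ι] [DecidableEq ι]

theorem GP.genPos {x : ι ↪ (Fin d → ℝ)} (h : GP x) : GenPos (univ.map x) := by
  classical
  intro T hT hTc a ha c
  obtain ⟨B, -, rfl⟩ := Finset.subset_map_iff.1 hT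
  rw [Finset.card_map] at hTc
  by_contra hcon
  push Not at hcon
  have hB : ∀ i ∈ B, ∑ j, a j * x i j = c := fun i hi => hcon (x i) (Finset.mem_map_of_mem _ hi)
  obtain ⟨l, hlv, hl⟩ := surj_of_inj (x := x) (Z := Bᶜ)
    (by rw [Finset.card_compl, finrank_fin_fun, hTc]
        have := Finset.card_le_univ B
        rw [hTc] at this
        omega)
    (by
      intro l hl hlv
      apply h l hl
      have := Finset.card_le_card (supp_subset_iff.2 hlv)
      rw [finrank_fin_fun]; omega) (0, a)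
  rw [Phi_apply, Prod.mk.injEq] at hl
  obtain ⟨h1, h2⟩ := hl
  have h3 : ∑ j, a j * a j = 0 := by
    calc ∑ j, a j * a j = ∑ j, a j * (∑ i, l i • x i) j := by rw [h2]
      _ = ∑ i, l i * ∑ j, a j * x i j := by
          simp only [Finset.sum_apply, Pi.smul_apply, smul_eq_mul, Finset.mul_sum]
          rw [Finset.sum_comm]
          apply Finset.sum_congr rfl
          intro i _
          apply Finset.sum_congr rfl
          intro j _
          ring
      _ = ∑ i, l i * c := by
          apply Finset.sum_congr rfl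
          intro i _
          by_cases hi : i ∈ B
          · rw [hB i hi]
          · rw [hlv i (Finset.mem_compl.2 hi), zero_mul, zero_mul]
      _ = 0 := by rw [← Finset.sum_mul, h1, zero_mul]
  apply ha
  ext j
  have h4 := (Finset.sum_eq_zero_iff_of_nonneg (fun j _ => mul_self_nonneg (a j))).1 h3 j
    (Finset.mem_univ j)
  exact mul_self_eq_zero.1 h4

theorem Meet.symm {T₁ T₂ : Finset (Fin d → ℝ)} (h : Meet T₁ T₂) : Meet T₂ T₁ := by
  obtain ⟨h1, h2, h3, h4⟩ := h
  exact ⟨h2, h1, h3.symm, by rwa [Set.inter_comm]⟩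

theorem IsMin.symm {T₁ T₂ : Finset (Fin d → ℝ)} (h : IsMin T₁ T₂) : IsMin T₂ T₁ := by
  intro T₁' T₂' h1 h2 h3
  rw [Sym2.eq_swap, h T₂' T₁' h2 h1 h3.symm, Sym2.eq_swap]

theorem Meet.ne {T₁ T₂ : Finset (Fin d → ℝ)} (h : Meet T₁ T₂) : T₁ ≠ T₂ := by
  rintro rfl
  obtain ⟨⟨y, hy⟩, h2, h3, h4⟩ := h
  exact (Finset.disjoint_left.1 h3 hy) hy

theorem isMin_iff {T₁ T₂ : Finset (Fin d → ℝ)} (h : Meet T₁ T₂) : IsMin T₁ T₂ ↔
    ∀ T₁' T₂' : Finset (Fin d → ℝ), T₁' ⊆ T₁ → T₂' ⊆ T₂ → Meet T₁' T₂' → T₁' = T₁ ∧ T₂' = T₂ := by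
  constructor
  · intro h1 T₁' T₂' h2 h3 h4
    have h5 := h1 T₁' T₂' h2 h3 h4
    rw [Sym2.eq_iff] at h5
    rcases h5 with h5 | ⟨h5, h6⟩
    · exact h5
    · exfalso
      obtain ⟨y, hy⟩ := h.2.1
      rw [← h5] at hy
      have := h2 hy
      rw [h5] at hy
      exact (Finset.disjoint_left.1 h.2.2.1 this) hy
  · intro h1 T₁' T₂' h2 h3 h4
    obtain ⟨rfl, rfl⟩ := h1 T₁' T₂' h2 h3 h4
    rfl

theorem meet_map {x : ι ↪ (Fin d → ℝ)} {A B : Finset ι} :
    Meet (A.map x) (B.map x) ↔ Disjoint A B ∧ Rad x A B := by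
  classical
  constructor
  · rintro ⟨-, -, h3, h4⟩
    have hd := (Finset.disjoint_map x).1 h3
    refine ⟨hd, ?_⟩
    rw [Finset.coe_map, Finset.coe_map] at h4
    exact (radon_iff hd).1 h4
  · rintro ⟨hd, hR⟩
    have h4 := (radon_iff hd).2 hR
    have hA : A.Nonempty := by
      by_contra hA
      rw [Finset.not_nonempty_iff_eq_empty] at hA
      rw [hA] at h4
      simp at h4
    have hB : B.Nonempty := by
      by_contra hB
      rw [Finset.not_nonempty_iff_eq_empty] at hB
      rw [hB] at h4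
      simp at h4
    refine ⟨Finset.map_nonempty.2 hA, Finset.map_nonempty.2 hB, (Finset.disjoint_map x).2 hd, ?_⟩
    rw [Finset.coe_map, Finset.coe_map]
    exact h4

theorem pos_ne {x : ι → (Fin d → ℝ)} {M : Submodule ℝ (ι → ℝ)} {T A : Finset ι}
    (hM : M ≤ dep x) (hT : ∀ l ∈ M, ∀ i, i ∉ T → l i = 0) (hne : T.Nonempty) (hA : A ⊆ T)
    (hp : Pos M T A) : 1 ≤ A.card ∧ A.card < T.card := by
  classical
  obtain ⟨l, hl, h1⟩ := hp
  have hsum : ∑ i ∈ T, l i = 0 := by
    rw [Finset.sum_subset (Finset.subset_univ T)]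
    · exact (mem_dep.1 (hM hl)).1
    · intro i _ hi; exact hT l hl i hi
  constructor
  · rw [Nat.one_le_iff_ne_zero]
    intro hA0
    rw [Finset.card_eq_zero] at hA0
    have : ∑ i ∈ T, l i < 0 := by
      apply Finset.sum_neg _ hne
      intro i hi
      have := h1 i hi
      rw [hA0, sg_of_notMem (Finset.notMem_empty i)] at this
      linarith
    linarith
  · apply lt_of_le_of_ne (Finset.card_le_card hA)
    intro hc
    have hAT : A = T := Finset.eq_of_subset_of_card_le hA hc.ge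
    have : 0 < ∑ i ∈ T, l i := by
      apply Finset.sum_pos _ hne
      intro i hi
      have := h1 i hi
      rw [sg_of_mem (hAT ▸ hi)] at this
      linarith
    linarith

theorem two_radonNum {x : ι ↪ (Fin d → ℝ)} (h : GP x) {m : ℕ}
    (hm : Fintype.card ι = d + 1 + m) {i : ℕ} (hi : i ≤ Fintype.card ι) :
    2 * radonNum (univ.map x) i = ((topes (dep x) univ).filter
      (fun A => A.card = i ∨ A.card = Fintype.card ι - i)).card := by
  classical
  have hSc : (univ.map x).card = Fintype.card ι := by rw [Finset.card_map, Finset.card_univ]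
  set Q : Finset (Fin d → ℝ) → Finset (Fin d → ℝ) → Prop := fun T₁ T₂ =>
    T₁ ∪ T₂ = univ.map x ∧ Meet T₁ T₂ ∧ ((T₁.card = i ∧ T₂.card = (univ.map x).card - i) ∨
      (T₁.card = (univ.map x).card - i ∧ T₂.card = i)) with hQ
  have hset : {p : Finset (Fin d → ℝ) × Finset (Fin d → ℝ) | Q p.1 p.2} =
      (fun A : Finset ι => (A.map x, Aᶜ.map x)) '' (((topes (dep x) univ).filter
      (fun A => A.card = i ∨ A.card = Fintype.card ι - i) : Finset (Finset ι)) :
        Set (Finset ι)) := by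
    ext ⟨T₁, T₂⟩
    simp only [hQ, Set.mem_ofPred_eq, Set.mem_image, Finset.mem_coe, Finset.mem_filter, mem_topes,
      Finset.subset_univ, true_and, Prod.mk.injEq]
    constructor
    · rintro ⟨h1, h2, h3⟩
      obtain ⟨A, -, rfl⟩ := Finset.subset_map_iff.1
        (h1 ▸ Finset.subset_union_left : T₁ ⊆ univ.map x)
      obtain ⟨B, -, rfl⟩ := Finset.subset_map_iff.1
        (h1 ▸ Finset.subset_union_right : T₂ ⊆ univ.map x)
      rw [← Finset.map_union] at h1
      have h4 := Finset.map_injective x h1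
      obtain ⟨h5, h6⟩ := meet_map.1 h2
      have hB : B = Aᶜ := by
        ext j
        rw [Finset.mem_compl]
        constructor
        · intro hj hjA; exact Finset.disjoint_left.1 h5 hjA hj
        · intro hj
          have : j ∈ A ∪ B := by rw [h4]; exact Finset.mem_univ j
          exact (Finset.mem_union.1 this).resolve_left hj
      subst hB
      refine ⟨A, ⟨(rad_compl_iff h (by rw [finrank_fin_fun]; exact hm)).1 h6, ?_⟩, rfl, rfl⟩
      rw [Finset.card_map, Finset.card_map, hSc] at h3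
      rcases h3 with h3 | h3
      · exact Or.inl h3.1
      · exact Or.inr h3.1
    · rintro ⟨A, ⟨h1, h2⟩, rfl, rfl⟩
      refine ⟨?_, ?_, ?_⟩
      · rw [← Finset.map_union, Finset.union_compl]
      · rw [meet_map]
        exact ⟨disjoint_compl_right, (rad_compl_iff h (by rw [finrank_fin_fun]; exact hm)).2 h1⟩
      · rw [Finset.card_map, Finset.card_map, hSc, Finset.card_compl]
        have := Finset.card_le_univ A
        rcases h2 with h2 | h2
        · left; omega
        · right; omega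
  have hfin : {p : Finset (Fin d → ℝ) × Finset (Fin d → ℝ) | Q p.1 p.2}.Finite := by
    rw [hset]; exact (Finset.finite_toSet _).image _
  have h1 := ncard_sym2 Q (by
    rintro a b ⟨h1, h2, h3⟩
    refine ⟨by rw [Finset.union_comm]; exact h1, h2.symm, ?_⟩
    rcases h3 with h3 | h3
    · exact Or.inr ⟨h3.2, h3.1⟩
    · exact Or.inl ⟨h3.2, h3.1⟩) (fun a b hab => hab.2.1.ne) hfin
  have h2 : {T : Sym2 (Finset (Fin d → ℝ)) | ∃ T₁ T₂ : Finset (Fin d → ℝ), T = s(T₁, T₂) ∧
      T₁ ∪ T₂ = univ.map x ∧ Meet T₁ T₂ ∧ T₁.card = i ∧ T₂.card = (univ.map x).card - i} =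
      {T | ∃ a b, T = s(a, b) ∧ Q a b} := by
    ext T
    constructor
    · rintro ⟨a, b, h1, h2, h3, h4, h5⟩
      exact ⟨a, b, h1, h2, h3, Or.inl ⟨h4, h5⟩⟩
    · rintro ⟨a, b, h1, h2, h3, h4 | h4⟩
      · exact ⟨a, b, h1, h2, h3, h4.1, h4.2⟩
      · exact ⟨b, a, by rw [h1, Sym2.eq_swap], by rw [Finset.union_comm]; exact h2, h3.symm,
          h4.2, h4.1⟩
  unfold radonNum
  rw [h2, h1, hset, Set.ncard_image_of_injective, Set.ncard_coe_finset]
  intro A B hAB
  exact Finset.map_injective x (congrArg Prod.fst hAB)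

theorem rad_of_pos {x : ι → (Fin d → ℝ)} {M : Submodule ℝ (ι → ℝ)} {T A : Finset ι}
    (hM : M ≤ dep x) (hT : ∀ l ∈ M, ∀ i, i ∉ T → l i = 0) (hne : T.Nonempty)
    (hp : Pos M T A) : Rad x (T ∩ A) (T \ A) := by
  classical
  obtain ⟨l, hl, h1⟩ := hp
  obtain ⟨j, hj⟩ := hne
  refine ⟨l, hM hl, ?_, ?_, ?_, ?_⟩
  · rintro rfl
    have := h1 j hj
    simp at this
  · intro i hi
    rw [Finset.mem_inter] at hi
    have := h1 i hi.1
    rw [sg_of_mem hi.2] at this
    linarith
  · intro i hi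
    rw [Finset.mem_sdiff] at hi
    have := h1 i hi.1
    rw [sg_of_notMem hi.2] at this
    linarith
  · intro i h2 h3
    apply hT l hl
    intro hiT
    rw [Finset.mem_inter] at h2
    rw [Finset.mem_sdiff] at h3
    by_cases hiA : i ∈ A
    · exact h2 ⟨hiT, hiA⟩
    · exact h3 ⟨hiT, hiA⟩

theorem prim_iff {x : ι ↪ (Fin d → ℝ)} (h : GP x) {m : ℕ}
    (hm : Fintype.card ι = d + 1 + (m + 1)) {A B : Finset ι} :
    (Meet (A.map x) (B.map x) ∧ IsMin (A.map x) (B.map x)) ↔
      Disjoint A B ∧ (A ∪ B).card = d + 2 ∧ Pos (dep x ⊓ vanish (A ∪ B)ᶜ) (A ∪ B) A := by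
  classical
  have hG : Gen (dep x) univ (m + 1) := h.gen (by rw [finrank_fin_fun]; exact hm)
  constructor
  · rintro ⟨h1, h2⟩
    rw [isMin_iff h1] at h2
    obtain ⟨hd, hR⟩ := meet_map.1 h1
    have hmin : ∀ A' B' : Finset ι, A' ⊆ A → B' ⊆ B → Rad x A' B' → A' = A ∧ B' = B := by
      intro A' B' hA hB hR'
      have h3 := h2 (A'.map x) (B'.map x) (Finset.map_subset_map.2 hA) (Finset.map_subset_map.2 hB)
        (meet_map.2 ⟨Finset.disjoint_of_subset_left hA (Finset.disjoint_of_subset_right hB hd), hR'⟩)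
      exact ⟨Finset.map_injective x h3.1, Finset.map_injective x h3.2⟩
    obtain ⟨l, hl, hl0, h3, h4, h5⟩ := hR
    have h6 := hmin (A.filter (fun i => l i ≠ 0)) (B.filter (fun i => l i ≠ 0))
      (Finset.filter_subset _ _) (Finset.filter_subset _ _)
      ⟨l, hl, hl0, fun i hi => h3 i (Finset.mem_filter.1 hi).1,
        fun i hi => h4 i (Finset.mem_filter.1 hi).1, fun i hiA hiB => by
          by_contra h'
          apply h'
          apply h5
          · intro h''; exact hiA (Finset.mem_filter.2 ⟨h'', h'⟩)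
          · intro h''; exact hiB (Finset.mem_filter.2 ⟨h'', h'⟩)⟩
    have h7 : ∀ i ∈ A, 0 < l i := by
      intro i hi
      apply lt_of_le_of_ne (h3 i hi)
      have : i ∈ A.filter (fun i => l i ≠ 0) := by rw [h6.1]; exact hi
      exact (Finset.mem_filter.1 this).2.symm
    have h8 : ∀ i ∈ B, l i < 0 := by
      intro i hi
      apply lt_of_le_of_ne (h4 i hi)
      have : i ∈ B.filter (fun i => l i ≠ 0) := by rw [h6.2]; exact hi
      exact (Finset.mem_filter.1 this).2
    have hlv : l ∈ vanish (A ∪ B)ᶜ := by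
      intro i hi
      rw [Finset.mem_compl, Finset.mem_union, not_or] at hi
      exact h5 i hi.1 hi.2
    have hcard : d + 2 ≤ (A ∪ B).card := by
      by_contra hcon
      apply hl0
      apply h l hl
      have := Finset.card_le_card (supp_subset_iff.2 hlv)
      rw [finrank_fin_fun]; omega
    have hPos : Pos (dep x ⊓ vanish (A ∪ B)ᶜ) (A ∪ B) A := by
      refine ⟨l, ⟨hl, hlv⟩, ?_⟩
      intro i hi
      by_cases hiA : i ∈ A
      · rw [sg_of_mem hiA, one_mul]; exact h7 i hiA
      · rw [sg_of_notMem hiA]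
        have := h8 i ((Finset.mem_union.1 hi).resolve_left hiA)
        linarith
    obtain ⟨q, hq⟩ : ∃ q, (A ∪ B).card = d + 2 + q := ⟨(A ∪ B).card - (d + 2), by omega⟩
    have hG' : Gen (dep x ⊓ vanish (A ∪ B)ᶜ) (A ∪ B) (q + 1) := by
      have h9 := hG.contract (K := (A ∪ B)ᶜ) (T := A ∪ B) (Finset.subset_univ _)
        (Finset.subset_univ _) disjoint_compl_left
      have h10 : m + 1 - ((A ∪ B)ᶜ).card = q + 1 := by
        have := Finset.card_le_univ (A ∪ B)
        rw [Finset.card_compl, hm, hq]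
        omega
      rwa [h10] at h9
    obtain ⟨K, hK, hKc, hKp⟩ := Gen.exists_circuit q hG' (by omega) hPos
    have hR := rad_of_pos (x := x) (T := (A ∪ B) \ K)
      (M := dep x ⊓ vanish (A ∪ B)ᶜ ⊓ vanish K) (A := A) (inf_le_left.trans inf_le_left)
      (by
        rintro l ⟨⟨hl1, hl2⟩, hl3⟩ i hi
        by_cases hiAB : i ∈ A ∪ B
        · apply hl3
          by_contra hiK
          exact hi (Finset.mem_sdiff.2 ⟨hiAB, hiK⟩)
        · exact hl2 i (Finset.mem_compl.2 hiAB))
      (by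
        rw [← Finset.card_pos, Finset.card_sdiff_of_subset hK]; omega) hKp
    have hsub1 : ((A ∪ B) \ K) ∩ A ⊆ A := Finset.inter_subset_right
    have hsub2 : ((A ∪ B) \ K) \ A ⊆ B := by
      intro i hi
      rw [Finset.mem_sdiff, Finset.mem_sdiff, Finset.mem_union] at hi
      exact hi.1.1.resolve_left hi.2
    have h9 := hmin _ _ hsub1 hsub2 hR
    have hKe : K = ∅ := by
      rw [Finset.eq_empty_iff_forall_notMem]
      intro i hi
      rcases Finset.mem_union.1 (hK hi) with hiA | hiB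
      · rw [← h9.1, Finset.mem_inter, Finset.mem_sdiff] at hiA
        exact hiA.1.2 hi
      · rw [← h9.2, Finset.mem_sdiff, Finset.mem_sdiff] at hiB
        exact hiB.1.2 hi
    refine ⟨hd, ?_, hPos⟩
    rw [hKe, Finset.card_empty] at hKc
    omega
  · rintro ⟨hd, hc, hp⟩
    have hR : Rad x A B := by
      have h1 := rad_of_pos (x := x) (M := dep x ⊓ vanish (A ∪ B)ᶜ) (T := A ∪ B) (A := A)
        inf_le_left (fun l hl i hi => hl.2 i (Finset.mem_compl.2 hi))
        (by rw [← Finset.card_pos]; omega) hp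
      have h2 : (A ∪ B) ∩ A = A := Finset.inter_eq_right.2 Finset.subset_union_left
      have h3 : (A ∪ B) \ A = B := by
        ext i
        rw [Finset.mem_sdiff, Finset.mem_union]
        constructor
        · rintro ⟨h4, h5⟩; exact h4.resolve_left h5
        · intro h4; exact ⟨Or.inr h4, fun h5 => Finset.disjoint_left.1 hd h5 h4⟩
      rwa [h2, h3] at h1
    have hM := (meet_map (x := x)).2 ⟨hd, hR⟩
    refine ⟨hM, ?_⟩
    rw [isMin_iff hM]
    intro T₁ T₂ h1 h2 h3
    obtain ⟨A', hA', rfl⟩ := Finset.subset_map_iff.1 h1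
    obtain ⟨B', hB', rfl⟩ := Finset.subset_map_iff.1 h2
    obtain ⟨hd', l, hl, hl0, -, -, h4⟩ := meet_map.1 h3
    have h5 : supp l ⊆ A' ∪ B' := by
      intro i hi
      rw [Finset.mem_union]
      by_contra h6
      rw [not_or] at h6
      exact mem_supp.1 hi (h4 i h6.1 h6.2)
    have h6 : d + 2 ≤ (supp l).card := by
      by_contra hcon
      apply hl0
      apply h l hl
      rw [finrank_fin_fun]; omega
    have h7 := Finset.card_le_card h5
    have h8 : A' ∪ B' = A ∪ B := Finset.eq_of_subset_of_card_le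
      (Finset.union_subset_union hA' hB') (by omega)
    constructor
    · congr 1
      apply Finset.Subset.antisymm hA'
      intro i hi
      have : i ∈ A' ∪ B' := by rw [h8]; exact Finset.mem_union_left _ hi
      rcases Finset.mem_union.1 this with h9 | h9
      · exact h9
      · exact absurd (hB' h9) (Finset.disjoint_left.1 hd hi)
    · congr 1
      apply Finset.Subset.antisymm hB'
      intro i hi
      have : i ∈ A' ∪ B' := by rw [h8]; exact Finset.mem_union_right _ hi
      rcases Finset.mem_union.1 this with h9 | h9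
      · exact absurd hi (Finset.disjoint_left.1 hd (hA' h9))
      · exact h9

/-- The oriented primitive partitions. -/
noncomputable def circ (x : ι → (Fin d → ℝ)) (m : ℕ) : Finset (Σ _ : Finset ι, Finset ι) :=
  (univ.powersetCard m).sigma (fun K => topes (dep x ⊓ vanish K) (univ \ K))

theorem mem_circ {x : ι → (Fin d → ℝ)} {m : ℕ} {p : Σ _ : Finset ι, Finset ι} :
    p ∈ circ x m ↔ p.1.card = m ∧ p.2 ⊆ univ \ p.1 ∧
      Pos (dep x ⊓ vanish p.1) (univ \ p.1) p.2 := by
  rw [circ, Finset.mem_sigma, Finset.mem_powersetCard, mem_topes]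
  constructor
  · rintro ⟨⟨-, h1⟩, h2⟩; exact ⟨h1, h2⟩
  · rintro ⟨h1, h2⟩; exact ⟨⟨Finset.subset_univ _, h1⟩, h2⟩

theorem two_primNum {x : ι ↪ (Fin d → ℝ)} (h : GP x) {m : ℕ}
    (hm : Fintype.card ι = d + 1 + (m + 1)) {i : ℕ} (hi : i ≤ d + 2) :
    2 * primNum (univ.map x) i =
      ((circ x m).filter (fun p => p.2.card = i ∨ p.2.card = d + 2 - i)).card := by
  classical
  set Q : Finset (Fin d → ℝ) → Finset (Fin d → ℝ) → Prop := fun T₁ T₂ =>
    T₁ ⊆ univ.map x ∧ T₂ ⊆ univ.map x ∧ Meet T₁ T₂ ∧ IsMin T₁ T₂ ∧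
      ((T₁.card = i ∧ T₂.card = d + 2 - i) ∨ (T₁.card = d + 2 - i ∧ T₂.card = i)) with hQ
  have hset : {p : Finset (Fin d → ℝ) × Finset (Fin d → ℝ) | Q p.1 p.2} =
      (fun p : (Σ _ : Finset ι, Finset ι) => (p.2.map x, ((univ \ p.1) \ p.2).map x)) ''
        (((circ x m).filter (fun p => p.2.card = i ∨ p.2.card = d + 2 - i) :
          Finset (Σ _ : Finset ι, Finset ι)) : Set (Σ _ : Finset ι, Finset ι)) := by
    ext ⟨T₁, T₂⟩
    simp only [hQ, Set.mem_ofPred_eq, Set.mem_image, Finset.mem_coe, Finset.mem_filter, mem_circ,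
      Prod.mk.injEq]
    constructor
    · rintro ⟨h1, h2, h3, h4, h5⟩
      obtain ⟨A, -, rfl⟩ := Finset.subset_map_iff.1 h1
      obtain ⟨B, -, rfl⟩ := Finset.subset_map_iff.1 h2
      obtain ⟨h6, h7, h8⟩ := (prim_iff h hm).1 ⟨h3, h4⟩
      have e1 : univ \ (A ∪ B)ᶜ = A ∪ B := by
        rw [← Finset.compl_eq_univ_sdiff, compl_compl]
      have e2 : (A ∪ B) \ A = B := by
        ext j
        rw [Finset.mem_sdiff, Finset.mem_union]
        constructor
        · rintro ⟨h4, h5⟩; exact h4.resolve_left h5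
        · intro h4; exact ⟨Or.inr h4, fun h5 => Finset.disjoint_left.1 h6 h5 h4⟩
      refine ⟨⟨(A ∪ B)ᶜ, A⟩, ⟨⟨?_, ?_, ?_⟩, ?_⟩, rfl, ?_⟩
      · rw [Finset.card_compl, h7, hm]; omega
      · simp only [e1]; exact Finset.subset_union_left
      · simp only [e1]; exact h8
      · rw [Finset.card_map, Finset.card_map] at h5
        rcases h5 with h5 | h5
        · exact Or.inl h5.1
        · exact Or.inr h5.1
      · simp only [e1, e2]
    · rintro ⟨⟨K, A⟩, ⟨⟨h1, h2, h3⟩, h4⟩, rfl, rfl⟩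
      simp only at h1 h2 h3 h4 ⊢
      have e1 : A ∪ (univ \ K) \ A = univ \ K := Finset.union_sdiff_of_subset h2
      have e2 : (univ \ K)ᶜ = K := by
        rw [← Finset.compl_eq_univ_sdiff, compl_compl]
      have e3 : (univ \ K).card = d + 2 := by
        rw [Finset.card_sdiff_of_subset (Finset.subset_univ _), Finset.card_univ, hm, h1]; omega
      have h5 := (prim_iff (A := A) (B := (univ \ K) \ A) h hm).2
        ⟨Finset.disjoint_sdiff, by rw [e1, e3], by rw [e1, e2]; exact h3⟩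
      refine ⟨Finset.map_subset_map.2 (Finset.subset_univ _),
        Finset.map_subset_map.2 (Finset.subset_univ _), h5.1, h5.2, ?_⟩
      rw [Finset.card_map, Finset.card_map, Finset.card_sdiff_of_subset h2, e3]
      have := Finset.card_le_card h2
      rw [e3] at this
      omega
  have hfin : {p : Finset (Fin d → ℝ) × Finset (Fin d → ℝ) | Q p.1 p.2}.Finite := by
    rw [hset]; exact (Finset.finite_toSet _).image _
  have h1 := ncard_sym2 Q (by
    rintro a b ⟨h1, h2, h3, h4, h5⟩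
    refine ⟨h2, h1, h3.symm, h4.symm, ?_⟩
    rcases h5 with h5 | h5
    · exact Or.inr ⟨h5.2, h5.1⟩
    · exact Or.inl ⟨h5.2, h5.1⟩) (fun a b hab => hab.2.2.1.ne) hfin
  have h2 : {T : Sym2 (Finset (Fin d → ℝ)) | ∃ T₁ T₂ : Finset (Fin d → ℝ), T = s(T₁, T₂) ∧
      T₁ ⊆ univ.map x ∧ T₂ ⊆ univ.map x ∧ Meet T₁ T₂ ∧ IsMin T₁ T₂ ∧ T₁.card = i ∧
        T₂.card = d + 2 - i} = {T | ∃ a b, T = s(a, b) ∧ Q a b} := by
    ext T
    constructor
    · rintro ⟨a, b, h1, h2, h3, h4, h5, h6, h7⟩
      exact ⟨a, b, h1, h2, h3, h4, h5, Or.inl ⟨h6, h7⟩⟩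
    · rintro ⟨a, b, h1, h2, h3, h4, h5, h6 | h6⟩
      · exact ⟨a, b, h1, h2, h3, h4, h5, h6.1, h6.2⟩
      · exact ⟨b, a, by rw [h1, Sym2.eq_swap], h3, h2, h4.symm, h5.symm, h6.2, h6.1⟩
  unfold primNum
  rw [h2, h1, hset, Set.ncard_image_of_injOn, Set.ncard_coe_finset]
  rintro ⟨K, A⟩ h3 ⟨K', A'⟩ h4 h5
  rw [Finset.mem_coe, Finset.mem_filter, mem_circ] at h3 h4
  simp only [Prod.mk.injEq] at h5
  have h6 : A = A' := Finset.map_injective x h5.1
  subst h6
  have h7 := Finset.map_injective x h5.2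
  have h8 : univ \ K = univ \ K' := by
    rw [← Finset.union_sdiff_of_subset h3.1.2.1, h7, Finset.union_sdiff_of_subset h4.1.2.1]
  have h9 : K = K' := by
    rw [← compl_compl K, ← compl_compl K', Finset.compl_eq_univ_sdiff K,
      Finset.compl_eq_univ_sdiff K', h8]
  subst h9
  rfl

end Pool.Agent.U280.Radon
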