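import Pool.Agent.U280.Radon.Mut

/-!
The change of the numbers of Radon partitions and of circuits in a mutation.
-/

set_option autoImplicit false
set_option linter.unusedSectionVars false
set_option linter.unusedVariables false
set_option linter.unusedSimpArgs false

namespace Pool.Agent.U280.Radon

open Finset Module Filter Topology

variable {ι : Type*} [Fintype ι] [DecidableEq ι]
variable {E : Type*} [AddCommGroup E] [Module ℝ E] [FiniteDimensional ℝ E]

/-- The sum of `a |A|` over the Radon partitions `(A, Aᶜ)` and of `b |A|` over the circuits. -/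
noncomputable def wsum (x : ι → E) (m : ℕ) (a b : ℕ → ℝ) : ℝ :=
  ∑ A ∈ topes (dep x) univ, a A.card +
    ∑ K ∈ univ.powersetCard m, ∑ A ∈ topes (dep x ⊓ vanish K) (univ \ K), b A.card

theorem exists_pm {P : ℝ → Prop} (h : ∀ᶠ t in 𝓝[≠] (0 : ℝ), P t) : ∃ T : ℝ, 0 < T ∧ P T ∧ P (-T) := by
  rw [eventually_nhdsWithin_iff, Metric.eventually_nhds_iff] at h
  obtain ⟨ε, hε, h⟩ := h
  refine ⟨ε / 2, by positivity, ?_, ?_⟩
  · apply h
    · rw [Real.dist_eq, sub_zero, abs_of_pos (by positivity)]; linarith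
    · simp only [Set.mem_compl_iff, Set.mem_singleton_iff]; positivity
  · apply h
    · rw [Real.dist_eq, sub_zero, abs_neg, abs_of_pos (by positivity)]; linarith
    · simp only [Set.mem_compl_iff, Set.mem_singleton_iff, neg_eq_zero]; positivity

theorem topes_dim_one {M : Submodule ℝ (ι → ℝ)} {T X : Finset ι} (h : Gen M T 1)
    (hT : T.Nonempty) (hX : X ⊆ T) (hp : Pos M T X) (b : ℕ → ℝ) :
    ∑ A ∈ topes M T, b A.card = b X.card + b (T.card - X.card) := by
  classical
  have h1 : topes M T = {X, T \ X} := by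
    ext A
    rw [mem_topes, Finset.mem_insert, Finset.mem_singleton]
    constructor
    · rintro ⟨hA, hA'⟩
      rcases h.dim_one hA' hp with h2 | h2
      · left
        ext i
        by_cases hi : i ∈ T
        · have := h2 i hi
          by_cases hiX : i ∈ X
          · rw [sg_of_mem hiX] at this
            by_cases hiA : i ∈ A
            · simp [hiX, hiA]
            · rw [sg_of_notMem hiA] at this; norm_num at this
          · rw [sg_of_notMem hiX] at this
            by_cases hiA : i ∈ A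
            · rw [sg_of_mem hiA] at this; norm_num at this
            · simp [hiX, hiA]
        · exact ⟨fun h' => absurd (hA h') hi, fun h' => absurd (hX h') hi⟩
      · right
        ext i
        rw [Finset.mem_sdiff]
        by_cases hi : i ∈ T
        · have := h2 i hi
          by_cases hiX : i ∈ X
          · rw [sg_of_mem hiX] at this
            by_cases hiA : i ∈ A
            · rw [sg_of_mem hiA] at this; norm_num at this
            · simp [hiX, hiA]
          · rw [sg_of_notMem hiX] at this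
            by_cases hiA : i ∈ A
            · simp [hiX, hiA, hi]
            · rw [sg_of_notMem hiA] at this; norm_num at this
        · exact ⟨fun h' => absurd (hA h') hi, fun h' => absurd h'.1 hi⟩
    · rintro (rfl | rfl)
      · exact ⟨hX, hp⟩
      · refine ⟨Finset.sdiff_subset, (Pos.congr ?_).1 hp.compl⟩
        intro i hi
        unfold sg
        simp [hi]
  have hne : X ≠ T \ X := by
    intro h'
    obtain ⟨i, hi⟩ := hT
    by_cases hiX : i ∈ X
    · have := hiX
      rw [h', Finset.mem_sdiff] at this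
      exact this.2 hiX
    · apply hiX
      rw [h', Finset.mem_sdiff]
      exact ⟨hi, hiX⟩
  rw [h1, Finset.sum_pair hne, Finset.card_sdiff_of_subset hX]

variable {x : ι → E} {D : Finset ι} {lD : ι → ℝ} {h : E →ₗ[ℝ] ℝ} {u : E} {i0 : ι} {m : ℕ}

namespace MutData

/-- The properties which hold for all small `t ≠ 0`. -/
structure Good (M : MutData x D lD h u i0 m) (t : ℝ) : Prop where
  ne : t ≠ 0
  gp : GP (xt x u i0 t)
  iff : ∀ K : Finset ι, K.card = m → (K ∩ D).Nonempty → ∀ A,
    (Pos (dep (xt x u i0 t) ⊓ vanish K) (univ \ K) A ↔ Pos (dep x ⊓ vanish K) (univ \ K) A)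
  onD : ∀ e, e ∉ D → ∀ A : Finset ι, (∀ i ∈ D, (i ∈ A ↔ 0 < lD i)) →
    (e ∈ A ↔ t * h (x e) < 0) →
    Pos (dep (xt x u i0 t) ⊓ vanish (Dᶜ.erase e)) (univ \ Dᶜ.erase e) A

theorem exists_good (M : MutData x D lD h u i0 m) : ∃ T : ℝ, 0 < T ∧ M.Good T ∧ M.Good (-T) := by
  apply exists_pm
  filter_upwards [M.ev_GP, M.ev_iff, M.ev_D, self_mem_nhdsWithin] with t h1 h2 h3 h4
  exact ⟨h4, h1, h2, h3⟩

variable {M : MutData x D lD h u i0 m} {t : ℝ}

theorem card_compl_D (M : MutData x D lD h u i0 m) : Dᶜ.card = m + 1 := by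
  rw [Finset.card_compl, M.card, M.cardD]; omega

theorem eq_erase (M : MutData x D lD h u i0 m) {K : Finset ι} (hK : K.card = m)
    (hKD : ¬ (K ∩ D).Nonempty) : ∃ e, e ∉ D ∧ K = Dᶜ.erase e := by
  classical
  have hsub : K ⊆ Dᶜ := by
    intro i hi
    rw [Finset.mem_compl]
    intro hiD
    exact hKD ⟨i, Finset.mem_inter.2 ⟨hi, hiD⟩⟩
  have h1 : (Dᶜ \ K).card = 1 := by
    rw [Finset.card_sdiff_of_subset hsub, M.card_compl_D, hK]; omega
  obtain ⟨e, he⟩ := Finset.card_eq_one.1 h1
  have he' : e ∈ Dᶜ \ K := by rw [he]; simp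
  rw [Finset.mem_sdiff, Finset.mem_compl] at he'
  refine ⟨e, he'.1, ?_⟩
  ext i
  rw [Finset.mem_erase]
  constructor
  · intro hi
    exact ⟨fun h' => he'.2 (h' ▸ hi), hsub hi⟩
  · rintro ⟨h2, h3⟩
    by_contra hi
    apply h2
    have : i ∈ Dᶜ \ K := Finset.mem_sdiff.2 ⟨h3, hi⟩
    rw [he, Finset.mem_singleton] at this
    exact this

theorem sdiff_erase (M : MutData x D lD h u i0 m) {e : ι} (he : e ∉ D) :
    univ \ Dᶜ.erase e = insert e D := by
  classical
  ext i
  simp only [Finset.mem_sdiff, Finset.mem_univ, true_and, Finset.mem_erase, Finset.mem_compl,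
    Finset.mem_insert, not_and, not_not]
  constructor
  · intro h1
    by_cases hie : i = e
    · exact Or.inl hie
    · exact Or.inr (h1 hie)
  · rintro (rfl | h1) h2
    · exact absurd rfl h2
    · exact h1

theorem Good.gen (hg : M.Good t) : Gen (dep (xt x u i0 t)) univ (m + 1) := hg.gp.gen M.card

theorem Good.pos_of_circuit (hg : M.Good t) {K A : Finset ι} (hK : K.card = m)
    (h1 : Pos (dep (xt x u i0 t) ⊓ vanish K) (univ \ K) A) : Pos (dep (xt x u i0 t)) univ A := by
  classical
  refine hg.gen.pos_of_face ?_ h1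
  apply Finset.card_pos.1
  rw [Finset.card_sdiff_of_subset (Finset.subset_univ _), Finset.card_univ, M.card, hK]
  omega

/-- Sign vectors which agree with the dependence on `D`. -/
theorem Good.mem_of_eq (hg : M.Good t) {A : Finset ι} (hA : ∀ i ∈ D, (i ∈ A ↔ 0 < lD i)) :
    Pos (dep (xt x u i0 t)) univ A ↔ ¬ ∀ i, i ∉ D → (i ∈ A ↔ 0 < t * h (x i)) := by
  classical
  constructor
  · intro h1 h2
    exact M.not_pos hg.ne ((hA i0 M.i0D).2 M.i0pos) h2 h1
  · intro h1
    push Not at h1
    obtain ⟨e, he, h2⟩ := h1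
    apply hg.pos_of_circuit (K := Dᶜ.erase e)
    · rw [Finset.card_erase_of_mem (Finset.mem_compl.2 he), M.card_compl_D]; omega
    · apply hg.onD e he A hA
      have h3 : t * h (x e) ≠ 0 := mul_ne_zero hg.ne (M.hnD e he)
      rcases h2 with ⟨h4, h5⟩ | ⟨h4, h5⟩
      · exact ⟨fun _ => lt_of_le_of_ne h5 h3, fun _ => h4⟩
      · exact ⟨fun h' => absurd h' h4, fun h' => absurd h5 (not_lt.2 h'.le)⟩

theorem Good.mem_other (hg : M.Good t) {A : Finset ι} (hA : ¬ ∀ i ∈ D, (i ∈ A ↔ 0 < lD i))
    (hA' : ¬ ∀ i ∈ D, (i ∈ Aᶜ ↔ 0 < lD i)) :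
    Pos (dep (xt x u i0 t)) univ A ↔
      ∃ K : Finset ι, K.card = m ∧ (K ∩ D).Nonempty ∧ Pos (dep x ⊓ vanish K) (univ \ K) A := by
  classical
  constructor
  · intro h1
    obtain ⟨K, -, hK, h2⟩ := Gen.exists_circuit m hg.gen
      (by rw [Finset.card_univ, M.card]; omega) h1
    by_cases hKD : (K ∩ D).Nonempty
    · exact ⟨K, hK, hKD, (hg.iff K hK hKD A).1 h2⟩
    · exfalso
      obtain ⟨e, he, rfl⟩ := M.eq_erase hK hKD
      have hG := hg.gp.gen_circuit M.card hK
      set X : Finset ι := (D.filter (fun i => 0 < lD i)) ∪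
        (if t * h (x e) < 0 then {e} else ∅) with hX
      have hXD : ∀ i ∈ D, (i ∈ X ↔ 0 < lD i) := by
        intro i hi
        have hie : i ≠ e := fun h' => he (h' ▸ hi)
        rw [hX, Finset.mem_union, Finset.mem_filter]
        split_ifs <;> simp [hi, hie]
      have hXe : e ∈ X ↔ t * h (x e) < 0 := by
        rw [hX, Finset.mem_union, Finset.mem_filter]
        split_ifs with h3 <;> simp [he, h3]
      have hXp := hg.onD e he X hXD hXe
      rw [M.sdiff_erase he] at h2 hXp hG
      rcases hG.dim_one h2 hXp with h3 | h3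
      · apply hA
        intro i hi
        rw [← hXD i hi]
        have h4 := h3 i (Finset.mem_insert_of_mem hi)
        unfold sg at h4
        by_cases h5 : i ∈ A <;> by_cases h6 : i ∈ X <;> simp [h5, h6] at h4 ⊢ <;> norm_num at h4
      · apply hA'
        intro i hi
        rw [← hXD i hi, Finset.mem_compl]
        have h4 := h3 i (Finset.mem_insert_of_mem hi)
        unfold sg at h4
        by_cases h5 : i ∈ A <;> by_cases h6 : i ∈ X <;> simp [h5, h6] at h4 ⊢ <;> norm_num at h4
  · rintro ⟨K, hK, hKD, h2⟩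
    exact hg.pos_of_circuit hK ((hg.iff K hK hKD A).2 h2)

end MutData

theorem pos_compl_iff {L : Submodule ℝ (ι → ℝ)} {S A : Finset ι} : Pos L S Aᶜ ↔ Pos L S A := by
  constructor
  · intro h1
    have := h1.compl
    rwa [compl_compl] at this
  · exact fun h1 => h1.compl

namespace MutData

theorem ite_aux1 (p q : Prop) [Decidable p] [Decidable q] (g : ℝ) :
    ((if ¬ q then g else 0) - (if ¬ p then g else 0) : ℝ) =
      (if p then g else 0) + 0 - (if q then g else 0) - 0 := by
  by_cases hp : p <;> by_cases hq : q <;> simp [hp, hq]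

theorem ite_aux2 (p q : Prop) [Decidable p] [Decidable q] (g : ℝ) :
    ((if ¬ q then g else 0) - (if ¬ p then g else 0) : ℝ) =
      0 + (if p then g else 0) - 0 - (if q then g else 0) := by
  by_cases hp : p <;> by_cases hq : q <;> simp [hp, hq]

/-- The change of the sum over Radon partitions. -/
theorem sum_topes_diff (M : MutData x D lD h u i0 m) {T : ℝ} (hT : 0 < T) (h1 : M.Good T)
    (h2 : M.Good (-T)) {a : ℕ → ℝ}
    (ha : ∀ j ≤ finrank ℝ E + 1 + (m + 1), a j = a (finrank ℝ E + 1 + (m + 1) - j)) :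
    ∑ A ∈ topes (dep (xt x u i0 (-T))) univ, a A.card -
      ∑ A ∈ topes (dep (xt x u i0 T)) univ, a A.card =
    2 * (a ((D.filter (fun i => 0 < lD i)).card + (Dᶜ.filter (fun i => 0 < h (x i))).card) -
      a ((D.filter (fun i => 0 < lD i)).card + (m + 1) -
        (Dᶜ.filter (fun i => 0 < h (x i))).card)) := by
  classical
  set P := D.filter (fun i => 0 < lD i) with hP
  set Q := Dᶜ.filter (fun i => 0 < h (x i)) with hQ
  set X := P ∪ Q with hX
  set Y := P ∪ (Dᶜ \ Q) with hY
  -- the two special sets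
  have hXD : ∀ A : Finset ι, A = X ↔ (∀ i ∈ D, (i ∈ A ↔ 0 < lD i)) ∧
      ∀ i, i ∉ D → (i ∈ A ↔ 0 < T * h (x i)) := by
    intro A
    constructor
    · rintro rfl
      constructor
      · intro i hi
        rw [hX, Finset.mem_union, hP, hQ, Finset.mem_filter, Finset.mem_filter,
          Finset.mem_compl]
        tauto
      · intro i hi
        rw [hX, Finset.mem_union, hP, hQ, Finset.mem_filter, Finset.mem_filter,
          Finset.mem_compl, mul_pos_iff_of_pos_left hT]
        tauto
    · rintro ⟨h3, h4⟩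
      ext i
      rw [hX, Finset.mem_union, hP, hQ, Finset.mem_filter, Finset.mem_filter, Finset.mem_compl]
      by_cases hi : i ∈ D
      · rw [h3 i hi]; tauto
      · rw [h4 i hi, mul_pos_iff_of_pos_left hT]; tauto
  have hneg : ∀ i, i ∉ D → (0 < -T * h (x i) ↔ ¬ 0 < h (x i)) := by
    intro i hi
    have h3 := M.hnD i hi
    constructor
    · intro h4 h5
      have := mul_pos hT h5
      linarith
    · intro h4
      have h5 : h (x i) < 0 := lt_of_le_of_ne (not_lt.1 h4) h3
      have := mul_neg_of_pos_of_neg hT h5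
      linarith
  have hYD : ∀ A : Finset ι, A = Y ↔ (∀ i ∈ D, (i ∈ A ↔ 0 < lD i)) ∧
      ∀ i, i ∉ D → (i ∈ A ↔ 0 < -T * h (x i)) := by
    intro A
    constructor
    · rintro rfl
      constructor
      · intro i hi
        rw [hY, Finset.mem_union, hP, Finset.mem_filter, Finset.mem_sdiff,
          Finset.mem_compl]
        tauto
      · intro i hi
        rw [hneg i hi, hY, Finset.mem_union, hP, hQ, Finset.mem_filter, Finset.mem_sdiff,
          Finset.mem_filter, Finset.mem_compl]
        tauto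
    · rintro ⟨h3, h4⟩
      ext i
      rw [hY, Finset.mem_union, hP, hQ, Finset.mem_filter, Finset.mem_sdiff, Finset.mem_filter,
        Finset.mem_compl]
      by_cases hi : i ∈ D
      · rw [h3 i hi]; tauto
      · rw [h4 i hi, hneg i hi]; tauto
  -- both patterns cannot occur together
  have hexcl : ∀ A : Finset ι, (∀ i ∈ D, (i ∈ A ↔ 0 < lD i)) →
      ¬ ∀ i ∈ D, (i ∈ Aᶜ ↔ 0 < lD i) := by
    intro A h3 h4
    have h5 := (h3 i0 M.i0D).2 M.i0pos
    have h6 := (h4 i0 M.i0D).2 M.i0pos
    exact (Finset.mem_compl.1 h6) h5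
  have key : ∀ A : Finset ι,
      (if Pos (dep (xt x u i0 (-T))) univ A then a A.card else 0) -
        (if Pos (dep (xt x u i0 T)) univ A then a A.card else 0) =
      (if A = X then a A.card else 0) + (if Aᶜ = X then a A.card else 0) -
        (if A = Y then a A.card else 0) - (if Aᶜ = Y then a A.card else 0) := by
    intro A
    by_cases hc1 : ∀ i ∈ D, (i ∈ A ↔ 0 < lD i)
    · have e1 := h1.mem_of_eq hc1
      have e2 := h2.mem_of_eq hc1
      have e3 := hexcl A hc1
      have e4 : ¬ Aᶜ = X := fun h' => e3 ((hXD _).1 h').1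
      have e5 : ¬ Aᶜ = Y := fun h' => e3 ((hYD _).1 h').1
      have e6 : Pos (dep (xt x u i0 T)) univ A ↔ ¬ A = X := by
        rw [e1, hXD]; tauto
      have e7 : Pos (dep (xt x u i0 (-T))) univ A ↔ ¬ A = Y := by
        rw [e2, hYD]; tauto
      simp only [e6, e7, e4, e5, if_false]
      exact ite_aux1 _ _ _
    · by_cases hc2 : ∀ i ∈ D, (i ∈ Aᶜ ↔ 0 < lD i)
      · have e1 := h1.mem_of_eq hc2
        have e2 := h2.mem_of_eq hc2
        rw [pos_compl_iff] at e1 e2
        have e4 : ¬ A = X := fun h' => hc1 ((hXD _).1 h').1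
        have e5 : ¬ A = Y := fun h' => hc1 ((hYD _).1 h').1
        have e6 : Pos (dep (xt x u i0 T)) univ A ↔ ¬ Aᶜ = X := by
          rw [e1, hXD]; tauto
        have e7 : Pos (dep (xt x u i0 (-T))) univ A ↔ ¬ Aᶜ = Y := by
          rw [e2, hYD]; tauto
        simp only [e6, e7, e4, e5, if_false]
        exact ite_aux2 _ _ _
      · have e1 := h1.mem_other hc1 hc2
        have e2 := h2.mem_other hc1 hc2
        have e4 : ¬ A = X := fun h' => hc1 ((hXD _).1 h').1
        have e5 : ¬ A = Y := fun h' => hc1 ((hYD _).1 h').1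
        have e6 : ¬ Aᶜ = X := fun h' => hc2 ((hXD _).1 h').1
        have e7 : ¬ Aᶜ = Y := fun h' => hc2 ((hYD _).1 h').1
        simp only [e1, e2, e4, e5, e6, e7, if_false]
        ring
  unfold topes
  rw [Finset.powerset_univ, Finset.sum_filter, Finset.sum_filter, ← Finset.sum_sub_distrib,
    Finset.sum_congr rfl (fun A _ => key A), Finset.sum_sub_distrib, Finset.sum_sub_distrib,
    Finset.sum_add_distrib]
  have s1 : ∀ Z : Finset ι, ∑ A : Finset ι, (if A = Z then a A.card else 0) = a Z.card := by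
    intro Z
    rw [Finset.sum_ite_eq' Finset.univ Z (fun A => a A.card)]
    simp
  have s2 : ∀ Z : Finset ι, ∑ A : Finset ι, (if Aᶜ = Z then a A.card else 0) = a Z.card := by
    intro Z
    have : ∀ A : Finset ι, (if Aᶜ = Z then a A.card else 0) =
        if A = Zᶜ then a A.card else 0 := by
      intro A
      congr 1
      rw [eq_iff_iff]
      constructor
      · rintro rfl; rw [compl_compl]
      · rintro rfl; rw [compl_compl]
    rw [Finset.sum_congr rfl (fun A _ => this A), s1, Finset.card_compl, M.card]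
    symm
    apply ha
    rw [← M.card]
    exact Finset.card_le_univ _
  rw [s1, s2, s1, s2]
  have hPQ : Disjoint P Q := by
    rw [Finset.disjoint_left]
    intro i hi hi'
    rw [hP, Finset.mem_filter] at hi
    rw [hQ, Finset.mem_filter, Finset.mem_compl] at hi'
    exact hi'.1 hi.1
  have hPQ' : Disjoint P (Dᶜ \ Q) := by
    rw [Finset.disjoint_left]
    intro i hi hi'
    rw [hP, Finset.mem_filter] at hi
    rw [Finset.mem_sdiff, Finset.mem_compl] at hi'
    exact hi'.1 hi.1
  have hQsub : Q ⊆ Dᶜ := Finset.filter_subset _ _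
  have hQle := Finset.card_le_card hQsub
  rw [M.card_compl_D] at hQle
  rw [hX, hY, Finset.card_union_of_disjoint hPQ, Finset.card_union_of_disjoint hPQ',
    Finset.card_sdiff_of_subset hQsub, M.card_compl_D]
  have : P.card + (m + 1 - Q.card) = P.card + (m + 1) - Q.card := by omega
  rw [this]
  ring

/-- The sum over the circuits which contain `D`. -/
theorem Good.sum_onD (M : MutData x D lD h u i0 m) {t : ℝ} (hg : M.Good t) {b : ℕ → ℝ}
    (hb : ∀ j ≤ finrank ℝ E + 2, b j = b (finrank ℝ E + 2 - j)) {e : ι} (he : e ∉ D) :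
    ∑ A ∈ topes (dep (xt x u i0 t) ⊓ vanish (Dᶜ.erase e)) (univ \ Dᶜ.erase e), b A.card =
      2 * b ((D.filter (fun i => 0 < lD i)).card + if t * h (x e) < 0 then 1 else 0) := by
  classical
  have hK : (Dᶜ.erase e).card = m := by
    rw [Finset.card_erase_of_mem (Finset.mem_compl.2 he), M.card_compl_D]; omega
  have hG := hg.gp.gen_circuit M.card hK
  set X : Finset ι := (D.filter (fun i => 0 < lD i)) ∪
    (if t * h (x e) < 0 then {e} else ∅) with hX
  have hXD : ∀ i ∈ D, (i ∈ X ↔ 0 < lD i) := by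
    intro i hi
    have hie : i ≠ e := fun h' => he (h' ▸ hi)
    rw [hX, Finset.mem_union, Finset.mem_filter]
    split_ifs <;> simp [hi, hie]
  have hXe : e ∈ X ↔ t * h (x e) < 0 := by
    rw [hX, Finset.mem_union, Finset.mem_filter]
    split_ifs with h3 <;> simp [he, h3]
  have hXp := hg.onD e he X hXD hXe
  rw [M.sdiff_erase he] at hXp hG ⊢
  have hXs : X ⊆ insert e D := by
    intro i hi
    rw [hX, Finset.mem_union, Finset.mem_filter] at hi
    rw [Finset.mem_insert]
    rcases hi with hi | hi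
    · exact Or.inr hi.1
    · left
      split_ifs at hi
      · simpa using hi
      · simp at hi
  rw [topes_dim_one hG ⟨e, Finset.mem_insert_self _ _⟩ hXs hXp,
    Finset.card_insert_of_notMem he, M.cardD]
  have hXc : X.card = (D.filter (fun i => 0 < lD i)).card + if t * h (x e) < 0 then 1 else 0 := by
    rw [hX, Finset.card_union_of_disjoint]
    · congr 1
      split_ifs <;> simp
    · rw [Finset.disjoint_left]
      intro i hi hi'
      rw [Finset.mem_filter] at hi
      split_ifs at hi'
      · rw [Finset.mem_singleton] at hi'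
        exact he (hi' ▸ hi.1)
      · simp at hi'
  have hle : X.card ≤ finrank ℝ E + 2 := by
    have := Finset.card_le_card hXs
    rw [Finset.card_insert_of_notMem he, M.cardD] at this
    omega
  have h3 := hb X.card hle
  have e1 : finrank ℝ E + 1 + 1 - X.card = finrank ℝ E + 2 - X.card := by omega
  rw [e1, ← h3, hXc]
  ring

/-- **The change in a mutation.** -/
theorem diff (M : MutData x D lD h u i0 m) {a b : ℕ → ℝ}
    (ha : ∀ j ≤ finrank ℝ E + 1 + (m + 1), a j = a (finrank ℝ E + 1 + (m + 1) - j))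
    (hb : ∀ j ≤ finrank ℝ E + 2, b j = b (finrank ℝ E + 2 - j)) :
    ∃ y z : ι → E, GP y ∧ GP z ∧ wsum y m a b - wsum z m a b =
      2 * (a ((D.filter (fun i => 0 < lD i)).card + (Dᶜ.filter (fun i => 0 < h (x i))).card) -
        a ((D.filter (fun i => 0 < lD i)).card + (m + 1) -
          (Dᶜ.filter (fun i => 0 < h (x i))).card) -
        (((m + 1 : ℕ) : ℝ) - 2 * (Dᶜ.filter (fun i => 0 < h (x i))).card) *
          (b ((D.filter (fun i => 0 < lD i)).card + 1) -
            b (D.filter (fun i => 0 < lD i)).card)) := by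
  classical
  obtain ⟨T, hT, h1, h2⟩ := M.exists_good
  refine ⟨xt x u i0 (-T), xt x u i0 T, h2.gp, h1.gp, ?_⟩
  have h3 := M.sum_topes_diff hT h1 h2 ha
  -- the circuits
  have hsplit : ∀ t : ℝ, ∑ K ∈ univ.powersetCard m,
      ∑ A ∈ topes (dep (xt x u i0 t) ⊓ vanish K) (univ \ K), b A.card =
      ∑ K ∈ (univ.powersetCard m).filter (fun K => (K ∩ D).Nonempty),
        ∑ A ∈ topes (dep (xt x u i0 t) ⊓ vanish K) (univ \ K), b A.card +
      ∑ e ∈ Dᶜ, ∑ A ∈ topes (dep (xt x u i0 t) ⊓ vanish (Dᶜ.erase e)) (univ \ Dᶜ.erase e),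
        b A.card := by
    intro t
    rw [← Finset.sum_filter_add_sum_filter_not (univ.powersetCard m)
      (fun K => (K ∩ D).Nonempty)]
    congr 1
    have himg : (univ.powersetCard m).filter (fun K => ¬ (K ∩ D).Nonempty) =
        Dᶜ.image (fun e => Dᶜ.erase e) := by
      ext K
      rw [Finset.mem_filter, Finset.mem_powersetCard, Finset.mem_image]
      constructor
      · rintro ⟨⟨-, hK⟩, hKD⟩
        obtain ⟨e, he, rfl⟩ := M.eq_erase hK hKD
        exact ⟨e, Finset.mem_compl.2 he, rfl⟩
      · rintro ⟨e, he, rfl⟩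
        refine ⟨⟨Finset.subset_univ _, ?_⟩, ?_⟩
        · rw [Finset.card_erase_of_mem he, M.card_compl_D]; omega
        · rintro ⟨i, hi⟩
          rw [Finset.mem_inter, Finset.mem_erase, Finset.mem_compl] at hi
          exact hi.1.2 hi.2
    rw [himg, Finset.sum_image]
    intro e he e' he' hee
    by_contra hne
    have : e ∈ Dᶜ.erase e' := Finset.mem_erase.2 ⟨hne, he⟩
    have hee' : Dᶜ.erase e = Dᶜ.erase e' := hee
    rw [← hee'] at this
    simp at this
  have hsame : ∑ K ∈ (univ.powersetCard m).filter (fun K => (K ∩ D).Nonempty),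
        ∑ A ∈ topes (dep (xt x u i0 (-T)) ⊓ vanish K) (univ \ K), b A.card =
      ∑ K ∈ (univ.powersetCard m).filter (fun K => (K ∩ D).Nonempty),
        ∑ A ∈ topes (dep (xt x u i0 T) ⊓ vanish K) (univ \ K), b A.card := by
    apply Finset.sum_congr rfl
    intro K hK
    rw [Finset.mem_filter, Finset.mem_powersetCard] at hK
    have : topes (dep (xt x u i0 (-T)) ⊓ vanish K) (univ \ K) =
        topes (dep (xt x u i0 T) ⊓ vanish K) (univ \ K) := by
      ext A
      rw [mem_topes, mem_topes, h1.iff K hK.1.2 hK.2 A, h2.iff K hK.1.2 hK.2 A]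
    rw [this]
  have hD1 : ∑ e ∈ Dᶜ, ∑ A ∈ topes (dep (xt x u i0 T) ⊓ vanish (Dᶜ.erase e))
      (univ \ Dᶜ.erase e), b A.card =
      ∑ e ∈ Dᶜ, 2 * b ((D.filter (fun i => 0 < lD i)).card + if 0 < h (x e) then 0 else 1) := by
    apply Finset.sum_congr rfl
    intro e he
    rw [Finset.mem_compl] at he
    rw [Good.sum_onD M h1 hb he]
    have hne := M.hnD e he
    congr 3
    by_cases h4 : 0 < h (x e)
    · rw [if_pos h4, if_neg]
      have := mul_pos hT h4
      linarith
    · rw [if_neg h4, if_pos]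
      have h5 : h (x e) < 0 := lt_of_le_of_ne (not_lt.1 h4) hne
      exact mul_neg_of_pos_of_neg hT h5
  have hD2 : ∑ e ∈ Dᶜ, ∑ A ∈ topes (dep (xt x u i0 (-T)) ⊓ vanish (Dᶜ.erase e))
      (univ \ Dᶜ.erase e), b A.card =
      ∑ e ∈ Dᶜ, 2 * b ((D.filter (fun i => 0 < lD i)).card + if 0 < h (x e) then 1 else 0) := by
    apply Finset.sum_congr rfl
    intro e he
    rw [Finset.mem_compl] at he
    rw [Good.sum_onD M h2 hb he]
    have hne := M.hnD e he
    congr 3
    by_cases h4 : 0 < h (x e)
    · rw [if_pos h4, if_pos]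
      have := mul_pos hT h4
      linarith
    · rw [if_neg h4, if_neg]
      have h5 : h (x e) < 0 := lt_of_le_of_ne (not_lt.1 h4) hne
      have := mul_neg_of_pos_of_neg hT h5
      linarith
  have hcount : ∀ f : ℕ → ℝ, ∀ r s : ℕ, ∑ e ∈ Dᶜ, f (if 0 < h (x e) then r else s) =
      (Dᶜ.filter (fun i => 0 < h (x i))).card * f r +
        ((m + 1 : ℕ) - (Dᶜ.filter (fun i => 0 < h (x i))).card) * f s := by
    intro f r s
    have h5 : ∀ e, f (if 0 < h (x e) then r else s) =
        if 0 < h (x e) then f r else f s := by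
      intro e; split_ifs <;> rfl
    simp only [h5]
    rw [Finset.sum_ite, Finset.sum_const, Finset.sum_const, nsmul_eq_mul, nsmul_eq_mul]
    congr 2
    have h6 := Finset.card_filter_add_card_filter_not (s := Dᶜ) (fun i => 0 < h (x i))
    rw [M.card_compl_D] at h6
    rw [← h6]
    push_cast
    ring
  unfold wsum
  rw [hsplit T, hsplit (-T), hsame, hD1, hD2,
    hcount (fun j => 2 * b ((D.filter (fun i => 0 < lD i)).card + j)) 1 0,
    hcount (fun j => 2 * b ((D.filter (fun i => 0 < lD i)).card + j)) 0 1]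
  simp only [add_zero]
  push_cast at h3 ⊢
  linarith

end MutData

end Pool.Agent.U280.Radon
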