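import Pool.Agent.U280.Radon.Rels

/-!
The case `d = 1`.
-/

set_option autoImplicit false
set_option linter.unusedSectionVars false
set_option linter.unusedVariables false
set_option linter.unusedSimpArgs false

namespace Pool.Agent.U280.Radon

open Finset Module

variable {ι : Type*} [Fintype ι] [DecidableEq ι]

/-- `A` is to the left of its complement. -/
def Low (f : ι → ℝ) (A : Finset ι) : Prop := ∀ i ∈ A, ∀ k, k ∉ A → f i < f k

theorem Low.exists {f : ι → ℝ} (hf : Function.Injective f) :
    ∀ j : ℕ, j ≤ Fintype.card ι → ∃ A : Finset ι, A.card = j ∧ Low f A := by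
  classical
  intro j
  induction j with
  | zero => intro _; exact ⟨∅, by simp, by intro i hi; simp at hi⟩
  | succ j ih =>
    intro hj
    obtain ⟨A, hA, hL⟩ := ih (by omega)
    have hne : (Aᶜ).Nonempty := by
      rw [← Finset.card_pos, Finset.card_compl]; omega
    obtain ⟨e, he, hmin⟩ := Finset.exists_min_image Aᶜ f hne
    have he' : e ∉ A := Finset.mem_compl.1 he
    refine ⟨insert e A, by rw [Finset.card_insert_of_notMem he', hA], ?_⟩
    intro i hi k hk
    rw [Finset.mem_insert, not_or] at hk
    rcases Finset.mem_insert.1 hi with rfl | hi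
    · apply lt_of_le_of_ne (hmin k (Finset.mem_compl.2 hk.2))
      intro h
      exact hk.1 (hf h).symm
    · exact hL i hi k hk.2

theorem Low.unique {f : ι → ℝ} {A B : Finset ι} (hA : Low f A) (hB : Low f B)
    (hc : A.card = B.card) : A = B := by
  classical
  by_cases h : A ⊆ B
  · exact Finset.eq_of_subset_of_card_le h hc.ge
  · by_cases h' : B ⊆ A
    · exact (Finset.eq_of_subset_of_card_le h' hc.le).symm
    · exfalso
      rw [Finset.not_subset] at h h'
      obtain ⟨i, hi, hi'⟩ := h
      obtain ⟨k, hk, hk'⟩ := h'
      have h1 := hA i hi k hk'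
      have h2 := hB k hk i hi'
      linarith

theorem rad_of_between {x : ι ↪ (Fin 1 → ℝ)} {A : Finset ι} {i i' k : ι} (hi : i ∈ A) (hi' : i' ∈ A)
    (hk : k ∉ A) (h1 : x i' 0 < x k 0) (h2 : x k 0 < x i 0) : Rad x A Aᶜ := by
  classical
  rw [← radon_iff disjoint_compl_right]
  refine ⟨x k, ?_, ?_⟩
  · apply segment_subset_convexHull (s := x '' (A : Set ι)) (x := x i') (y := x i)
      ⟨i', hi', rfl⟩ ⟨i, hi, rfl⟩
    rw [segment_eq_image]
    refine ⟨(x k 0 - x i' 0) / (x i 0 - x i' 0), ⟨?_, ?_⟩, ?_⟩
    · apply div_nonneg <;> linarith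
    · rw [div_le_one (by linarith)]; linarith
    · ext t
      have ht : t = 0 := Subsingleton.elim _ _
      subst ht
      have : x i 0 - x i' 0 ≠ 0 := by linarith
      simp only [Pi.add_apply, Pi.smul_apply, smul_eq_mul]
      field_simp
      ring
  · apply subset_convexHull
    exact ⟨k, by simpa using hk, rfl⟩

theorem rad_swap {x : ι → (Fin 1 → ℝ)} {A B : Finset ι} (h : Rad x A B) : Rad x B A := by
  obtain ⟨l, h1, h2, h3, h4, h5⟩ := h
  refine ⟨-l, Submodule.neg_mem _ h1, neg_ne_zero.2 h2, ?_, ?_, ?_⟩
  · intro i hi
    have := h4 i hi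
    simp only [Pi.neg_apply]; linarith
  · intro i hi
    have := h3 i hi
    simp only [Pi.neg_apply]; linarith
  · intro i hi hi'
    simp only [Pi.neg_apply]
    rw [h5 i hi' hi, neg_zero]

theorem not_pos_iff {x : ι ↪ (Fin 1 → ℝ)} (h : GP x) {m : ℕ}
    (hm : Fintype.card ι = 1 + 1 + m) {A : Finset ι} (hA : A.Nonempty) (hA' : (Aᶜ).Nonempty) :
    ¬ Pos (dep x) univ A ↔ Low (fun i => x i 0) A ∨ Low (fun i => x i 0) Aᶜ := by
  classical
  have hinj : Function.Injective (fun i => x i 0) := by
    intro i j hij
    apply x.injective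
    ext t
    have ht : t = 0 := Subsingleton.elim _ _
    subst ht
    exact hij
  rw [← rad_compl_iff h (by rw [finrank_fin_fun]; exact hm)]
  constructor
  · intro hR
    by_contra hcon
    rw [not_or] at hcon
    obtain ⟨h1, h2⟩ := hcon
    unfold Low at h1 h2
    push Not at h1 h2
    obtain ⟨i, hi, k, hk, hik⟩ := h1
    obtain ⟨k', hk', i', hi', hik'⟩ := h2
    rw [Finset.mem_compl] at hk'
    rw [Finset.mem_compl, not_not] at hi'
    have h3 : x k 0 < x i 0 := lt_of_le_of_ne hik (fun h => by
      have := hinj h; rw [this] at hk; exact hk hi)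
    have h4 : x i' 0 < x k' 0 := lt_of_le_of_ne hik' (fun h => by
      have := hinj h; rw [← this] at hk'; exact hk' hi')
    apply hR
    rcases lt_or_ge (x i' 0) (x k 0) with h5 | h5
    · exact rad_of_between hi hi' hk h5 h3
    · have h6 : x k 0 < x i' 0 := lt_of_le_of_ne h5 (fun h => by
        have := hinj h; rw [this] at hk; exact hk hi')
      have h7 := rad_of_between (x := x) (A := Aᶜ) (i := k') (i' := k) (k := i')
        (Finset.mem_compl.2 hk') (Finset.mem_compl.2 hk) (by simpa using hi') h6 h4
      rw [compl_compl] at h7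
      exact rad_swap h7
  · have key : ∀ B : Finset ι, B.Nonempty → (Bᶜ).Nonempty → Low (fun i => x i 0) B →
        ¬ Rad x B Bᶜ := by
      intro B hB hB' hL hR
      rw [rad_compl_iff h (by rw [finrank_fin_fun]; exact hm)] at hR
      obtain ⟨l, hl, hlp⟩ := hR
      obtain ⟨e, he, hmax⟩ := Finset.exists_max_image B (fun i => x i 0) hB
      obtain ⟨k, hk⟩ := hB'
      obtain ⟨h1, h2⟩ := mem_dep.1 hl
      have h3 := congrFun h2 0
      rw [Finset.sum_apply] at h3
      simp only [Pi.smul_apply, smul_eq_mul, Pi.zero_apply] at h3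
      have h4 : ∑ i, l i * (x i 0 - x e 0) = 0 := by
        simp only [mul_sub, Finset.sum_sub_distrib]
        rw [← Finset.sum_mul, h1, h3]; ring
      have h5 : ∑ i, l i * (x i 0 - x e 0) < 0 := by
        apply Finset.sum_neg'
        · intro i _
          by_cases hi : i ∈ B
          · have h6 := hlp i (Finset.mem_univ i)
            rw [sg_of_mem hi, one_mul] at h6
            have h7 := hmax i hi
            apply mul_nonpos_of_nonneg_of_nonpos h6.le
            linarith
          · have h6 := hlp i (Finset.mem_univ i)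
            rw [sg_of_notMem hi] at h6
            have h7 := hL e he i hi
            simp only at h7
            apply mul_nonpos_of_nonpos_of_nonneg
            · linarith
            · linarith
        · refine ⟨k, Finset.mem_univ k, ?_⟩
          have hk' : k ∉ B := Finset.mem_compl.1 hk
          have h6 := hlp k (Finset.mem_univ k)
          rw [sg_of_notMem hk'] at h6
          have h7 := hL e he k hk'
          simp only at h7
          apply mul_neg_of_neg_of_pos
          · linarith
          · linarith
      linarith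
    rintro (hL | hL)
    · exact key A hA hA' hL
    · intro hR
      have := key Aᶜ hA' (by rwa [compl_compl]) hL
      rw [compl_compl] at this
      exact this (rad_swap hR)

theorem dim1_count {x : ι ↪ (Fin 1 → ℝ)} (h : GP x) {m : ℕ}
    (hm : Fintype.card ι = 1 + 1 + m) {j : ℕ} (hj : 1 ≤ j) (hj' : j < Fintype.card ι) :
    ((topes (dep x) univ).filter (fun A => A.card = j)).card + 2 = (Fintype.card ι).choose j := by
  classical
  have hinj : Function.Injective (fun i => x i 0) := by
    intro i j hij
    apply x.injective
    ext t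
    have ht : t = 0 := Subsingleton.elim _ _
    subst ht
    exact hij
  obtain ⟨A1, hA1, hL1⟩ := Low.exists hinj j hj'.le
  obtain ⟨A2, hA2, hL2⟩ := Low.exists hinj (Fintype.card ι - j) (by omega)
  have h1 : ((univ : Finset ι).powersetCard j) =
      ((topes (dep x) univ).filter (fun A => A.card = j)) ∪ {A1, A2ᶜ} := by
    ext A
    rw [Finset.mem_powersetCard, Finset.mem_union, Finset.mem_filter, mem_topes,
      Finset.mem_insert, Finset.mem_singleton]
    constructor
    · rintro ⟨-, hA⟩
      by_cases hp : Pos (dep x) univ A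
      · exact Or.inl ⟨⟨Finset.subset_univ _, hp⟩, hA⟩
      · right
        rcases (not_pos_iff h hm (by rw [← Finset.card_pos]; omega)
          (by rw [← Finset.card_pos, Finset.card_compl]; omega)).1 hp with hL | hL
        · left; exact hL.unique hL1 (by rw [hA, hA1])
        · right
          rw [← compl_compl A]
          congr 1
          exact hL.unique hL2 (by rw [Finset.card_compl, hA, hA2])
    · rintro (⟨-, hA⟩ | rfl | rfl)
      · exact ⟨Finset.subset_univ _, hA⟩
      · exact ⟨Finset.subset_univ _, hA1⟩
      · refine ⟨Finset.subset_univ _, ?_⟩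
        rw [Finset.card_compl, hA2]; omega
  have hc2 : (A2ᶜ).card = j := by rw [Finset.card_compl, hA2]; omega
  have hne : A1 ≠ A2ᶜ := by
    intro h'
    obtain ⟨i, hi⟩ : A1.Nonempty := by rw [← Finset.card_pos]; omega
    obtain ⟨k, hk⟩ : (A1ᶜ).Nonempty := by rw [← Finset.card_pos, Finset.card_compl]; omega
    have h3 := hL1 i hi k (Finset.mem_compl.1 hk)
    rw [h', compl_compl] at hk
    rw [h', Finset.mem_compl] at hi
    have h4 := hL2 k hk i hi
    linarith
  have hdisj : Disjoint ((topes (dep x) univ).filter (fun A => A.card = j)) {A1, A2ᶜ} := by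
    rw [Finset.disjoint_right]
    intro A hA hA'
    rw [Finset.mem_filter, mem_topes] at hA'
    rw [Finset.mem_insert, Finset.mem_singleton] at hA
    apply (not_pos_iff h hm (A := A) (by rw [← Finset.card_pos]; omega)
          (by rw [← Finset.card_pos, Finset.card_compl]; omega)).2 _ hA'.1.2
    rcases hA with rfl | rfl
    · exact Or.inl hL1
    · right; rw [compl_compl]; exact hL2
  rw [← Finset.card_univ, ← Finset.card_powersetCard, h1, Finset.card_union_of_disjoint hdisj,
    Finset.card_pair hne]

theorem rel_dim1 {x : ι ↪ (Fin 1 → ℝ)} (h : GP x) {m : ℕ}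
    (hm : Fintype.card ι = 1 + 1 + m) {i : ℕ} (hi : i ∈ Icc 1 (Fintype.card ι / 2)) :
    (radonNum (univ.map x) i : ℝ) = if 2 * i = Fintype.card ι then
      ((Fintype.card ι).choose i : ℝ) / 2 - 1 else ((Fintype.card ι).choose i : ℝ) - 2 := by
  classical
  rw [Finset.mem_Icc] at hi
  have h1 := two_radonNum h (m := m) hm (i := i) (by omega)
  have h2 := dim1_count h hm (j := i) hi.1 (by omega)
  have h2' : (((topes (dep x) univ).filter (fun A => A.card = i)).card : ℝ) + 2 =
      ((Fintype.card ι).choose i : ℝ) := by exact_mod_cast h2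
  have h1' : (2 : ℝ) * (radonNum (univ.map x) i : ℝ) = (((topes (dep x) univ).filter
      (fun A => A.card = i ∨ A.card = Fintype.card ι - i)).card : ℝ) := by exact_mod_cast h1
  by_cases hs : 2 * i = Fintype.card ι
  · rw [if_pos hs]
    have e : Fintype.card ι - i = i := by omega
    rw [e] at h1'
    simp only [or_self] at h1'
    linarith
  · rw [if_neg hs]
    have h3 := dim1_count h hm (j := Fintype.card ι - i) (by omega) (by omega)
    rw [Nat.choose_symm (by omega : i ≤ Fintype.card ι)] at h3
    have h3' : (((topes (dep x) univ).filter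
      (fun A => A.card = Fintype.card ι - i)).card : ℝ) + 2 =
      ((Fintype.card ι).choose i : ℝ) := by exact_mod_cast h3
    have h4 : ((topes (dep x) univ).filter
        (fun A => A.card = i ∨ A.card = Fintype.card ι - i)).card =
        ((topes (dep x) univ).filter (fun A => A.card = i)).card +
        ((topes (dep x) univ).filter (fun A => A.card = Fintype.card ι - i)).card := by
      rw [Finset.filter_or, Finset.card_union_of_disjoint]
      rw [Finset.disjoint_filter]
      intro A _ h5 h6
      omega
    rw [h4] at h1'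
    push_cast at h1'
    linarith

end Pool.Agent.U280.Radon
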