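import Pool.Agent.U280.Radon.Lin

/-!
Euler's relation for the faces of the topes of a subspace in general position, and two consequences:
the alternating relation in even dimension, and the relation between topes and rays in dimension two.
-/

set_option autoImplicit false
set_option linter.unusedSectionVars false
set_option linter.unusedVariables false

namespace Pool.Agent.U280.Radon

open Finset Module

variable {ι : Type*} [Fintype ι] [DecidableEq ι]

theorem Gen.del' {L : Submodule ℝ (ι → ℝ)} {S : Finset ι} {e : ι} {m : ℕ} (he : e ∉ S)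
    (hm : 1 ≤ m) (h : Gen L (insert e S) m) (A : Finset ι) :
    Pos L S A ↔ Pos L (insert e S) (A.erase e) ∨ Pos L (insert e S) (insert e A) := by
  have h1 := h.pos_del he hm (A := A ∩ S) Finset.inter_subset_right
  rw [Pos.congr (L := L) (S := S) (A := A) (B := A ∩ S) (fun i hi => (sg_inter hi).symm), h1,
    Pos.congr (L := L) (S := insert e S) (A := A ∩ S) (B := A.erase e) ?_,
    Pos.congr (L := L) (S := insert e S) (A := insert e (A ∩ S)) (B := insert e A) ?_]
  · intro i hi
    rw [Finset.mem_insert] at hi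
    rcases hi with rfl | hi
    · rw [sg_of_mem (Finset.mem_insert_self _ _), sg_of_mem (Finset.mem_insert_self _ _)]
    · have hie : i ≠ e := fun h' => he (h' ▸ hi)
      rw [sg_insert_of_ne hie, sg_insert_of_ne hie, sg_inter hi]
  · intro i hi
    rw [Finset.mem_insert] at hi
    rcases hi with rfl | hi
    · rw [sg_of_notMem (Finset.notMem_erase _ _), sg_of_notMem (by simp [he])]
    · have hie : i ≠ e := fun h' => he (h' ▸ hi)
      rw [sg_inter hi]
      unfold sg
      simp [hie]

theorem Gen.con' {L : Submodule ℝ (ι → ℝ)} {S : Finset ι} {e : ι} {m : ℕ} (he : e ∉ S)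
    (hm : 1 ≤ m) (h : Gen L (insert e S) m) (A : Finset ι) :
    Pos (L ⊓ vanish {e}) S A ↔
      Pos L (insert e S) (A.erase e) ∧ Pos L (insert e S) (insert e A) := by
  have h1 := h.pos_con he hm (A := A ∩ S) Finset.inter_subset_right
  rw [Pos.congr (L := L ⊓ vanish {e}) (S := S) (A := A) (B := A ∩ S)
      (fun i hi => (sg_inter hi).symm), h1,
    Pos.congr (L := L) (S := insert e S) (A := A ∩ S) (B := A.erase e) ?_,
    Pos.congr (L := L) (S := insert e S) (A := insert e (A ∩ S)) (B := insert e A) ?_]
  · intro i hi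
    rw [Finset.mem_insert] at hi
    rcases hi with rfl | hi
    · rw [sg_of_mem (Finset.mem_insert_self _ _), sg_of_mem (Finset.mem_insert_self _ _)]
    · have hie : i ≠ e := fun h' => he (h' ▸ hi)
      rw [sg_insert_of_ne hie, sg_insert_of_ne hie, sg_inter hi]
  · intro i hi
    rw [Finset.mem_insert] at hi
    rcases hi with rfl | hi
    · rw [sg_of_notMem (Finset.notMem_erase _ _), sg_of_notMem (by simp [he])]
    · have hie : i ≠ e := fun h' => he (h' ▸ hi)
      rw [sg_inter hi]
      unfold sg
      simp [hie]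

theorem Gen.not_pos_zero {L : Submodule ℝ (ι → ℝ)} {S : Finset ι} (h : Gen L S 0)
    (hS : S.Nonempty) (A : Finset ι) : ¬ Pos L S A := by
  rintro ⟨x, hx, h1⟩
  obtain ⟨i, hi⟩ := hS
  have := h1 i hi
  have hx0 : x = 0 := h.eq_zero (Finset.empty_subset _) (by simp) hx (by simp)
  rw [hx0] at this
  simp at this

open Classical in
/-- Indicator of a face. -/
noncomputable def fc (L : Submodule ℝ (ι → ℝ)) (S A Z : Finset ι) : ℤ :=
  if Pos (L ⊓ vanish Z) (S \ Z) A then 1 else 0

/-- The alternating sum over the faces of the tope `A`. -/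
noncomputable def chi (L : Submodule ℝ (ι → ℝ)) (S A : Finset ι) : ℤ :=
  ∑ Z ∈ S.ssubsets, (-1) ^ Z.card * fc L S A Z

theorem Gen.face {L : Submodule ℝ (ι → ℝ)} {S Z : Finset ι} {m : ℕ} (h : Gen L S m)
    (hZ : Z ⊆ S) : Gen (L ⊓ vanish Z) (S \ Z) (m - Z.card) :=
  h.contract hZ Finset.sdiff_subset Finset.disjoint_sdiff

theorem sum_ssubsets_insert {S : Finset ι} {e : ι} (he : e ∉ S) (f : Finset ι → ℤ) :
    ∑ Z ∈ (insert e S).ssubsets, f Z =
      f S + ∑ Z ∈ S.ssubsets, f Z + ∑ Z ∈ S.ssubsets, f (insert e Z) := by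
  have h1 : ∀ T : Finset ι, ∑ Z ∈ T.powerset, f Z = f T + ∑ Z ∈ T.ssubsets, f Z := by
    intro T
    unfold Finset.ssubsets
    rw [Finset.add_sum_erase _ _ (Finset.mem_powerset_self T)]
  have h2 : ∀ T : Finset ι, ∑ Z ∈ T.powerset, f (insert e Z) =
      f (insert e T) + ∑ Z ∈ T.ssubsets, f (insert e Z) := by
    intro T
    unfold Finset.ssubsets
    rw [Finset.add_sum_erase T.powerset (fun Z => f (insert e Z)) (Finset.mem_powerset_self T)]
  have h3 := h1 (insert e S)
  rw [Finset.sum_powerset_insert he, h1 S, h2 S] at h3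
  linarith

theorem fc_del {L : Submodule ℝ (ι → ℝ)} {S : Finset ι} {e : ι} {m : ℕ} (he : e ∉ S)
    (h : Gen L (insert e S) m) (A : Finset ι) {Z : Finset ι} (hZ : Z ∈ S.ssubsets) :
    fc L S A Z + fc (L ⊓ vanish {e}) S A Z =
      fc L (insert e S) (insert e A) Z + fc L (insert e S) (A.erase e) Z := by
  rw [Finset.mem_ssubsets] at hZ
  have heZ : e ∉ Z := fun h' => he (hZ.1 h')
  have hne : (S \ Z).Nonempty := by
    rw [Finset.sdiff_nonempty]; exact hZ.2
  have hset : insert e S \ Z = insert e (S \ Z) := Finset.insert_sdiff_of_notMem _ heZ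
  have hG := h.face (Z := Z) (hZ.1.trans (Finset.subset_insert _ _))
  rw [hset] at hG
  have heS : e ∉ S \ Z := fun h' => he (Finset.sdiff_subset h')
  have hcomm : L ⊓ vanish {e} ⊓ vanish Z = (L ⊓ vanish Z) ⊓ vanish {e} := inf_right_comm _ _ _
  unfold fc
  rw [hset, hcomm]
  rcases Nat.eq_zero_or_pos (m - Z.card) with h0 | hpos
  · rw [h0] at hG
    have hG1 := hG.mono (Finset.subset_insert e (S \ Z))
    have hG2 := hG.contract_one heS
    rw [if_neg (hG1.not_pos_zero hne A), if_neg (hG2.not_pos_zero hne A),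
      if_neg (hG.not_pos_zero (by simp) _), if_neg (hG.not_pos_zero (by simp) _)]
  · have h1 := hG.del' heS hpos A
    have h2 := hG.con' heS hpos A
    by_cases ha : Pos (L ⊓ vanish Z) (insert e (S \ Z)) (A.erase e) <;>
    by_cases hb : Pos (L ⊓ vanish Z) (insert e (S \ Z)) (insert e A)
    · rw [if_pos ha, if_pos hb, if_pos (h1.2 (Or.inl ha)), if_pos (h2.2 ⟨ha, hb⟩)]
    · rw [if_pos ha, if_neg hb, if_pos (h1.2 (Or.inl ha)), if_neg (fun h => hb (h2.1 h).2)]
      norm_num
    · rw [if_neg ha, if_pos hb, if_pos (h1.2 (Or.inr hb)), if_neg (fun h => ha (h2.1 h).1)]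
    · rw [if_neg ha, if_neg hb, if_neg (fun h => (h1.1 h).elim ha hb),
        if_neg (fun h => ha (h2.1 h).1)]

theorem chi_insert {L : Submodule ℝ (ι → ℝ)} {S : Finset ι} {e : ι} {m : ℕ} (he : e ∉ S)
    (h : Gen L (insert e S) m) (hm : m ≤ S.card) (A : Finset ι) :
    chi L (insert e S) A = ∑ Z ∈ S.ssubsets, (-1) ^ Z.card * fc L (insert e S) A Z -
      chi (L ⊓ vanish {e}) S A := by
  unfold chi
  rw [sum_ssubsets_insert he]
  have h0 : fc L (insert e S) A S = 0 := by
    unfold fc
    rw [if_neg]
    have hG := h.face (Finset.subset_insert e S)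
    rw [Nat.sub_eq_zero_of_le hm] at hG
    apply hG.not_pos_zero
    rw [Finset.sdiff_nonempty]
    intro h'
    exact he (h' (Finset.mem_insert_self _ _))
  rw [h0]
  have h1 : ∀ Z ∈ S.ssubsets, ((-1 : ℤ)) ^ (insert e Z).card * fc L (insert e S) A (insert e Z) =
      - ((-1) ^ Z.card * fc (L ⊓ vanish {e}) S A Z) := by
    intro Z hZ
    rw [Finset.mem_ssubsets] at hZ
    have heZ : e ∉ Z := fun h' => he (hZ.1 h')
    rw [Finset.card_insert_of_notMem heZ]
    unfold fc
    rw [Finset.insert_sdiff_insert, vanish_insert, ← inf_assoc, Finset.sdiff_insert_of_notMem he,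
      pow_succ]
    ring
  rw [Finset.sum_congr rfl h1, Finset.sum_neg_distrib]
  ring

theorem chi_add {L : Submodule ℝ (ι → ℝ)} {S : Finset ι} {e : ι} {m : ℕ} (he : e ∉ S)
    (h : Gen L (insert e S) m) (hm : m ≤ S.card) (A : Finset ι) :
    chi L (insert e S) (insert e A) + chi L (insert e S) (A.erase e) =
      chi L S A - chi (L ⊓ vanish {e}) S A := by
  rw [chi_insert he h hm, chi_insert he h hm]
  have h1 : chi (L ⊓ vanish {e}) S (insert e A) = chi (L ⊓ vanish {e}) S A := by
    unfold chi fc
    apply Finset.sum_congr rfl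
    intro Z _
    rw [Pos.congr (A := insert e A) (B := A)]
    intro i hi
    exact sg_insert_of_ne (fun h' => he (h' ▸ (Finset.sdiff_subset hi)))
  have h2 : chi (L ⊓ vanish {e}) S (A.erase e) = chi (L ⊓ vanish {e}) S A := by
    unfold chi fc
    apply Finset.sum_congr rfl
    intro Z _
    rw [Pos.congr (A := A.erase e) (B := A)]
    intro i hi
    have hie : i ≠ e := fun h' => he (h' ▸ (Finset.sdiff_subset hi))
    unfold sg
    simp [hie]
  rw [h1, h2]
  have h3 : ∑ Z ∈ S.ssubsets, (-1) ^ Z.card * fc L (insert e S) (insert e A) Z +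
      ∑ Z ∈ S.ssubsets, (-1) ^ Z.card * fc L (insert e S) (A.erase e) Z =
      chi L S A + chi (L ⊓ vanish {e}) S A := by
    unfold chi
    rw [← Finset.sum_add_distrib, ← Finset.sum_add_distrib]
    apply Finset.sum_congr rfl
    intro Z hZ
    rw [← mul_add, ← mul_add, fc_del he h A hZ]
  linarith

/-- If the tope is not cut by `e`, deleting `e` does not change the alternating sum. -/
theorem chi_uncut {L : Submodule ℝ (ι → ℝ)} {S : Finset ι} {e : ι} {m : ℕ} (he : e ∉ S)
    (h : Gen L (insert e S) m) (hm : m ≤ S.card) {A B : Finset ι}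
    (hAB : (A = insert e B ∧ ¬ Pos L (insert e S) (B.erase e)) ∨
      (A = B.erase e ∧ ¬ Pos L (insert e S) (insert e B))) :
    chi L (insert e S) A = chi L S B := by
  -- a face of the other side would give the other side
  have key : ∀ C : Finset ι, ¬ Pos L (insert e S) C → ∀ Z ∈ S.ssubsets,
      fc L (insert e S) C Z = 0 := by
    intro C hC Z hZ
    rw [Finset.mem_ssubsets] at hZ
    have heZ : e ∉ Z := fun h' => he (hZ.1 h')
    unfold fc
    rw [if_neg]
    rintro ⟨x, hx, h1⟩
    apply hC
    have hxe := h1 e (by simp [heZ])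
    refine h.pos_of_weak hx.1 ?_ ?_
    · rintro rfl
      simp at hxe
    · intro i hi
      by_cases hiZ : i ∈ Z
      · rw [hx.2 i hiZ]; simp
      · exact (h1 i (Finset.mem_sdiff.2 ⟨hi, hiZ⟩)).le
  have hcut : ∀ C : Finset ι, (∀ i ∈ S, sg C i = sg B i) →
      (¬ Pos L (insert e S) (B.erase e) ∨ ¬ Pos L (insert e S) (insert e B)) →
      chi (L ⊓ vanish {e}) S C = 0 := by
    intro C hCB hC
    unfold chi
    apply Finset.sum_eq_zero
    intro Z hZ
    have h0 := fc_del he h C hZ
    have hC' : (¬ Pos L (insert e S) (C.erase e) ∨ ¬ Pos L (insert e S) (insert e C)) := by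
      rcases hC with hC | hC
      · left
        rwa [Pos.congr (A := C.erase e) (B := B.erase e)]
        intro i hi
        rw [Finset.mem_insert] at hi
        rcases hi with rfl | hi
        · rw [sg_of_notMem (Finset.notMem_erase _ _), sg_of_notMem (Finset.notMem_erase _ _)]
        · have hie : i ≠ e := fun h' => he (h' ▸ hi)
          have := hCB i hi
          unfold sg at this ⊢
          simpa [hie] using this
      · right
        rwa [Pos.congr (A := insert e C) (B := insert e B)]
        intro i hi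
        rw [Finset.mem_insert] at hi
        rcases hi with rfl | hi
        · rw [sg_of_mem (Finset.mem_insert_self _ _), sg_of_mem (Finset.mem_insert_self _ _)]
        · have hie : i ≠ e := fun h' => he (h' ▸ hi)
          rw [sg_insert_of_ne hie, sg_insert_of_ne hie, hCB i hi]
    -- a face of the contraction has faces on both sides
    have h01 : ∀ (M : Submodule ℝ (ι → ℝ)) (U D Y : Finset ι), fc M U D Y = 0 ∨ fc M U D Y = 1 := by
      intro M U D Y
      unfold fc
      split_ifs
      · right; rfl
      · left; rfl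
    have hle : fc (L ⊓ vanish {e}) S C Z = 1 → fc L S C Z = 1 := by
      unfold fc
      intro h1
      rw [if_pos]
      by_contra hcon
      have : Pos (L ⊓ vanish {e} ⊓ vanish Z) (S \ Z) C := by
        by_contra h2
        rw [if_neg h2] at h1
        exact absurd h1 (by norm_num)
      obtain ⟨x, hx, h2⟩ := this
      exact hcon ⟨x, ⟨hx.1.1, hx.2⟩, h2⟩
    have hz : fc (L ⊓ vanish {e}) S C Z = 0 := by
      rcases h01 (L ⊓ vanish {e}) S C Z with h1 | h1
      · exact h1
      · have h2 := hle h1
        rw [h1, h2] at h0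
        rcases hC' with hC' | hC'
        · have := key _ hC' Z hZ
          rcases h01 L (insert e S) (insert e C) Z with h3 | h3 <;> omega
        · have := key _ hC' Z hZ
          rcases h01 L (insert e S) (C.erase e) Z with h3 | h3 <;> omega
    rw [hz, mul_zero]
  rw [chi_insert he h hm]
  rcases hAB with ⟨rfl, hn⟩ | ⟨rfl, hn⟩
  · rw [hcut (insert e B) (fun i hi => sg_insert_of_ne (fun h' => he (h' ▸ hi))) (Or.inl hn),
      sub_zero]
    unfold chi
    apply Finset.sum_congr rfl
    intro Z hZ
    have h0 := fc_del he h B hZ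
    rw [key _ hn Z hZ] at h0
    have h1 : fc (L ⊓ vanish {e}) S B Z = 0 := by
      -- it is at most the value on the empty side
      by_contra hcon
      have h2 : Pos (L ⊓ vanish {e} ⊓ vanish Z) (S \ Z) B := by
        by_contra h2
        apply hcon
        unfold fc
        rw [if_neg h2]
      have h3 : fc (L ⊓ vanish {e}) S B Z = 1 := by unfold fc; rw [if_pos h2]
      have h4 : fc L S B Z = 1 := by
        unfold fc
        rw [if_pos]
        obtain ⟨x, hx, h5⟩ := h2
        exact ⟨x, ⟨hx.1.1, hx.2⟩, h5⟩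
      have h5 : fc L (insert e S) (insert e B) Z ≤ 1 := by
        unfold fc; split_ifs <;> norm_num
      omega
    rw [h1] at h0
    congr 1
    omega
  · rw [hcut (B.erase e) (fun i hi => by
      have hie : i ≠ e := fun h' => he (h' ▸ hi)
      unfold sg; simp [hie]) (Or.inr hn), sub_zero]
    unfold chi
    apply Finset.sum_congr rfl
    intro Z hZ
    have h0 := fc_del he h B hZ
    rw [key _ hn Z hZ] at h0
    have h1 : fc (L ⊓ vanish {e}) S B Z = 0 := by
      by_contra hcon
      have h2 : Pos (L ⊓ vanish {e} ⊓ vanish Z) (S \ Z) B := by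
        by_contra h2
        apply hcon
        unfold fc
        rw [if_neg h2]
      have h3 : fc (L ⊓ vanish {e}) S B Z = 1 := by unfold fc; rw [if_pos h2]
      have h4 : fc L S B Z = 1 := by
        unfold fc
        rw [if_pos]
        obtain ⟨x, hx, h5⟩ := h2
        exact ⟨x, ⟨hx.1.1, hx.2⟩, h5⟩
      have h5 : fc L (insert e S) (B.erase e) Z ≤ 1 := by
        unfold fc; split_ifs <;> norm_num
      omega
    rw [h1] at h0
    congr 1
    omega

/-- Euler's relation for `|S| = m + 1`. -/
theorem chi_base {L : Submodule ℝ (ι → ℝ)} {S : Finset ι} {m : ℕ} (h : Gen L S (m + 1))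
    (hS : S.card = m + 1) (A : Finset ι) : chi L S A = (-1) ^ m := by
  have hne : S.Nonempty := Finset.card_pos.1 (by omega)
  have h1 : ∀ Z ∈ S.ssubsets, (-1 : ℤ) ^ Z.card * fc L S A Z = (-1) ^ Z.card := by
    intro Z hZ
    rw [Finset.mem_ssubsets] at hZ
    unfold fc
    rw [if_pos, mul_one]
    obtain ⟨x, hx, hxS⟩ := h.exists_ext (fun i => if i ∈ Z then 0 else sg A i) S subset_rfl hS.le
    refine ⟨x, ⟨hx, fun i hi => ?_⟩, fun i hi => ?_⟩
    · rw [hxS i (hZ.1 hi), if_pos hi]
    · rw [Finset.mem_sdiff] at hi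
      rw [hxS i hi.1, if_neg hi.2, sg_mul_self]
      exact one_pos
  unfold chi
  rw [Finset.sum_congr rfl h1]
  have h2 : ∑ Z ∈ S.powerset, (-1 : ℤ) ^ Z.card = 0 := by
    rw [Finset.sum_powerset_neg_one_pow_card]
    rw [if_neg hne.ne_empty]
  have h3 : ∑ Z ∈ S.powerset, (-1 : ℤ) ^ Z.card =
      (-1) ^ S.card + ∑ Z ∈ S.ssubsets, (-1 : ℤ) ^ Z.card := by
    unfold Finset.ssubsets
    rw [Finset.add_sum_erase S.powerset (fun Z => (-1 : ℤ) ^ Z.card) (Finset.mem_powerset_self S)]
  rw [hS, pow_succ] at h3
  linarith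

theorem two_mul_sum_choose_lt {m n : ℕ} (h : m ≤ n) :
    2 * ∑ j ∈ range m, (n.choose j : ℝ) < 2 ^ (n + 1) := by
  have h1 : ∑ j ∈ range m, (n.choose j : ℝ) ≤ ∑ j ∈ range n, (n.choose j : ℝ) :=
    Finset.sum_le_sum_of_subset_of_nonneg (by
      intro i; simp only [Finset.mem_range]; omega) (fun _ _ _ => by positivity)
  have h2 : ∑ j ∈ range (n + 1), (n.choose j : ℝ) = 2 ^ n := by
    have := Nat.sum_range_choose n
    exact_mod_cast this
  rw [Finset.sum_range_succ, Nat.choose_self] at h2
  rw [pow_succ]
  push_cast at h2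
  linarith

/-- **Euler's relation** for the topes. -/
theorem euler (n : ℕ) : ∀ (S : Finset ι), S.card = n → ∀ (L : Submodule ℝ (ι → ℝ)) (m : ℕ),
    Gen L S (m + 1) → m + 1 ≤ S.card → ∀ A, Pos L S A → chi L S A = (-1) ^ m := by
  induction n with
  | zero => intro S hS L m _ hm; omega
  | succ n ih =>
    intro S hS L m h hm A hA
    rcases Nat.eq_or_lt_of_le hm with heq | hlt
    · exact chi_base h heq.symm A
    -- now `m + 1 < |S|`
    -- one step: either the value is right or we can flip
    have step : ∀ e ∈ S, ∀ B, Pos L S B → chi L S B ≠ (-1) ^ m →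
        Pos L S (symmDiff B {e}) ∧ chi L S (symmDiff B {e}) ≠ (-1) ^ m := by
      intro e he B hB hBχ
      obtain ⟨S', heS', rfl⟩ : ∃ S', e ∉ S' ∧ S = insert e S' :=
        ⟨S.erase e, Finset.notMem_erase _ _, (Finset.insert_erase he).symm⟩
      rw [Finset.card_insert_of_notMem heS'] at hS hlt
      have hS'n : S'.card = n := by omega
      have hm' : m + 1 ≤ S'.card := by omega
      have hne : S'.Nonempty := Finset.card_pos.1 (by omega)
      have hBS' : Pos L S' B := hB.mono (Finset.subset_insert _ _)
      have hIH := ih S' hS'n L m (h.mono (Finset.subset_insert _ _)) hm' B hBS'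
      by_cases heB : e ∈ B
      · -- `B = insert e B`
        have hB1 : insert e B = B := Finset.insert_eq_of_mem heB
        have hsd : symmDiff B {e} = B.erase e := by
          ext i; simp only [Finset.mem_symmDiff, Finset.mem_singleton, Finset.mem_erase]
          constructor
          · rintro (⟨h1, h2⟩ | ⟨rfl, h2⟩)
            · exact ⟨h2, h1⟩
            · exact absurd heB h2
          · rintro ⟨h1, h2⟩; exact Or.inl ⟨h2, h1⟩
        rw [hsd]
        have hcut : Pos L (insert e S') (B.erase e) := by
          by_contra hcon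
          exact hBχ ((chi_uncut heS' h hm' (Or.inl ⟨hB1.symm, hcon⟩)).trans hIH)
        refine ⟨hcut, ?_⟩
        have hcon : Pos (L ⊓ vanish {e}) S' B :=
          (h.con' heS' (by omega) B).2 ⟨hcut, by rw [hB1]; exact hB⟩
        have hGe := h.contract_one heS'
        rw [Nat.add_sub_cancel] at hGe
        rcases Nat.eq_zero_or_pos m with rfl | hmpos
        · exact absurd hcon (hGe.not_pos_zero hne B)
        · obtain ⟨k, rfl⟩ : ∃ k, m = k + 1 := ⟨m - 1, by omega⟩
          have h2 := ih S' hS'n _ k hGe (by omega) B hcon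
          have h3 := chi_add heS' h hm' B
          rw [hB1, hIH, h2] at h3
          intro h4
          apply hBχ
          rw [h4] at h3
          rw [pow_succ] at h3 ⊢
          linarith
      · have hB1 : B.erase e = B := Finset.erase_eq_of_notMem heB
        have hsd : symmDiff B {e} = insert e B := by
          ext i; simp only [Finset.mem_symmDiff, Finset.mem_singleton, Finset.mem_insert]
          constructor
          · rintro (⟨h1, h2⟩ | ⟨h1, h2⟩)
            · exact Or.inr h1
            · exact Or.inl h1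
          · rintro (rfl | h1)
            · exact Or.inr ⟨rfl, heB⟩
            · exact Or.inl ⟨h1, fun h' => heB (h' ▸ h1)⟩
        rw [hsd]
        have hcut : Pos L (insert e S') (insert e B) := by
          by_contra hcon
          exact hBχ ((chi_uncut heS' h hm' (Or.inr ⟨hB1.symm, hcon⟩)).trans hIH)
        refine ⟨hcut, ?_⟩
        have hcon : Pos (L ⊓ vanish {e}) S' B :=
          (h.con' heS' (by omega) B).2 ⟨by rw [hB1]; exact hB, hcut⟩
        have hGe := h.contract_one heS'
        rw [Nat.add_sub_cancel] at hGe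
        rcases Nat.eq_zero_or_pos m with rfl | hmpos
        · exact absurd hcon (hGe.not_pos_zero hne B)
        · obtain ⟨k, rfl⟩ : ∃ k, m = k + 1 := ⟨m - 1, by omega⟩
          have h2 := ih S' hS'n _ k hGe (by omega) B hcon
          have h3 := chi_add heS' h hm' B
          rw [hB1, hIH, h2] at h3
          intro h4
          apply hBχ
          rw [h4] at h3
          rw [pow_succ] at h3 ⊢
          linarith
    by_contra hcon
    -- all sign vectors on `S` are realised
    have hall : ∀ T ⊆ S, Pos L S (symmDiff A T) ∧ chi L S (symmDiff A T) ≠ (-1) ^ m := by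
      intro T
      induction T using Finset.induction_on with
      | empty =>
        intro _
        have : symmDiff A (∅ : Finset ι) = A := by
          rw [← Finset.bot_eq_empty, symmDiff_bot]
        rw [this]
        exact ⟨hA, hcon⟩
      | insert e T heT ihT =>
        intro hT
        obtain ⟨h1, h2⟩ := ihT ((Finset.subset_insert _ _).trans hT)
        have h3 := step e (hT (Finset.mem_insert_self _ _)) _ h1 h2
        have : symmDiff (symmDiff A T) {e} = symmDiff A (insert e T) := by
          rw [symmDiff_assoc]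
          congr 1
          ext i
          simp only [Finset.mem_symmDiff, Finset.mem_singleton, Finset.mem_insert]
          constructor
          · rintro (⟨h4, h5⟩ | ⟨h4, h5⟩)
            · exact Or.inr h4
            · exact Or.inl h4
          · rintro (rfl | h4)
            · exact Or.inr ⟨rfl, heT⟩
            · exact Or.inl ⟨h4, fun h' => heT (h' ▸ h4)⟩
        rwa [this] at h3
    have htop : topes L S = S.powerset := by
      ext B
      rw [mem_topes, Finset.mem_powerset]
      refine ⟨fun h' => h'.1, fun hB => ⟨hB, ?_⟩⟩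
      have h1 := (hall (symmDiff A B ∩ S) Finset.inter_subset_right).1
      refine (Pos.congr ?_).1 h1
      intro i hi
      have : i ∈ symmDiff A (symmDiff A B ∩ S) ↔ i ∈ B := by
        simp only [Finset.mem_symmDiff, Finset.mem_inter]
        tauto
      unfold sg
      simp only [this]
    have hne : S.Nonempty := Finset.card_pos.1 (by omega)
    have hc := card_topes hne h
    rw [htop, Finset.card_powerset] at hc
    obtain ⟨k, hk⟩ : ∃ k, S.card = k + 1 := ⟨S.card - 1, by omega⟩
    have h5 := two_mul_sum_choose_lt (m := m + 1) (n := k) (by omega)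
    rw [hk, Nat.add_sub_cancel] at hc
    push_cast at hc
    linarith

theorem Gen.euler {L : Submodule ℝ (ι → ℝ)} {S : Finset ι} {m : ℕ} (h : Gen L S (m + 1))
    (hm : m + 1 ≤ S.card) {A : Finset ι} (hA : Pos L S A) : chi L S A = (-1) ^ m :=
  Radon.euler S.card S rfl L m h hm A hA

/-- Sums over topes of functions weighted by the faces. -/
theorem sum_topes_fc {L : Submodule ℝ (ι → ℝ)} {S Z : Finset ι} {m : ℕ} (h : Gen L S m)
    (hZ : Z ∈ S.ssubsets) (w : Finset ι → ℤ) :
    ∑ A ∈ topes L S, w A * fc L S A Z = ∑ A ∈ S.powerset, w A * fc L S A Z := by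
  classical
  unfold topes
  rw [Finset.sum_filter]
  apply Finset.sum_congr rfl
  intro A _
  rw [Finset.mem_ssubsets] at hZ
  split_ifs with hp
  · rfl
  · unfold fc
    rw [if_neg, mul_zero]
    rintro ⟨x, hx, h1⟩
    apply hp
    have hne : (S \ Z).Nonempty := by
      rw [Finset.sdiff_nonempty]; exact hZ.2
    obtain ⟨j, hj⟩ := hne
    have hxj := h1 j hj
    refine h.pos_of_weak hx.1 ?_ ?_
    · rintro rfl
      simp at hxj
    · intro i hi
      by_cases hiZ : i ∈ Z
      · rw [hx.2 i hiZ]; simp
      · exact (h1 i (Finset.mem_sdiff.2 ⟨hi, hiZ⟩)).le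

/-- The parity of a subset. -/
theorem Gen.parity {L : Submodule ℝ (ι → ℝ)} {S : Finset ι} {m : ℕ} (h : Gen L S (m + 1))
    (hm : m + 1 ≤ S.card) (hodd : Odd m) : ∑ A ∈ topes L S, (-1 : ℤ) ^ A.card = 0 := by
  classical
  have hne : S.Nonempty := Finset.card_pos.1 (by omega)
  have h1 : ∑ A ∈ topes L S, (-1 : ℤ) ^ A.card * chi L S A =
      ∑ A ∈ topes L S, (-1 : ℤ) ^ A.card * (-1) ^ m := by
    apply Finset.sum_congr rfl
    intro A hA
    rw [h.euler hm (mem_topes.1 hA).2]
  rw [← Finset.sum_mul, hodd.neg_one_pow] at h1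
  have h2 : ∑ A ∈ topes L S, (-1 : ℤ) ^ A.card * chi L S A =
      ∑ A ∈ topes L S, (-1 : ℤ) ^ A.card := by
    unfold chi
    simp only [Finset.mul_sum]
    rw [Finset.sum_comm]
    have hmem : (∅ : Finset ι) ∈ S.ssubsets := by
      rw [Finset.mem_ssubsets]; exact Finset.empty_ssubset.2 hne
    rw [← Finset.add_sum_erase _ _ hmem]
    have h3 : ∑ A ∈ topes L S, (-1 : ℤ) ^ A.card * ((-1) ^ (∅ : Finset ι).card * fc L S A ∅) =
        ∑ A ∈ topes L S, (-1 : ℤ) ^ A.card := by
      apply Finset.sum_congr rfl
      intro A hA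
      have : fc L S A ∅ = 1 := by
        unfold fc
        rw [if_pos]
        rw [vanish_empty, inf_top_eq, Finset.sdiff_empty]
        exact (mem_topes.1 hA).2
      rw [this]
      simp
    rw [h3]
    have h4 : ∑ Z ∈ S.ssubsets.erase ∅, ∑ A ∈ topes L S,
        (-1 : ℤ) ^ A.card * ((-1) ^ Z.card * fc L S A Z) = 0 := by
      apply Finset.sum_eq_zero
      intro Z hZ
      rw [Finset.mem_erase] at hZ
      have h5 : ∀ A : Finset ι, (-1 : ℤ) ^ A.card * ((-1) ^ Z.card * fc L S A Z) =
          ((-1 : ℤ) ^ A.card * (-1) ^ Z.card) * fc L S A Z := fun A => by ring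
      simp only [h5]
      rw [sum_topes_fc h hZ.2]
      obtain ⟨z, hz⟩ := Finset.nonempty_iff_ne_empty.2 hZ.1
      have hzS : z ∈ S := (Finset.mem_ssubsets.1 hZ.2).1 hz
      rw [← Finset.insert_erase hzS, Finset.sum_powerset_insert (Finset.notMem_erase _ _),
        ← Finset.sum_add_distrib]
      apply Finset.sum_eq_zero
      intro A hA
      rw [Finset.mem_powerset] at hA
      have hzA : z ∉ A := fun h' => by simpa using hA h'
      rw [Finset.card_insert_of_notMem hzA]
      have h6 : fc L (insert z (S.erase z)) (insert z A) Z =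
          fc L (insert z (S.erase z)) A Z := by
        unfold fc
        rw [Pos.congr (A := insert z A) (B := A)]
        intro i hi
        apply sg_insert_of_ne
        rintro rfl
        exact (Finset.mem_sdiff.1 hi).2 hz
      rw [h6, pow_succ]
      ring
    rw [h4, add_zero]
  rw [h2] at h1
  linarith

/-- In dimension two every tope has two rays. -/
theorem Gen.two {L : Submodule ℝ (ι → ℝ)} {S : Finset ι} (h : Gen L S 2)
    (hS : 2 ≤ S.card) {A : Finset ι} (hA : Pos L S A) :
    ∑ e ∈ S, fc L S A {e} = 2 := by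
  classical
  have h1 := h.euler (m := 1) hS hA
  unfold chi at h1
  have hne : S.Nonempty := Finset.card_pos.1 (by omega)
  have hmem : (∅ : Finset ι) ∈ S.ssubsets := by
    rw [Finset.mem_ssubsets]; exact Finset.empty_ssubset.2 hne
  rw [← Finset.add_sum_erase _ _ hmem] at h1
  have h0 : fc L S A ∅ = 1 := by
    unfold fc
    rw [if_pos]
    rw [vanish_empty, inf_top_eq, Finset.sdiff_empty]
    exact hA
  rw [h0] at h1
  have h2 : ∑ Z ∈ S.ssubsets.erase ∅, (-1 : ℤ) ^ Z.card * fc L S A Z =
      ∑ Z ∈ S.image (fun e => ({e} : Finset ι)), (-1 : ℤ) ^ Z.card * fc L S A Z := by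
    symm
    apply Finset.sum_subset
    · intro Z hZ
      rw [Finset.mem_image] at hZ
      obtain ⟨e, he, rfl⟩ := hZ
      rw [Finset.mem_erase, Finset.mem_ssubsets]
      refine ⟨by simp, ?_⟩
      rw [Finset.ssubset_iff_subset_ne]
      refine ⟨by simpa using he, ?_⟩
      intro h'
      rw [← h'] at hS
      simp at hS
    · intro Z hZ hZ'
      rw [Finset.mem_erase, Finset.mem_ssubsets] at hZ
      have hc : 2 ≤ Z.card := by
        by_contra hcon
        push Not at hcon
        have hpos := Finset.card_pos.2 (Finset.nonempty_iff_ne_empty.2 hZ.1)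
        have : Z.card = 1 := by omega
        rw [Finset.card_eq_one] at this
        obtain ⟨e, rfl⟩ := this
        apply hZ'
        rw [Finset.mem_image]
        exact ⟨e, by simpa using hZ.2.1, rfl⟩
      have hG := h.face hZ.2.1
      rw [Nat.sub_eq_zero_of_le hc] at hG
      unfold fc
      rw [if_neg (hG.not_pos_zero (by rw [Finset.sdiff_nonempty]; exact hZ.2.2) A), mul_zero]
  rw [h2, Finset.sum_image (by intro a _ b _ h'; simpa using h')] at h1
  simp only [Finset.card_singleton, Finset.card_empty] at h1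
  have h3 : ∑ e ∈ S, (-1 : ℤ) ^ 1 * fc L S A {e} = - ∑ e ∈ S, fc L S A {e} := by
    rw [← Finset.sum_neg_distrib]
    apply Finset.sum_congr rfl
    intro e _; ring
  rw [h3] at h1
  linarith

end Pool.Agent.U280.Radon
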