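import Mathlib

/-!
The functional equation satisfied by the affine relations.
-/

set_option autoImplicit false
set_option linter.unusedVariables false

namespace Pool.Agent.U280.Radon

/-- The functional equation. -/
def FE (d m : ℕ) (a b : ℕ → ℝ) : Prop :=
  ∀ p k : ℕ, 1 ≤ p → p ≤ d → k ≤ m →
    a (p + k) - a (p + m - k) = ((m : ℝ) - 2 * k) * (b (p + 1) - b p)

theorem fe_one {d : ℕ} {a b : ℕ → ℝ} (h : FE d 1 a b) :
    ∀ j, 1 ≤ j → j ≤ d + 1 → a j + b j = a 1 + b 1 := by
  intro j h1
  induction j, h1 using Nat.le_induction with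
  | base => intro _; rfl
  | succ j hj ih =>
    intro hd
    have h1 := ih (by omega)
    have h2 := h j 1 hj (by omega) le_rfl
    have e : j + 1 - 1 = j := by omega
    rw [e] at h2
    push_cast at h2
    linarith

theorem fe_two {d : ℕ} {a b : ℕ → ℝ} (h : FE d 2 a b) :
    ∀ j, 1 ≤ j → j ≤ d + 1 → b j + (a j + a (j + 1)) / 2 = b 1 + (a 1 + a 2) / 2 := by
  intro j h1
  induction j, h1 using Nat.le_induction with
  | base => intro _; rfl
  | succ j hj ih =>
    intro hd
    have h1 := ih (by omega)
    have h2 := h j 0 hj (by omega) (by omega)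
    have e : j + 2 - 0 = j + 2 := by omega
    rw [e, add_zero] at h2
    push_cast at h2
    have e2 : j + 1 + 1 = j + 2 := rfl
    rw [e2]
    linarith

theorem fe_main {d m : ℕ} (hd : 2 ≤ d) (hm : 3 ≤ m) {a b : ℕ → ℝ} (h : FE d m a b)
    (ha : ∀ j, 1 ≤ j → j ≤ d + m → a j = a (d + 1 + m - j))
    (hb : ∀ j, 1 ≤ j → j ≤ d + 1 → b j = b (d + 2 - j)) :
    ∃ A C c e : ℝ,
      (∀ j : ℕ, 1 ≤ j → j ≤ d + m → a j = A + C * (-1) ^ j + c * (2 * j - (d + 1 + m)) ^ 2) ∧
      (∀ j : ℕ, 1 ≤ j → j ≤ d + 1 → b j = e - c * (2 * j - (d + 2)) ^ 2) ∧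
      (C ≠ 0 → Odd d ∧ Odd (m + 1)) := by
  set δ : ℕ → ℝ := fun p => b (p + 1) - b p with hδ
  have hm' : (3 : ℝ) ≤ m := by exact_mod_cast hm
  -- arithmetic progression
  have hap : ∀ p, 1 ≤ p → p + 2 ≤ d → δ (p + 2) = 2 * δ (p + 1) - δ p := by
    intro p hp hpd
    have h1 := h p 1 hp (by omega) (by omega)
    have h2 := h (p + 1) 0 (by omega) (by omega) (by omega)
    have h3 := h (p + 1) 2 (by omega) (by omega) (by omega)
    have h4 := h (p + 2) 1 (by omega) (by omega) (by omega)
    have e1 : p + 1 + 0 = p + 1 := rfl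
    have e2 : p + 1 + m - 0 = p + m + 1 := by omega
    have e3 : p + 1 + m - 2 = p + m - 1 := by omega
    have e4 : p + 2 + m - 1 = p + m + 1 := by omega
    have e5 : p + 1 + 2 = p + 2 + 1 := rfl
    rw [e2, e1] at h2
    rw [e3, e5] at h3
    rw [e4] at h4
    push_cast at h1 h2 h3 h4
    have h5 : ((m : ℝ) - 2) * (δ (p + 2) - (2 * δ (p + 1) - δ p)) = 0 := by
      simp only [hδ]
      have e6 : p + 2 + 1 = p + 1 + 1 + 1 := rfl
      have e7 : p + 1 + 1 = p + 2 := rfl
      simp only [e6, e7] at *
      linarith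
    have h6 : ((m : ℝ) - 2) ≠ 0 := by linarith
    have h7 := (mul_eq_zero.1 h5).resolve_left h6
    linarith
  have hlin : ∀ p, 1 ≤ p → p ≤ d → δ p = δ 1 + (p - 1) * (δ 2 - δ 1) := by
    intro p
    induction p using Nat.strong_induction_on with
    | _ p ih =>
      intro hp hpd
      rcases Nat.lt_or_ge p 3 with hlt | hge
      · interval_cases p
        · norm_num
        · norm_num
      · obtain ⟨q, rfl⟩ : ∃ q, p = q + 2 := ⟨p - 2, by omega⟩
        have h1 := ih (q + 1) (by omega) (by omega) (by omega)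
        have h2 := ih q (by omega) (by omega) (by omega)
        rw [hap q (by omega) hpd, h1, h2]
        push_cast
        ring
  have hanti : δ d = - δ 1 := by
    simp only [hδ]
    have h1 := hb 1 le_rfl (by omega)
    have h2 := hb 2 (by omega) (by omega)
    have e1 : d + 2 - 1 = d + 1 := by omega
    have e2 : d + 2 - 2 = d := by omega
    rw [e1] at h1
    rw [e2] at h2
    have e3 : (1 : ℕ) + 1 = 2 := rfl
    rw [e3]
    linarith
  set η := δ 2 - δ 1 with hη
  have hδ1 : δ 1 = -((d : ℝ) - 1) * η / 2 := by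
    have := hlin d (by omega) le_rfl
    rw [hanti] at this
    linarith
  have hδp : ∀ p, 1 ≤ p → p ≤ d → δ p = η / 2 * (2 * p - d - 1) := by
    intro p hp hpd
    rw [hlin p hp hpd, hδ1]; ring
  -- the function `b`
  have hbj : ∀ j : ℕ, 1 ≤ j → j ≤ d + 1 →
      b j = (b 1 - η / 8 * (d : ℝ) ^ 2) + η / 8 * (2 * j - (d + 2)) ^ 2 := by
    intro j h1
    induction j, h1 using Nat.le_induction with
    | base => intro _; push_cast; ring
    | succ j hj ih =>
      intro hjd
      have h1 := ih (by omega)
      have h2 := hδp j hj (by omega)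
      simp only [hδ] at h2
      push_cast
      linarith
  -- the function `a`
  set t : ℕ → ℝ := fun j => a j + η / 8 * (2 * j - (d + 1 + m)) ^ 2 with ht
  have htk : ∀ p k : ℕ, 1 ≤ p → p ≤ d → k ≤ m → t (p + k) = t (p + m - k) := by
    intro p k hp hpd hk
    have h1 := h p k hp hpd hk
    have h2 := hδp p hp hpd
    simp only [hδ] at h2
    rw [h2] at h1
    simp only [ht]
    have e1 : ((p + m - k : ℕ) : ℝ) = p + m - k := by
      rw [Nat.cast_sub (by omega)]; push_cast; ring
    rw [e1]
    push_cast
    linarith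
  have hper : ∀ j, 1 ≤ j → j + 2 ≤ d + m → t (j + 2) = t j := by
    intro j hj hjd
    rcases le_total j m with hjm | hjm
    · have h1 := htk 1 (m + 1 - j) le_rfl (by omega) (by omega)
      have h2 := htk 2 (m - j) (by omega) (by omega) (by omega)
      have e1 : 1 + m - (m + 1 - j) = j := by omega
      have e2 : 2 + m - (m - j) = j + 2 := by omega
      have e3 : 1 + (m + 1 - j) = 2 + (m - j) := by omega
      rw [e1, e3] at h1
      rw [e2] at h2
      rw [← h2, h1]
    · have h1 := htk (j - m + 1) 1 (by omega) (by omega) (by omega)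
      have h2 := htk (j - m + 2) 0 (by omega) (by omega) (by omega)
      have e1 : j - m + 1 + m - 1 = j := by omega
      have e2 : j - m + 2 + m - 0 = j + 2 := by omega
      have e3 : j - m + 2 + 0 = j - m + 1 + 1 := by omega
      rw [e1] at h1
      rw [e2, e3] at h2
      rw [← h2, h1]
  have htj : ∀ j, 1 ≤ j → j ≤ d + m → t j = (t 1 + t 2) / 2 + (t 2 - t 1) / 2 * (-1) ^ j := by
    intro j
    induction j using Nat.strong_induction_on with
    | _ j ih =>
      intro hj hjd
      rcases Nat.lt_or_ge j 3 with hlt | hge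
      · interval_cases j
        · norm_num; ring
        · norm_num; ring
      · obtain ⟨q, rfl⟩ : ∃ q, j = q + 2 := ⟨j - 2, by omega⟩
        rw [hper q (by omega) hjd, ih q (by omega) (by omega) (by omega), pow_add]
        norm_num
  refine ⟨(t 1 + t 2) / 2, (t 2 - t 1) / 2, -(η / 8), b 1 - η / 8 * (d : ℝ) ^ 2, ?_, ?_, ?_⟩
  · intro j hj hjd
    have h1 := htj j hj hjd
    simp only [ht] at h1 ⊢
    linarith
  · intro j hj hjd
    rw [hbj j hj hjd]; ring
  · intro hC
    have h1 : t 1 ≠ t 2 := by
      intro h'; apply hC; rw [h']; ring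
    have hme : Even m := by
      by_contra hodd
      rw [Nat.not_even_iff_odd] at hodd
      apply h1
      have h2 := htk 1 0 le_rfl (by omega) (by omega)
      have e1 : 1 + m - 0 = 1 + m := by omega
      rw [e1, add_zero] at h2
      have h3 := htj (1 + m) (by omega) (by omega)
      have h4 : Even (1 + m) := by
        rw [add_comm]; exact hodd.add_one
      rw [← h2, h4.neg_one_pow] at h3
      linarith
    have hse : Even (d + 1 + m) := by
      by_contra hodd
      rw [Nat.not_even_iff_odd] at hodd
      apply h1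
      have h2 := ha 1 le_rfl (by omega)
      have e1 : d + 1 + m - 1 = d + m := by omega
      rw [e1] at h2
      have h3 := htj (d + m) (by omega) le_rfl
      have h4 : Even (d + m) := by
        have : d + 1 + m = (d + m) + 1 := by ring
        rw [this] at hodd
        rw [Nat.even_iff]
        rw [Nat.odd_iff] at hodd
        omega
      have h5 : t 1 = t (d + m) := by
        simp only [ht]
        rw [h2]
        push_cast
        ring
      rw [← h5, h4.neg_one_pow] at h3
      linarith
    constructor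
    · rw [Nat.even_iff] at hme hse
      rw [Nat.odd_iff]
      omega
    · exact hme.add_one

end Pool.Agent.U280.Radon
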