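import Pool.Agent.U280.Radon.Euler

/-!
Affine dependences of a finite family of points, and Radon partitions.
-/

set_option autoImplicit false
set_option linter.unusedSectionVars false
set_option linter.unusedVariables false

namespace Pool.Agent.U280.Radon

open Finset Module

variable {ι : Type*} [Fintype ι] [DecidableEq ι]

/-! ### More on subspaces in general position -/

theorem Gen.pos_of_face {L : Submodule ℝ (ι → ℝ)} {S Z A : Finset ι} {m : ℕ} (h : Gen L S m)
    (hne : (S \ Z).Nonempty) (hA : Pos (L ⊓ vanish Z) (S \ Z) A) : Pos L S A := by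
  obtain ⟨x, hx, h1⟩ := hA
  obtain ⟨j, hj⟩ := hne
  have hxj := h1 j hj
  refine h.pos_of_weak hx.1 ?_ ?_
  · rintro rfl
    simp at hxj
  · intro i hi
    by_cases hiZ : i ∈ Z
    · rw [hx.2 i hiZ]; simp
    · exact (h1 i (Finset.mem_sdiff.2 ⟨hi, hiZ⟩)).le

theorem Gen.exists_facet {M : Submodule ℝ (ι → ℝ)} {T A : Finset ι} {k : ℕ}
    (h : Gen M T (k + 2)) (hT : k + 2 ≤ T.card) (hA : Pos M T A) :
    ∃ e ∈ T, Pos (M ⊓ vanish {e}) (T.erase e) A := by
  classical
  obtain ⟨x, hx, hxT⟩ := hA
  obtain ⟨e0, he0⟩ : T.Nonempty := Finset.card_pos.1 (by omega)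
  obtain ⟨y0, hy0, hy0ne⟩ : ∃ y ∈ M ⊓ vanish {e0}, y ≠ 0 := by
    have h1 := h {e0} (by simpa using he0)
    rw [Finset.card_singleton] at h1
    by_contra hcon
    push Not at hcon
    have : M ⊓ vanish {e0} = ⊥ := by
      rw [Submodule.eq_bot_iff]; exact hcon
    rw [this, finrank_bot] at h1
    omega
  obtain ⟨y, hy, hyneg⟩ : ∃ y ∈ M ⊓ vanish {e0}, ∃ i ∈ T, sg A i * y i < 0 := by
    by_cases hc : ∃ i ∈ T, sg A i * y0 i < 0
    · exact ⟨y0, hy0, hc⟩
    · push Not at hc
      refine ⟨-y0, Submodule.neg_mem _ hy0, ?_⟩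
      by_contra hcon
      push Not at hcon
      apply hy0ne
      apply h.eq_zero subset_rfl hT hy0.1
      intro i hi
      have h1 := hc i hi
      have h2 := hcon i hi
      simp only [Pi.neg_apply, mul_neg] at h2
      have h3 : sg A i * y0 i = 0 := by linarith
      exact (mul_eq_zero.1 h3).resolve_left (sg_ne_zero _ _)
  set N := T.filter (fun i => sg A i * y i < 0) with hN
  have hNne : N.Nonempty := by
    obtain ⟨i, hi, h1⟩ := hyneg
    exact ⟨i, Finset.mem_filter.2 ⟨hi, h1⟩⟩
  obtain ⟨j, hjN, hjmin⟩ := Finset.exists_min_image N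
    (fun i => (sg A i * x i) / (-(sg A i * y i))) hNne
  rw [hN, Finset.mem_filter] at hjN
  set t := (sg A j * x j) / (-(sg A j * y j)) with ht
  have htpos : 0 < t := div_pos (hxT j hjN.1) (by linarith [hjN.2])
  have hzj : sg A j * (x j + t * y j) = 0 := by
    rw [ht]
    have h1 : sg A j * y j ≠ 0 := hjN.2.ne
    have h2 : y j ≠ 0 := fun h' => h1 (by rw [h', mul_zero])
    have h3 := sg_ne_zero A j
    field_simp
    ring
  refine ⟨j, hjN.1, ?_⟩
  have hG : Gen (M ⊓ vanish {j}) (T.erase j) (k + 1) := by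
    have h1 := Gen.contract_one (L := M) (S := T.erase j) (e := j) (m := k + 2)
      (Finset.notMem_erase _ _) (by rw [Finset.insert_erase hjN.1]; exact h)
    simpa using h1
  refine hG.pos_of_weak (x := x + t • y) ⟨M.add_mem hx (M.smul_mem _ hy.1), ?_⟩ ?_ ?_
  · intro i hi
    rw [Finset.mem_singleton] at hi
    subst hi
    simp only [Pi.add_apply, Pi.smul_apply, smul_eq_mul]
    exact (mul_eq_zero.1 hzj).resolve_left (sg_ne_zero _ _)
  · intro h0
    have h1 := congrFun h0 e0
    have h2 : y e0 = 0 := hy.2 e0 (by simp)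
    simp only [Pi.add_apply, Pi.smul_apply, smul_eq_mul, h2, mul_zero, add_zero,
      Pi.zero_apply] at h1
    have h3 := hxT e0 he0
    rw [h1] at h3
    simp at h3
  · intro i hi
    have hiT : i ∈ T := Finset.mem_of_mem_erase hi
    simp only [Pi.add_apply, Pi.smul_apply, smul_eq_mul]
    by_cases hneg : sg A i * y i < 0
    · have h1 := hjmin i (Finset.mem_filter.2 ⟨hiT, hneg⟩)
      rw [le_div_iff₀ (by linarith)] at h1
      nlinarith
    · push Not at hneg
      have h1 := hxT i hiT
      nlinarith

theorem Gen.exists_circuit (m : ℕ) : ∀ {L : Submodule ℝ (ι → ℝ)} {S A : Finset ι},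
    Gen L S (m + 1) → m + 1 ≤ S.card → Pos L S A →
    ∃ K ⊆ S, K.card = m ∧ Pos (L ⊓ vanish K) (S \ K) A := by
  classical
  induction m with
  | zero =>
    intro L S A h hS hA
    refine ⟨∅, Finset.empty_subset _, rfl, ?_⟩
    rwa [vanish_empty, inf_top_eq, Finset.sdiff_empty]
  | succ m ih =>
    intro L S A h hS hA
    obtain ⟨e, he, hAe⟩ := Gen.exists_facet h hS hA
    have hG : Gen (L ⊓ vanish {e}) (S.erase e) (m + 1) := by
      have h1 := Gen.contract_one (L := L) (S := S.erase e) (e := e) (m := m + 1 + 1)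
        (Finset.notMem_erase _ _) (by rw [Finset.insert_erase he]; exact h)
      simpa using h1
    obtain ⟨K, hK, hKm, hKA⟩ := ih hG (by rw [Finset.card_erase_of_mem he]; omega) hAe
    have heK : e ∉ K := fun h' => by have := hK h'; simp at this
    refine ⟨insert e K, ?_, ?_, ?_⟩
    · intro i hi
      rw [Finset.mem_insert] at hi
      rcases hi with rfl | hi
      · exact he
      · exact Finset.mem_of_mem_erase (hK hi)
    · rw [Finset.card_insert_of_notMem heK, hKm]
    · rw [vanish_insert, ← inf_assoc]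
      have : S \ insert e K = S.erase e \ K := by
        ext i; simp only [Finset.mem_sdiff, Finset.mem_insert, Finset.mem_erase]; tauto
      rw [this]
      exact hKA

theorem Gen.dim_one {M : Submodule ℝ (ι → ℝ)} {T A B : Finset ι} (h : Gen M T 1)
    (hA : Pos M T A) (hB : Pos M T B) :
    (∀ i ∈ T, sg A i = sg B i) ∨ (∀ i ∈ T, sg A i = - sg B i) := by
  classical
  rcases T.eq_empty_or_nonempty with rfl | ⟨e, he⟩
  · left; simp
  obtain ⟨x, hx, h1⟩ := hA
  obtain ⟨y, hy, h2⟩ := hB
  have hxe : x e ≠ 0 := by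
    intro h'; have := h1 e he; rw [h'] at this; simp at this
  have hye : y e ≠ 0 := by
    intro h'; have := h2 e he; rw [h'] at this; simp at this
  have hz : x e • y - y e • x = 0 := by
    apply h.eq_zero (Z := {e}) (by simpa using he) (by simp)
      (M.sub_mem (M.smul_mem _ hy) (M.smul_mem _ hx))
    intro i hi
    rw [Finset.mem_singleton] at hi
    subst hi
    simp only [Pi.sub_apply, Pi.smul_apply, smul_eq_mul]; ring
  have hyx : ∀ i, y i = (y e / x e) * x i := by
    intro i
    have := congrFun hz i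
    simp only [Pi.sub_apply, Pi.smul_apply, smul_eq_mul, Pi.zero_apply] at this
    field_simp
    linarith
  have hsg : ∀ (C : Finset ι) (i : ι), sg C i = 1 ∨ sg C i = -1 := by
    intro C i; unfold sg; split_ifs
    · left; rfl
    · right; rfl
  rcases lt_or_gt_of_ne (div_ne_zero hye hxe) with hc | hc
  · right
    intro i hi
    have h3 := h1 i hi
    have h4 := h2 i hi
    rw [hyx i] at h4
    rcases hsg A i with h5 | h5 <;> rcases hsg B i with h6 | h6 <;> rw [h5] at h3 <;>
      rw [h6] at h4 <;> rw [h5, h6]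
    · nlinarith
    · norm_num
    · nlinarith
  · left
    intro i hi
    have h3 := h1 i hi
    have h4 := h2 i hi
    rw [hyx i] at h4
    rcases hsg A i with h5 | h5 <;> rcases hsg B i with h6 | h6 <;> rw [h5] at h3 <;>
      rw [h6] at h4 <;> rw [h5, h6]
    · nlinarith
    · nlinarith

/-- Dimension two, in terms of circuits. -/
theorem Gen.two_sum {L : Submodule ℝ (ι → ℝ)} {S : Finset ι} (h : Gen L S 2)
    (hS : 2 ≤ S.card) (w : ℕ → ℤ) :
    2 * ∑ A ∈ topes L S, w A.card =
      ∑ K ∈ S.powersetCard 1, ∑ A ∈ topes (L ⊓ vanish K) (S \ K), (w A.card + w (A.card + 1)) := by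
  classical
  have h1 : 2 * ∑ A ∈ topes L S, w A.card =
      ∑ e ∈ S, ∑ A ∈ topes L S, w A.card * fc L S A {e} := by
    rw [Finset.sum_comm, Finset.mul_sum]
    apply Finset.sum_congr rfl
    intro A hA
    rw [← Finset.mul_sum, h.two hS (mem_topes.1 hA).2]
    ring
  rw [h1, Finset.powersetCard_one, Finset.sum_map]
  apply Finset.sum_congr rfl
  intro e he
  simp only [Function.Embedding.coeFn_mk]
  have hss : ({e} : Finset ι) ∈ S.ssubsets := by
    rw [Finset.mem_ssubsets, Finset.ssubset_iff_subset_ne]
    refine ⟨by simpa using he, ?_⟩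
    intro h'
    rw [← h'] at hS
    simp at hS
  rw [sum_topes_fc h hss, ← Finset.insert_erase he, Finset.sum_powerset_insert
    (Finset.notMem_erase _ _), ← Finset.sum_add_distrib]
  have hset : insert e (S.erase e) \ {e} = S.erase e := by
    ext i; simp only [Finset.mem_sdiff, Finset.mem_insert, Finset.mem_erase,
      Finset.mem_singleton]; tauto
  unfold topes
  rw [hset, Finset.sum_filter]
  apply Finset.sum_congr rfl
  intro A hA
  rw [Finset.mem_powerset] at hA
  have heA : e ∉ A := fun h' => by simpa using hA h'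
  rw [Finset.card_insert_of_notMem heA]
  unfold fc
  rw [hset]
  have h6 : Pos (L ⊓ vanish {e}) (S.erase e) (insert e A) ↔
      Pos (L ⊓ vanish {e}) (S.erase e) A := by
    apply Pos.congr
    intro i hi
    apply sg_insert_of_ne
    rintro rfl
    simp at hi
  simp only [h6]
  split_ifs <;> ring

/-! ### Affine dependences -/

variable {E : Type*} [AddCommGroup E] [Module ℝ E]

/-- `l ↦ (∑ l i, ∑ l i • x i)`. -/
def Phi (x : ι → E) : (ι → ℝ) →ₗ[ℝ] ℝ × E where
  toFun l := (∑ i, l i, ∑ i, l i • x i)
  map_add' a b := by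
    simp only [Pi.add_apply, add_smul, Finset.sum_add_distrib, Prod.mk_add_mk]
  map_smul' c a := by
    simp only [Pi.smul_apply, smul_eq_mul, mul_smul, ← Finset.mul_sum, ← Finset.smul_sum,
      RingHom.id_apply, Prod.smul_mk]

@[simp] theorem Phi_apply (x : ι → E) (l : ι → ℝ) :
    Phi x l = (∑ i, l i, ∑ i, l i • x i) := rfl

/-- The affine dependences of the family `x`. -/
def dep (x : ι → E) : Submodule ℝ (ι → ℝ) := LinearMap.ker (Phi x)

theorem mem_dep {x : ι → E} {l : ι → ℝ} :
    l ∈ dep x ↔ ∑ i, l i = 0 ∧ ∑ i, l i • x i = 0 := by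
  unfold dep
  rw [LinearMap.mem_ker, Phi_apply, Prod.mk_eq_zero]

/-- The support. -/
noncomputable def supp (l : ι → ℝ) : Finset ι := univ.filter (fun i => l i ≠ 0)

theorem mem_supp {l : ι → ℝ} {i : ι} : i ∈ supp l ↔ l i ≠ 0 := by simp [supp]

theorem supp_subset_iff {l : ι → ℝ} {B : Finset ι} : supp l ⊆ B ↔ l ∈ vanish Bᶜ := by
  constructor
  · intro h i hi
    by_contra h'
    exact (Finset.mem_compl.1 hi) (h (mem_supp.2 h'))
  · intro h i hi
    by_contra h'
    exact (mem_supp.1 hi) (h i (Finset.mem_compl.2 h'))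

/-- General position: every dependence which is supported on `dim E + 1` indices vanishes. -/
def GP (x : ι → E) : Prop := ∀ l ∈ dep x, (supp l).card ≤ finrank ℝ E + 1 → l = 0

theorem finrank_vanish (Z : Finset ι) : finrank ℝ ↥(vanish Z) = Fintype.card ι - Z.card := by
  classical
  have h1 : vanish Z = ⨅ i ∈ (Z : Set ι), (LinearMap.proj i : (ι → ℝ) →ₗ[ℝ] ℝ).ker := by
    ext l
    simp [Submodule.mem_iInf]
  rw [h1]
  have e := LinearMap.iInfKerProjEquiv ℝ (fun _ : ι => ℝ) (I := (Zᶜ : Finset ι))
    (J := (Z : Set ι)) (by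
      rw [Set.disjoint_left]
      intro i hi hi'
      simp at hi hi'
      exact hi hi')
    (by intro i _; simp)
  rw [e.finrank_eq, Module.finrank_pi]
  simp only [Finset.coe_sort_coe, Fintype.card_coe]
  rw [Finset.card_compl]

variable [FiniteDimensional ℝ E]

theorem surj_of_inj {x : ι → E} {Z : Finset ι}
    (hZ : Fintype.card ι - Z.card = finrank ℝ E + 1)
    (h : ∀ l ∈ dep x, l ∈ vanish Z → l = 0) (v : ℝ × E) :
    ∃ l ∈ vanish Z, Phi x l = v := by
  have h1 : finrank ℝ ↥(vanish Z) = finrank ℝ (ℝ × E) := by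
    rw [finrank_vanish, hZ, Module.finrank_prod, finrank_self, add_comm]
  have hinj : Function.Injective ((Phi x).comp (vanish Z).subtype) := by
    rw [← LinearMap.ker_eq_bot, Submodule.eq_bot_iff]
    intro l hl
    rw [LinearMap.mem_ker] at hl
    have := h l.1 (by unfold dep; rw [LinearMap.mem_ker]; exact hl) l.2
    exact Subtype.ext this
  obtain ⟨l, hl⟩ := (LinearMap.injective_iff_surjective_of_finrank_eq_finrank h1).1 hinj v
  exact ⟨l.1, l.2, hl⟩

theorem GP.gen {x : ι → E} (h : GP x) {m : ℕ} (hm : Fintype.card ι = finrank ℝ E + 1 + m) :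
    Gen (dep x) univ m := by
  classical
  intro Z _
  have key : ∀ Z : Finset ι, m ≤ Z.card → ∀ l ∈ dep x, l ∈ vanish Z → l = 0 := by
    intro Z hZ l hl hlZ
    apply h l hl
    have h1 : supp l ⊆ Zᶜ := by
      rw [supp_subset_iff, compl_compl]; exact hlZ
    have h2 := Finset.card_le_card h1
    rw [Finset.card_compl] at h2
    omega
  rcases le_total m Z.card with hZ | hZ
  · rw [Nat.sub_eq_zero_of_le hZ, Submodule.finrank_eq_zero, Submodule.eq_bot_iff]
    intro l hl
    exact key Z hZ l hl.1 hl.2
  · obtain ⟨Z', hZZ', hZ'⟩ := Finset.exists_superset_card_eq hZ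
      (by omega : m ≤ Fintype.card ι)
    have hsurj : Function.Surjective ((Phi x).comp (vanish Z).subtype) := by
      intro v
      obtain ⟨l, hl, hlv⟩ := surj_of_inj (Z := Z') (by omega) (key Z' hZ'.ge) v
      exact ⟨⟨l, fun i hi => hl i (hZZ' hi)⟩, hlv⟩
    have h1 := LinearMap.finrank_range_add_finrank_ker ((Phi x).comp (vanish Z).subtype)
    rw [LinearMap.range_eq_top.2 hsurj, finrank_top, finrank_vanish, Module.finrank_prod,
      finrank_self] at h1
    have h2 : LinearMap.ker ((Phi x).comp (vanish Z).subtype) =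
        (dep x ⊓ vanish Z).comap (vanish Z).subtype := by
      ext l
      simp only [LinearMap.mem_ker, LinearMap.comp_apply, Submodule.mem_comap, dep,
        Submodule.mem_inf, Submodule.subtype_apply, SetLike.coe_mem, and_true]
    rw [h2, (Submodule.comapSubtypeEquivOfLe (inf_le_right : dep x ⊓ vanish Z ≤ _)).finrank_eq]
      at h1
    omega

theorem conv_iff {x : ι → E} {A : Finset ι} {y : E} :
    y ∈ convexHull ℝ (x '' (A : Set ι)) ↔
      ∃ w : ι → ℝ, (∀ i, 0 ≤ w i) ∧ (∀ i, i ∉ A → w i = 0) ∧ ∑ i, w i = 1 ∧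
        ∑ i, w i • x i = y := by
  classical
  constructor
  · intro hy
    have : convexHull ℝ (x '' (A : Set ι)) ⊆ {y | ∃ w : ι → ℝ, (∀ i, 0 ≤ w i) ∧
        (∀ i, i ∉ A → w i = 0) ∧ ∑ i, w i = 1 ∧ ∑ i, w i • x i = y} := by
      apply convexHull_min
      · rintro _ ⟨j, hj, rfl⟩
        refine ⟨fun i => if i = j then 1 else 0, ?_, ?_, ?_, ?_⟩
        · intro i; dsimp only; split_ifs <;> norm_num
        · intro i hi
          dsimp only
          rw [if_neg]
          rintro rfl
          exact hi hj
        · simp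
        · simp
      · rintro y ⟨w, h1, h2, h3, rfl⟩ z ⟨v, h4, h5, h6, rfl⟩ a b ha hb hab
        refine ⟨fun i => a * w i + b * v i, ?_, ?_, ?_, ?_⟩
        · intro i
          have := mul_nonneg ha (h1 i)
          have := mul_nonneg hb (h4 i)
          dsimp only
          linarith
        · intro i hi
          dsimp only
          rw [h2 i hi, h5 i hi]; ring
        · rw [Finset.sum_add_distrib, ← Finset.mul_sum, ← Finset.mul_sum, h3, h6]
          linarith
        · simp only [add_smul, mul_smul, Finset.sum_add_distrib, ← Finset.smul_sum]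
    exact this hy
  · rintro ⟨w, h1, h2, h3, rfl⟩
    have e1 : ∑ i, w i • x i = ∑ i ∈ A, w i • x i := by
      symm
      apply Finset.sum_subset (Finset.subset_univ _)
      intro i _ hi
      rw [h2 i hi, zero_smul]
    have e2 : ∑ i, w i = ∑ i ∈ A, w i := by
      symm
      apply Finset.sum_subset (Finset.subset_univ _)
      intro i _ hi
      exact h2 i hi
    rw [e1]
    exact (convex_convexHull ℝ _).sum_mem (fun i _ => h1 i) (by rw [← e2, h3])
      (fun i hi => subset_convexHull ℝ _ ⟨i, hi, rfl⟩)

/-- Radon pairs in terms of dependences. -/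
def Rad (x : ι → E) (A B : Finset ι) : Prop :=
  ∃ l ∈ dep x, l ≠ 0 ∧ (∀ i ∈ A, 0 ≤ l i) ∧ (∀ i ∈ B, l i ≤ 0) ∧ ∀ i, i ∉ A → i ∉ B → l i = 0

theorem radon_iff {x : ι → E} {A B : Finset ι} (hd : Disjoint A B) :
    (convexHull ℝ (x '' (A : Set ι)) ∩ convexHull ℝ (x '' (B : Set ι))).Nonempty ↔
      Rad x A B := by
  classical
  rw [Finset.disjoint_left] at hd
  constructor
  · rintro ⟨y, hy1, hy2⟩
    obtain ⟨w, h1, h2, h3, h4⟩ := conv_iff.1 hy1
    obtain ⟨v, h5, h6, h7, h8⟩ := conv_iff.1 hy2
    refine ⟨w - v, ?_, ?_, ?_, ?_, ?_⟩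
    · rw [mem_dep]
      simp only [Pi.sub_apply, sub_smul, Finset.sum_sub_distrib]
      rw [h3, h7, h4, h8]
      simp
    · intro h0
      have h9 : ∃ i, w i ≠ 0 := by
        by_contra hcon
        push Not at hcon
        rw [Finset.sum_eq_zero (fun i _ => hcon i)] at h3
        norm_num at h3
      obtain ⟨i, hi⟩ := h9
      have hiA : i ∈ A := by
        by_contra h'
        exact hi (h2 i h')
      have := congrFun h0 i
      simp only [Pi.sub_apply, Pi.zero_apply, h6 i (hd hiA), sub_zero] at this
      exact hi this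
    · intro i hi
      simp only [Pi.sub_apply, h6 i (hd hi), sub_zero]
      exact h1 i
    · intro i hi
      have : i ∉ A := fun h' => hd h' hi
      simp only [Pi.sub_apply, h2 i this, zero_sub, Left.neg_nonpos_iff]
      exact h5 i
    · intro i hi hi'
      simp [h2 i hi, h6 i hi']
  · rintro ⟨l, hl, hl0, h1, h2, h3⟩
    rw [mem_dep] at hl
    set c := ∑ i, max (l i) 0 with hc
    have hsplit : ∀ i, l i = max (l i) 0 - max (-l i) 0 := by
      intro i
      rcases le_total 0 (l i) with h | h
      · rw [max_eq_left h, max_eq_right (by linarith)]; ring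
      · rw [max_eq_right h, max_eq_left (by linarith)]; ring
    have hc' : c = ∑ i, max (-l i) 0 := by
      have : ∑ i, l i = ∑ i, max (l i) 0 - ∑ i, max (-l i) 0 := by
        rw [← Finset.sum_sub_distrib]
        exact Finset.sum_congr rfl (fun i _ => hsplit i)
      rw [hl.1] at this
      linarith
    have hcpos : 0 < c := by
      rcases (Finset.sum_nonneg (fun i _ => le_max_right (l i) 0) :
        0 ≤ ∑ i, max (l i) 0).lt_or_eq with h | h
      · exact h
      · exfalso
        apply hl0
        have e1 := (Finset.sum_eq_zero_iff_of_nonneg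
          (fun i _ => le_max_right (l i) 0)).1 h.symm
        have h' : (0 : ℝ) = ∑ i, max (-l i) 0 := by rw [← hc', hc]; exact h
        have e2 := (Finset.sum_eq_zero_iff_of_nonneg
          (fun i _ => le_max_right (-l i) 0)).1 h'.symm
        funext i
        rw [hsplit i, e1 i (Finset.mem_univ _), e2 i (Finset.mem_univ _)]
        simp
    refine ⟨∑ i, (max (l i) 0 / c) • x i, ?_, ?_⟩
    · rw [conv_iff]
      refine ⟨fun i => max (l i) 0 / c, ?_, ?_, ?_, rfl⟩
      · intro i; exact div_nonneg (le_max_right _ _) hcpos.le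
      · intro i hi
        have : l i ≤ 0 := by
          by_cases hiB : i ∈ B
          · exact h2 i hiB
          · exact (h3 i hi hiB).le
        simp [max_eq_right this]
      · rw [← Finset.sum_div, ← hc]; field_simp
    · rw [conv_iff]
      refine ⟨fun i => max (-l i) 0 / c, ?_, ?_, ?_, ?_⟩
      · intro i; exact div_nonneg (le_max_right _ _) hcpos.le
      · intro i hi
        have : 0 ≤ l i := by
          by_cases hiA : i ∈ A
          · exact h1 i hiA
          · exact (h3 i hiA hi).ge
        simp [max_eq_right (by linarith : -l i ≤ 0)]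
      · rw [← Finset.sum_div, ← hc']; field_simp
      · rw [← sub_eq_zero, ← Finset.sum_sub_distrib]
        have : ∑ i, ((max (-l i) 0 / c) • x i - (max (l i) 0 / c) • x i) =
            (-(1 / c)) • ∑ i, l i • x i := by
          rw [Finset.smul_sum]
          apply Finset.sum_congr rfl
          intro i _
          rw [← sub_smul, smul_smul]
          congr 1
          conv_rhs => rw [hsplit i]
          ring
        rw [this, hl.2, smul_zero]

theorem rad_compl_iff {x : ι → E} (h : GP x) {m : ℕ}
    (hm : Fintype.card ι = finrank ℝ E + 1 + m) {A : Finset ι} :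
    Rad x A Aᶜ ↔ Pos (dep x) univ A := by
  classical
  have hG := h.gen hm
  constructor
  · rintro ⟨l, hl, hl0, h1, h2, -⟩
    refine hG.pos_of_weak hl hl0 ?_
    intro i _
    by_cases hi : i ∈ A
    · rw [sg_of_mem hi, one_mul]; exact h1 i hi
    · rw [sg_of_notMem hi]
      have := h2 i (Finset.mem_compl.2 hi)
      linarith
  · rintro ⟨l, hl, h1⟩
    have hne : Nonempty ι := by
      rw [← Fintype.card_pos_iff]; omega
    obtain ⟨j⟩ := hne
    refine ⟨l, hl, ?_, ?_, ?_, ?_⟩
    · rintro rfl
      have := h1 j (Finset.mem_univ _)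
      simp at this
    · intro i hi
      have := h1 i (Finset.mem_univ _)
      rw [sg_of_mem hi] at this; linarith
    · intro i hi
      have := h1 i (Finset.mem_univ _)
      rw [sg_of_notMem (Finset.mem_compl.1 hi)] at this; linarith
    · intro i hi hi'
      exact absurd (Finset.mem_compl.2 hi) hi'

theorem GP.injective {x : ι → E} (h : GP x) (hd : 1 ≤ finrank ℝ E) :
    Function.Injective x := by
  classical
  intro i j hij
  by_contra hne
  have h1 : (Pi.single i 1 - Pi.single j 1 : ι → ℝ) = 0 := by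
    apply h
    · rw [mem_dep]
      constructor
      · simp
      · simp only [Pi.sub_apply, sub_smul, Finset.sum_sub_distrib]
        rw [Finset.sum_eq_single i, Finset.sum_eq_single j]
        · simp [hij]
        · intro k _ hk; simp [hk]
        · simp
        · intro k _ hk; simp [hk]
        · simp
    · have : supp (Pi.single i 1 - Pi.single j 1 : ι → ℝ) ⊆ {i, j} := by
        intro k hk
        rw [mem_supp] at hk
        rw [Finset.mem_insert, Finset.mem_singleton]
        by_contra hcon
        push Not at hcon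
        apply hk
        simp [hcon.1, hcon.2]
      have h2 := Finset.card_le_card this
      have h3 : ({i, j} : Finset ι).card ≤ 2 := Finset.card_le_two
      omega
  have := congrFun h1 i
  simp [hne] at this

end Pool.Agent.U280.Radon
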