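import Mathlib

/-!
Sign vectors of a linear subspace `L` of `ℝ^ι` in general position with respect to a finite set `S`
of coordinates: deletion and contraction, and the resulting identity for pairs of coordinates.
-/

set_option autoImplicit false
set_option linter.unusedSectionVars false
set_option linter.unusedVariables false

namespace Pool.Agent.U280.Radon

open Finset Module Filter Topology

variable {ι : Type*} [Fintype ι] [DecidableEq ι]

/-- The vectors which vanish on `Z`. -/
def vanish (Z : Finset ι) : Submodule ℝ (ι → ℝ) where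
  carrier := {x | ∀ i ∈ Z, x i = 0}
  add_mem' := fun {a b} ha hb i hi => by simp [ha i hi, hb i hi]
  zero_mem' := fun i _ => rfl
  smul_mem' := fun c a ha i hi => by simp [ha i hi]

@[simp] theorem mem_vanish {Z : Finset ι} {x : ι → ℝ} : x ∈ vanish Z ↔ ∀ i ∈ Z, x i = 0 := Iff.rfl

theorem vanish_empty : vanish (∅ : Finset ι) = ⊤ := by
  ext x; simp

theorem vanish_insert (e : ι) (Z : Finset ι) : vanish (insert e Z) = vanish {e} ⊓ vanish Z := by
  ext x; simp

theorem vanish_union (K Z : Finset ι) : vanish (K ∪ Z) = vanish K ⊓ vanish Z := by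
  ext x
  simp only [mem_vanish, Finset.mem_union, Submodule.mem_inf]
  constructor
  · intro h; exact ⟨fun i hi => h i (Or.inl hi), fun i hi => h i (Or.inr hi)⟩
  · rintro ⟨h1, h2⟩ i (hi | hi)
    · exact h1 i hi
    · exact h2 i hi

/-- `L` has dimension `m` and is in general position with respect to the coordinates in `S`. -/
def Gen (L : Submodule ℝ (ι → ℝ)) (S : Finset ι) (m : ℕ) : Prop :=
  ∀ Z ⊆ S, finrank ℝ ↥(L ⊓ vanish Z) = m - Z.card

theorem Gen.finrank {L : Submodule ℝ (ι → ℝ)} {S : Finset ι} {m : ℕ} (h : Gen L S m) :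
    finrank ℝ L = m := by
  have := h ∅ (Finset.empty_subset _)
  rw [vanish_empty, inf_top_eq] at this
  simpa using this

theorem Gen.mono {L : Submodule ℝ (ι → ℝ)} {S T : Finset ι} {m : ℕ} (h : Gen L S m)
    (hT : T ⊆ S) : Gen L T m := fun Z hZ => h Z (hZ.trans hT)

theorem Gen.contract {L : Submodule ℝ (ι → ℝ)} {S K T : Finset ι} {m : ℕ} (h : Gen L S m)
    (hK : K ⊆ S) (hT : T ⊆ S) (hd : Disjoint K T) : Gen (L ⊓ vanish K) T (m - K.card) := by
  intro Z hZ
  have h1 := h (K ∪ Z) (Finset.union_subset hK (hZ.trans hT))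
  rw [vanish_union, ← inf_assoc,
    Finset.card_union_of_disjoint (Finset.disjoint_of_subset_right hZ hd)] at h1
  rw [h1]
  omega

theorem Gen.contract_one {L : Submodule ℝ (ι → ℝ)} {S : Finset ι} {e : ι} {m : ℕ}
    (he : e ∉ S) (h : Gen L (insert e S) m) : Gen (L ⊓ vanish {e}) S (m - 1) := by
  have := h.contract (K := {e}) (T := S) (by simp) (Finset.subset_insert _ _)
    (Finset.disjoint_singleton_left.2 he)
  simpa using this

/-- Surjectivity of `L → ℝ^Z` for `|Z| ≤ m`. -/
theorem Gen.exists_ext {L : Submodule ℝ (ι → ℝ)} {S : Finset ι} {m : ℕ} (h : Gen L S m)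
    (η : ι → ℝ) : ∀ Z ⊆ S, Z.card ≤ m → ∃ y ∈ L, ∀ i ∈ Z, y i = η i := by
  intro Z
  induction Z using Finset.induction_on with
  | empty => intro _ _; exact ⟨0, L.zero_mem, by simp⟩
  | insert e Z he ih =>
    intro hZ hc
    rw [Finset.card_insert_of_notMem he] at hc
    obtain ⟨y, hy, hyZ⟩ := ih ((Finset.subset_insert _ _).trans hZ) (by omega)
    have h1 := h Z ((Finset.subset_insert _ _).trans hZ)
    have h2 := h (insert e Z) hZ
    rw [Finset.card_insert_of_notMem he] at h2
    have hne : ∃ z ∈ L ⊓ vanish Z, z e ≠ 0 := by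
      by_contra hcon
      push Not at hcon
      have hle : L ⊓ vanish Z ≤ L ⊓ vanish (insert e Z) := by
        intro z hz
        refine ⟨hz.1, ?_⟩
        rw [vanish_insert]
        exact ⟨by simpa using hcon z hz, hz.2⟩
      have := Submodule.finrank_mono hle
      omega
    obtain ⟨z, hz, hze⟩ := hne
    refine ⟨y + ((η e - y e) / z e) • z, L.add_mem hy (L.smul_mem _ hz.1), ?_⟩
    intro i hi
    rw [Finset.mem_insert] at hi
    rcases hi with rfl | hi
    · simp only [Pi.add_apply, Pi.smul_apply, smul_eq_mul]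
      field_simp
      ring
    · have := hz.2 i hi
      simp [this, hyZ i hi]

theorem Gen.eq_zero {L : Submodule ℝ (ι → ℝ)} {S : Finset ι} {m : ℕ} (h : Gen L S m)
    {Z : Finset ι} (hZ : Z ⊆ S) (hm : m ≤ Z.card) {x : ι → ℝ} (hx : x ∈ L)
    (hxZ : ∀ i ∈ Z, x i = 0) : x = 0 := by
  have h1 := h Z hZ
  rw [Nat.sub_eq_zero_of_le hm, Submodule.finrank_eq_zero] at h1
  have : x ∈ L ⊓ vanish Z := ⟨hx, hxZ⟩
  rw [h1] at this
  simpa using this

/-- The sign function of `A`. -/
def sg (A : Finset ι) (i : ι) : ℝ := if i ∈ A then 1 else -1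

theorem sg_mul_self (A : Finset ι) (i : ι) : sg A i * sg A i = 1 := by
  unfold sg; split_ifs <;> norm_num

theorem sg_ne_zero (A : Finset ι) (i : ι) : sg A i ≠ 0 := by
  unfold sg; split_ifs <;> norm_num

theorem sg_of_mem {A : Finset ι} {i : ι} (h : i ∈ A) : sg A i = 1 := if_pos h

theorem sg_of_notMem {A : Finset ι} {i : ι} (h : i ∉ A) : sg A i = -1 := if_neg h

theorem sg_insert_of_ne {A : Finset ι} {e i : ι} (h : i ≠ e) : sg (insert e A) i = sg A i := by
  unfold sg; simp [h]

theorem sg_inter {A J : Finset ι} {i : ι} (h : i ∈ J) : sg (A ∩ J) i = sg A i := by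
  unfold sg; simp [h]

/-- Some vector of `L` has the signs of `A` on `S`. -/
def Pos (L : Submodule ℝ (ι → ℝ)) (S A : Finset ι) : Prop :=
  ∃ x ∈ L, ∀ i ∈ S, 0 < sg A i * x i

theorem Pos.congr {L : Submodule ℝ (ι → ℝ)} {S A B : Finset ι} (h : ∀ i ∈ S, sg A i = sg B i) :
    Pos L S A ↔ Pos L S B := by
  constructor
  · rintro ⟨x, hx, h1⟩
    exact ⟨x, hx, fun i hi => by rw [← h i hi]; exact h1 i hi⟩
  · rintro ⟨x, hx, h1⟩
    exact ⟨x, hx, fun i hi => by rw [h i hi]; exact h1 i hi⟩

theorem Pos.mono {L : Submodule ℝ (ι → ℝ)} {S T A : Finset ι} (h : Pos L S A) (hT : T ⊆ S) :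
    Pos L T A := by
  obtain ⟨x, hx, h1⟩ := h
  exact ⟨x, hx, fun i hi => h1 i (hT hi)⟩

theorem small (S : Finset ι) (f g : ι → ℝ) (hf : ∀ i ∈ S, 0 < f i) :
    ∃ ε : ℝ, 0 < ε ∧ ∀ t : ℝ, |t| ≤ ε → ∀ i ∈ S, 0 < f i + t * g i := by
  induction S using Finset.induction_on with
  | empty => exact ⟨1, one_pos, by simp⟩
  | insert e S he ih =>
    obtain ⟨ε, hε, h⟩ := ih (fun i hi => hf i (Finset.mem_insert_of_mem hi))
    have hfe := hf e (Finset.mem_insert_self _ _)
    have hg : 0 < |g e| + 1 := by positivity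
    refine ⟨min ε (f e / 2 / (|g e| + 1)), lt_min hε (by positivity), ?_⟩
    intro t ht i hi
    rw [Finset.mem_insert] at hi
    rcases hi with rfl | hi
    · have h1 : |t| * (|g i| + 1) ≤ f i / 2 := by
        rw [← le_div_iff₀ hg]
        exact ht.trans (min_le_right _ _)
      have h2 : -(|t| * |g i|) ≤ t * g i := by
        rw [← abs_mul]; exact neg_abs_le _
      have h3 : |t| * |g i| ≤ |t| * (|g i| + 1) := by
        apply mul_le_mul_of_nonneg_left _ (abs_nonneg _); linarith
      linarith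
    · exact h t (ht.trans (min_le_left _ _)) i hi

/-- Perturbation: a nonzero weakly conformal vector gives a strictly conformal one. -/
theorem Gen.pos_of_weak {L : Submodule ℝ (ι → ℝ)} {S : Finset ι} {m : ℕ} (h : Gen L S m)
    {A : Finset ι} {x : ι → ℝ} (hx : x ∈ L) (hx0 : x ≠ 0) (hw : ∀ i ∈ S, 0 ≤ sg A i * x i) :
    Pos L S A := by
  classical
  set Z := S.filter (fun i => x i = 0) with hZ
  have hZS : Z ⊆ S := Finset.filter_subset _ _
  have hZm : Z.card < m := by
    by_contra hcon
    push Not at hcon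
    exact hx0 (h.eq_zero hZS hcon hx (fun i hi => (Finset.mem_filter.1 hi).2))
  obtain ⟨y, hy, hyZ⟩ := h.exists_ext (sg A) Z hZS hZm.le
  obtain ⟨ε, hε, h1⟩ := small (S \ Z) (fun i => sg A i * x i) (fun i => sg A i * y i) (by
    intro i hi
    rw [Finset.mem_sdiff, hZ, Finset.mem_filter] at hi
    push Not at hi
    exact lt_of_le_of_ne (hw i hi.1) (Ne.symm (mul_ne_zero (sg_ne_zero _ _) (hi.2 hi.1))))
  refine ⟨x + ε • y, L.add_mem hx (L.smul_mem _ hy), ?_⟩
  intro i hi
  by_cases hiZ : i ∈ Z
  · have h2 : x i = 0 := (Finset.mem_filter.1 hiZ).2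
    simp only [Pi.add_apply, Pi.smul_apply, smul_eq_mul, h2, hyZ i hiZ, zero_add]
    have := sg_mul_self A i
    nlinarith
  · have h2 := h1 ε (by rw [abs_of_pos hε]) i (Finset.mem_sdiff.2 ⟨hi, hiZ⟩)
    simp only [Pi.add_apply, Pi.smul_apply, smul_eq_mul]
    nlinarith

open Classical in
/-- The topes: sign vectors on `S` without zeros, represented by their positive parts. -/
noncomputable def topes (L : Submodule ℝ (ι → ℝ)) (S : Finset ι) : Finset (Finset ι) :=
  S.powerset.filter (Pos L S)

theorem mem_topes {L : Submodule ℝ (ι → ℝ)} {S A : Finset ι} :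
    A ∈ topes L S ↔ A ⊆ S ∧ Pos L S A := by
  simp [topes]

theorem Gen.pos_del {L : Submodule ℝ (ι → ℝ)} {S : Finset ι} {e : ι} {m : ℕ} (he : e ∉ S)
    (hm : 1 ≤ m) (h : Gen L (insert e S) m) {A : Finset ι} (hA : A ⊆ S) :
    Pos L S A ↔ Pos L (insert e S) A ∨ Pos L (insert e S) (insert e A) := by
  have heA : e ∉ A := fun h => he (hA h)
  constructor
  · rintro ⟨x, hx, h1⟩
    rcases lt_trichotomy (x e) 0 with hxe | hxe | hxe
    · left
      refine ⟨x, hx, ?_⟩
      intro i hi
      rw [Finset.mem_insert] at hi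
      rcases hi with rfl | hi
      · rw [sg_of_notMem heA]; linarith
      · exact h1 i hi
    · right
      obtain ⟨y, hy, hye⟩ := h.exists_ext (fun _ => 1) {e} (by simp) (by simpa using hm)
      have hye := hye e (by simp)
      obtain ⟨ε, hε, h2⟩ := small S (fun i => sg A i * x i) (fun i => sg A i * y i) h1
      refine ⟨x + ε • y, L.add_mem hx (L.smul_mem _ hy), ?_⟩
      intro i hi
      rw [Finset.mem_insert] at hi
      rcases hi with rfl | hi
      · rw [sg_of_mem (Finset.mem_insert_self _ _)]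
        simp [hxe, hye, hε]
      · have hie : i ≠ e := fun h => he (h ▸ hi)
        rw [sg_insert_of_ne hie]
        have := h2 ε (by rw [abs_of_pos hε]) i hi
        simp only [Pi.add_apply, Pi.smul_apply, smul_eq_mul]
        nlinarith
    · right
      refine ⟨x, hx, ?_⟩
      intro i hi
      rw [Finset.mem_insert] at hi
      rcases hi with rfl | hi
      · rw [sg_of_mem (Finset.mem_insert_self _ _)]; linarith
      · have hie : i ≠ e := fun h => he (h ▸ hi)
        rw [sg_insert_of_ne hie]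
        exact h1 i hi
  · rintro (h1 | h1)
    · exact h1.mono (Finset.subset_insert _ _)
    · refine (Pos.congr ?_).1 (h1.mono (Finset.subset_insert _ _))
      intro i hi
      exact sg_insert_of_ne (fun h => he (h ▸ hi))

theorem Gen.pos_con {L : Submodule ℝ (ι → ℝ)} {S : Finset ι} {e : ι} {m : ℕ} (he : e ∉ S)
    (hm : 1 ≤ m) (h : Gen L (insert e S) m) {A : Finset ι} (hA : A ⊆ S) :
    Pos (L ⊓ vanish {e}) S A ↔ Pos L (insert e S) A ∧ Pos L (insert e S) (insert e A) := by
  have heA : e ∉ A := fun h => he (hA h)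
  constructor
  · rintro ⟨x, hx, h1⟩
    have hxe : x e = 0 := hx.2 e (by simp)
    obtain ⟨y, hy, hye⟩ := h.exists_ext (fun _ => 1) {e} (by simp) (by simpa using hm)
    have hye := hye e (by simp)
    obtain ⟨ε, hε, h2⟩ := small S (fun i => sg A i * x i) (fun i => sg A i * y i) h1
    constructor
    · refine ⟨x + (-ε) • y, L.add_mem hx.1 (L.smul_mem _ hy), ?_⟩
      intro i hi
      rw [Finset.mem_insert] at hi
      rcases hi with rfl | hi
      · rw [sg_of_notMem heA]
        simp [hxe, hye, hε]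
      · have := h2 (-ε) (by rw [abs_neg, abs_of_pos hε]) i hi
        simp only [Pi.add_apply, Pi.smul_apply, smul_eq_mul]
        nlinarith
    · refine ⟨x + ε • y, L.add_mem hx.1 (L.smul_mem _ hy), ?_⟩
      intro i hi
      rw [Finset.mem_insert] at hi
      rcases hi with rfl | hi
      · rw [sg_of_mem (Finset.mem_insert_self _ _)]
        simp [hxe, hye, hε]
      · have hie : i ≠ e := fun h => he (h ▸ hi)
        rw [sg_insert_of_ne hie]
        have := h2 ε (by rw [abs_of_pos hε]) i hi
        simp only [Pi.add_apply, Pi.smul_apply, smul_eq_mul]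
        nlinarith
  · rintro ⟨⟨x, hx, h1⟩, ⟨y, hy, h2⟩⟩
    have hxe : x e < 0 := by
      have := h1 e (Finset.mem_insert_self _ _)
      rw [sg_of_notMem heA] at this; linarith
    have hye : 0 < y e := by
      have := h2 e (Finset.mem_insert_self _ _)
      rw [sg_of_mem (Finset.mem_insert_self _ _)] at this; linarith
    refine ⟨y e • x + (-x e) • y, ⟨L.add_mem (L.smul_mem _ hx) (L.smul_mem _ hy), ?_⟩, ?_⟩
    · intro i hi
      rw [Finset.mem_singleton] at hi
      subst hi
      simp only [Pi.add_apply, Pi.smul_apply, smul_eq_mul]; ring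
    · intro i hi
      have hie : i ≠ e := fun h => he (h ▸ hi)
      have h3 := h1 i (Finset.mem_insert_of_mem hi)
      have h4 := h2 i (Finset.mem_insert_of_mem hi)
      rw [sg_insert_of_ne hie] at h4
      simp only [Pi.add_apply, Pi.smul_apply, smul_eq_mul]
      have h5 := mul_pos hye h3
      have h6 := mul_pos (neg_pos.2 hxe) h4
      nlinarith

/-- Deletion and contraction for sums over topes. -/
theorem Gen.sum_topes {L : Submodule ℝ (ι → ℝ)} {S : Finset ι} {e : ι} {m : ℕ} (he : e ∉ S)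
    (hm : 1 ≤ m) (h : Gen L (insert e S) m) (w : Finset ι → ℝ)
    (hw : ∀ A ⊆ S, w (insert e A) = w A) :
    ∑ A ∈ topes L (insert e S), w A =
      ∑ A ∈ topes L S, w A + ∑ A ∈ topes (L ⊓ vanish {e}) S, w A := by
  classical
  unfold topes
  simp only [Finset.sum_filter]
  rw [Finset.sum_powerset_insert he, ← Finset.sum_add_distrib, ← Finset.sum_add_distrib]
  apply Finset.sum_congr rfl
  intro A hA
  rw [Finset.mem_powerset] at hA
  have h1 := h.pos_del he hm hA
  have h2 := h.pos_con he hm hA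
  rw [hw A hA]
  by_cases ha : Pos L (insert e S) A <;> by_cases hb : Pos L (insert e S) (insert e A)
  · rw [if_pos ha, if_pos hb, if_pos (h1.2 (Or.inl ha)), if_pos (h2.2 ⟨ha, hb⟩)]
  · rw [if_pos ha, if_neg hb, if_pos (h1.2 (Or.inl ha)), if_neg (fun h => hb (h2.1 h).2)]
  · rw [if_neg ha, if_pos hb, if_pos (h1.2 (Or.inr hb)), if_neg (fun h => ha (h2.1 h).1)]
    ring
  · rw [if_neg ha, if_neg hb, if_neg (fun h => (h1.1 h).elim ha hb),
      if_neg (fun h => ha (h2.1 h).1)]

theorem topes_eq_empty {L : Submodule ℝ (ι → ℝ)} {S : Finset ι} (h : Gen L S 0)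
    (hS : S.Nonempty) : topes L S = ∅ := by
  classical
  rw [Finset.eq_empty_iff_forall_notMem]
  intro A hA
  obtain ⟨-, x, hx, h1⟩ := mem_topes.1 hA
  obtain ⟨i, hi⟩ := hS
  have := h1 i hi
  have hx0 : x = 0 := h.eq_zero (Finset.empty_subset _) (by simp) hx (by simp)
  rw [hx0] at this
  simp at this

theorem topes_eq_powerset {L : Submodule ℝ (ι → ℝ)} {S : Finset ι} {m : ℕ} (h : Gen L S m)
    (hS : S.card ≤ m) : topes L S = S.powerset := by
  classical
  ext A
  rw [mem_topes, Finset.mem_powerset]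
  refine ⟨fun h => h.1, fun hA => ⟨hA, ?_⟩⟩
  obtain ⟨y, hy, h1⟩ := h.exists_ext (sg A) S subset_rfl hS
  refine ⟨y, hy, fun i hi => ?_⟩
  rw [h1 i hi, sg_mul_self]
  exact one_pos

/-- The number of topes. -/
theorem card_topes {S : Finset ι} (hS : S.Nonempty) :
    ∀ {L : Submodule ℝ (ι → ℝ)} {m : ℕ}, Gen L S m →
    ((topes L S).card : ℝ) = 2 * ∑ j ∈ range m, ((S.card - 1).choose j : ℝ) := by
  classical
  induction hS using Finset.Nonempty.cons_induction with
  | singleton a =>
    intro L m h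
    rcases Nat.eq_zero_or_pos m with rfl | hm
    · rw [topes_eq_empty h (by simp)]; simp
    · rw [topes_eq_powerset h (by rw [Finset.card_singleton]; exact hm)]
      obtain ⟨k, rfl⟩ : ∃ k, m = k + 1 := ⟨m - 1, by omega⟩
      rw [Finset.sum_range_succ']
      simp [Nat.choose_eq_zero_of_lt]
  | cons a S ha hS ih =>
    intro L m h
    rw [Finset.cons_eq_insert] at h ⊢
    rcases Nat.eq_zero_or_pos m with rfl | hm
    · rw [topes_eq_empty h (by simp)]; simp
    · have h1 := h.sum_topes ha hm (fun _ => 1) (fun _ _ => rfl)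
      simp only [Finset.sum_const, nsmul_eq_mul, mul_one] at h1
      rw [h1, ih (h.mono (Finset.subset_insert _ _)), ih (h.contract_one ha),
        Finset.card_insert_of_notMem ha]
      obtain ⟨k, rfl⟩ : ∃ k, m = k + 1 := ⟨m - 1, by omega⟩
      obtain ⟨n, hn⟩ : ∃ n, S.card = n + 1 := ⟨S.card - 1, by
        have := Finset.card_pos.2 hS; omega⟩
      rw [hn]
      simp only [Nat.add_sub_cancel]
      rw [Finset.sum_range_succ' (fun j => ((n + 1).choose j : ℝ)),
        Finset.sum_range_succ' (fun j => (n.choose j : ℝ))]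
      simp only [Nat.choose_succ_succ, Nat.cast_add, Finset.sum_add_distrib, Nat.choose_zero_right]
      push_cast
      ring

/-- Sums of functions of `A ∩ J`. -/
theorem sum_restrict {J : Finset ι} (hJ : J.Nonempty) (w : Finset ι → ℝ) (T : Finset ι) :
    Disjoint J T → ∀ {L : Submodule ℝ (ι → ℝ)} {m : ℕ}, Gen L (J ∪ T) m →
    ∑ A ∈ topes L (J ∪ T), w (A ∩ J) =
      ∑ K ∈ T.powerset, ∑ A ∈ topes (L ⊓ vanish K) J, w A := by
  classical
  induction T using Finset.induction_on with
  | empty =>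
    intro _ L m h
    rw [Finset.union_empty, Finset.powerset_empty, Finset.sum_singleton, vanish_empty, inf_top_eq]
    apply Finset.sum_congr rfl
    intro A hA
    rw [Finset.inter_eq_left.2 (mem_topes.1 hA).1]
  | insert e T he ih =>
    intro hd L m h
    have heJ : e ∉ J := fun h' => (Finset.disjoint_left.1 hd h') (Finset.mem_insert_self _ _)
    have hd' : Disjoint J T := Finset.disjoint_of_subset_right (Finset.subset_insert _ _) hd
    have heJT : e ∉ J ∪ T := by simp [heJ, he]
    rw [Finset.union_insert] at h ⊢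
    rcases Nat.eq_zero_or_pos m with rfl | hm
    · rw [topes_eq_empty h (by simp)]
      rw [Finset.sum_empty]
      symm
      apply Finset.sum_eq_zero
      intro K hK
      rw [Finset.mem_powerset] at hK
      have h1 : Gen (L ⊓ vanish K) J (0 - K.card) :=
        h.contract (hK.trans (by
          intro i hi; rw [Finset.mem_insert] at hi
          rcases hi with rfl | hi
          · simp
          · simp [hi]))
          (by intro i hi; simp [hi])
          (Finset.disjoint_of_subset_left hK hd.symm)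
      rw [Nat.zero_sub] at h1
      rw [topes_eq_empty h1 hJ, Finset.sum_empty]
    · rw [h.sum_topes heJT hm (fun A => w (A ∩ J))
        (fun A _ => by rw [Finset.insert_inter_of_notMem heJ]),
        ih hd' (h.mono (Finset.subset_insert _ _)), ih hd' (h.contract_one heJT),
        Finset.sum_powerset_insert he]
      congr 1
      apply Finset.sum_congr rfl
      intro K _
      rw [vanish_insert, inf_assoc]

/-- The identity for pairs of coordinates. -/
theorem Gen.pair {L : Submodule ℝ (ι → ℝ)} {S : Finset ι} {m : ℕ} (h : Gen L S (m + 1))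
    {f g : ι} (hf : f ∈ S) (hg : g ∈ S) (hfg : f ≠ g) :
    ∑ A ∈ topes L S, sg A f * sg A g =
      ∑ K ∈ (S \ {f, g}).powersetCard m, ∑ A ∈ topes (L ⊓ vanish K) {f, g}, sg A f * sg A g := by
  classical
  set J : Finset ι := {f, g} with hJdef
  have hJS : J ⊆ S := by
    intro i hi
    rw [hJdef, Finset.mem_insert, Finset.mem_singleton] at hi
    rcases hi with rfl | rfl <;> assumption
  have hJ : J.Nonempty := ⟨f, by simp [hJdef]⟩
  have hfJ : f ∈ J := by simp [hJdef]
  have hgJ : g ∈ J := by simp [hJdef]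
  have hJT : J ∪ (S \ J) = S := Finset.union_sdiff_of_subset hJS
  have hJc : J.card = 2 := Finset.card_pair hfg
  have h1 := sum_restrict hJ (fun A => sg A f * sg A g) (S \ J) Finset.disjoint_sdiff
    (L := L) (m := m + 1) (by rw [hJT]; exact h)
  rw [hJT] at h1
  simp only [sg_inter hfJ, sg_inter hgJ] at h1
  rw [h1]
  have hsub : (S \ J).powersetCard m ⊆ (S \ J).powerset := by
    intro K hK
    rw [Finset.mem_powersetCard] at hK
    rw [Finset.mem_powerset]; exact hK.1
  symm
  apply Finset.sum_subset hsub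
  intro K hK hK'
  rw [Finset.mem_powerset] at hK
  rw [Finset.mem_powersetCard] at hK'
  have hKm : K.card ≠ m := fun h' => hK' ⟨hK, h'⟩
  have hG : Gen (L ⊓ vanish K) J (m + 1 - K.card) :=
    h.contract (hK.trans Finset.sdiff_subset) hJS
      (Finset.disjoint_of_subset_left hK Finset.sdiff_disjoint)
  rcases lt_or_gt_of_ne hKm with hlt | hgt
  · rw [topes_eq_powerset hG (by rw [hJc]; omega), hJdef]
    rw [Finset.sum_powerset_insert (by simpa using hfg)]
    rw [← Finset.sum_add_distrib]
    apply Finset.sum_eq_zero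
    intro A hA
    rw [Finset.mem_powerset, Finset.subset_singleton_iff] at hA
    have hfA : f ∉ A := by
      rcases hA with rfl | rfl
      · simp
      · simpa using hfg
    rw [sg_of_notMem hfA, sg_of_mem (Finset.mem_insert_self f A), sg_insert_of_ne hfg.symm]
    ring
  · have h0 : m + 1 - K.card = 0 := by omega
    rw [h0] at hG
    rw [topes_eq_empty hG hJ, Finset.sum_empty]

/-- The identity for pairs of coordinates, in terms of circuits. -/
theorem Gen.pair' {L : Submodule ℝ (ι → ℝ)} {S : Finset ι} {m : ℕ} (h : Gen L S (m + 1))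
    {f g : ι} (hf : f ∈ S) (hg : g ∈ S) (hfg : f ≠ g) :
    ∑ A ∈ topes L S, sg A f * sg A g =
      ∑ K ∈ (S \ {f, g}).powersetCard m,
        ∑ A ∈ topes (L ⊓ vanish K) (S \ K), sg A f * sg A g := by
  classical
  rw [h.pair hf hg hfg]
  apply Finset.sum_congr rfl
  intro K hK
  rw [Finset.mem_powersetCard] at hK
  have hfK : f ∉ K := fun h' => by have := hK.1 h'; simp at this
  have hgK : g ∉ K := fun h' => by have := hK.1 h'; simp at this
  have hG : Gen (L ⊓ vanish K) (S \ K) (0 + 1) := by
    have := h.contract (K := K) (T := S \ K) (hK.1.trans Finset.sdiff_subset)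
      Finset.sdiff_subset Finset.disjoint_sdiff
    rwa [hK.2, Nat.add_sub_cancel_left] at this
  rw [hG.pair (Finset.mem_sdiff.2 ⟨hf, hfK⟩) (Finset.mem_sdiff.2 ⟨hg, hgK⟩) hfg]
  rw [Finset.powersetCard_zero, Finset.sum_singleton, vanish_empty, inf_top_eq]

theorem sum_sq_sub (S A : Finset ι) :
    (∑ i ∈ S, sg A i) ^ 2 - S.card = ∑ f ∈ S, ∑ g ∈ S.erase f, sg A f * sg A g := by
  classical
  rw [sq, Finset.sum_mul]
  have h1 : ∀ f ∈ S, sg A f * ∑ i ∈ S, sg A i = 1 + ∑ g ∈ S.erase f, sg A f * sg A g := by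
    intro f hf
    rw [← Finset.add_sum_erase S _ hf, mul_add, sg_mul_self, Finset.mul_sum]
  rw [Finset.sum_congr rfl h1, Finset.sum_add_distrib]
  simp

/-- The quadratic relation between topes and circuits. -/
theorem Gen.quad {L : Submodule ℝ (ι → ℝ)} {S : Finset ι} {m : ℕ} (h : Gen L S (m + 1)) :
    ∑ A ∈ topes L S, ((∑ i ∈ S, sg A i) ^ 2 - S.card) =
      ∑ K ∈ S.powersetCard m, ∑ A ∈ topes (L ⊓ vanish K) (S \ K),
        ((∑ i ∈ S \ K, sg A i) ^ 2 - (S \ K).card) := by
  classical
  simp only [sum_sq_sub]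
  rw [Finset.sum_comm]
  have h1 : ∀ f ∈ S, ∑ A ∈ topes L S, ∑ g ∈ S.erase f, sg A f * sg A g =
      ∑ g ∈ S.erase f, ∑ K ∈ (S \ {f, g}).powersetCard m,
        ∑ A ∈ topes (L ⊓ vanish K) (S \ K), sg A f * sg A g := by
    intro f hf
    rw [Finset.sum_comm]
    apply Finset.sum_congr rfl
    intro g hg
    rw [Finset.mem_erase] at hg
    exact h.pair' hf hg.2 (Ne.symm hg.1)
  rw [Finset.sum_congr rfl h1]
  -- both sides are sums over `f, g, K, A`
  have h2 : ∀ K ∈ S.powersetCard m, ∑ A ∈ topes (L ⊓ vanish K) (S \ K),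
      ∑ f ∈ S \ K, ∑ g ∈ (S \ K).erase f, sg A f * sg A g =
      ∑ f ∈ S, ∑ g ∈ S.erase f, if f ∉ K ∧ g ∉ K then
        ∑ A ∈ topes (L ⊓ vanish K) (S \ K), sg A f * sg A g else 0 := by
    intro K hK
    rw [Finset.sum_comm, ← Finset.sum_filter_add_sum_filter_not S (fun f => f ∉ K)]
    have e1 : S.filter (fun f => f ∉ K) = S \ K := by ext i; simp
    rw [e1]
    have e2 : ∑ f ∈ S.filter (fun f => ¬ f ∉ K), ∑ g ∈ S.erase f,
        (if f ∉ K ∧ g ∉ K then
        ∑ A ∈ topes (L ⊓ vanish K) (S \ K), sg A f * sg A g else 0) = 0 := by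
      apply Finset.sum_eq_zero
      intro f hf
      apply Finset.sum_eq_zero
      intro g _
      rw [if_neg]
      intro h'
      exact (Finset.mem_filter.1 hf).2 h'.1
    rw [e2, add_zero]
    apply Finset.sum_congr rfl
    intro f hf
    rw [Finset.mem_sdiff] at hf
    rw [Finset.sum_comm, ← Finset.sum_filter_add_sum_filter_not (S.erase f) (fun g => g ∉ K)]
    have e3 : (S.erase f).filter (fun g => g ∉ K) = (S \ K).erase f := by
      ext i; simp only [Finset.mem_filter, Finset.mem_erase, Finset.mem_sdiff]; tauto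
    rw [e3]
    have e4 : ∑ g ∈ (S.erase f).filter (fun g => ¬ g ∉ K),
        (if f ∉ K ∧ g ∉ K then
        ∑ A ∈ topes (L ⊓ vanish K) (S \ K), sg A f * sg A g else 0) = 0 := by
      apply Finset.sum_eq_zero
      intro g hg
      rw [if_neg]
      intro h'
      exact (Finset.mem_filter.1 hg).2 h'.2
    rw [e4, add_zero]
    apply Finset.sum_congr rfl
    intro g hg
    rw [if_pos ⟨hf.2, (Finset.mem_sdiff.1 (Finset.mem_of_mem_erase hg)).2⟩]
  rw [Finset.sum_congr rfl h2, Finset.sum_comm]
  apply Finset.sum_congr rfl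
  intro f hf
  rw [Finset.sum_comm]
  apply Finset.sum_congr rfl
  intro g hg
  rw [← Finset.sum_filter]
  apply Finset.sum_congr _ (fun _ _ => rfl)
  ext K
  simp only [Finset.mem_powersetCard, Finset.mem_filter]
  constructor
  · rintro ⟨h3, h4⟩
    refine ⟨⟨h3.trans Finset.sdiff_subset, h4⟩, ?_, ?_⟩
    · intro h'; have := h3 h'; simp at this
    · intro h'; have := h3 h'; simp at this
  · rintro ⟨⟨h3, h4⟩, h5, h6⟩
    refine ⟨?_, h4⟩
    intro i hi
    rw [Finset.mem_sdiff]
    refine ⟨h3 hi, ?_⟩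
    rw [Finset.mem_insert, Finset.mem_singleton]
    rintro (rfl | rfl)
    · exact h5 hi
    · exact h6 hi

end Pool.Agent.U280.Radon
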