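import Pool.Agent.U280.Radon.DimOne
import Pool.Agent.U280.Radon.Diff
import Pool.Agent.U280.Radon.Conf
import Pool.Agent.U280.Radon.FE

/-!
The affine hull of the vectors `(r(S), P(S))`.
-/

set_option autoImplicit false
set_option linter.unusedSectionVars false
set_option linter.unusedVariables false
set_option linter.unusedSimpArgs false

namespace Pool.Agent.U280.Radon

open Finset Module

theorem coord_eq {n : ℕ} (F : ℕ → ℝ) {i : ℕ} (hi : i ∈ Icc 1 n) :
    coord (fun j : Fin n => F (j + 1)) i = F i := by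
  rw [Finset.mem_Icc] at hi
  unfold coord
  rw [dif_pos hi]
  simp only
  congr 1
  omega

theorem coord_zero {n : ℕ} (f : Fin n → ℝ) : coord f 0 = 0 := by
  unfold coord
  rw [dif_neg]
  omega

theorem coord_lin {n : ℕ} (f g h : Fin n → ℝ) (c : ℝ) (i : ℕ) :
    coord (c • (f - g) + h) i = c * (coord f i - coord g i) + coord h i := by
  unfold coord
  split_ifs
  · simp
  · simp

theorem system_of_family {d : ℕ} {ι : Type*} [Fintype ι] [DecidableEq ι]
    {x : ι ↪ (Fin d → ℝ)} (h : GP x) {m : ℕ} (hm : Fintype.card ι = d + 1 + (m + 1))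
    {r P : ℕ → ℝ} (hr : ∀ i ∈ Icc 1 (Fintype.card ι / 2), r i = radonNum (univ.map x) i)
    (hP : ∀ i ∈ Icc 1 (d / 2 + 1), P i = primNum (univ.map x) i) (hP0 : P 0 = 0) :
    System d (Fintype.card ι) r P := by
  classical
  have h1 := rel_one h hm
  rw [← Finset.sum_congr rfl hP] at h1
  refine ⟨?_, ?_, ?_, ?_⟩
  · intro hd
    subst hd
    refine ⟨?_, ?_⟩
    · intro i hi
      rw [hr i hi]
      exact rel_dim1 h (m := m + 1) (by omega) hi
    · simpa using h1
  · intro hd hs
    obtain rfl : m = 0 := by omega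
    have e : (d + 2) / 2 = d / 2 + 1 := by omega
    refine ⟨?_, ?_⟩
    · intro i hi
      rw [hr i hi, rel_zero h hm i hi, hP i]
      rwa [hs, e] at hi
    · rw [h1, hs]; simp
  · intro hd hs
    obtain rfl : m = 1 := by omega
    refine ⟨?_, h1⟩
    intro i hi
    have h2 := rel_dual h hm i hi
    rw [hs] at h2 hi
    rw [← dual_explicit hP0 hi, hr i (by rwa [hs]), h2]
    apply Finset.sum_congr rfl
    intro j hj
    rw [hP j hj]
  · intro hd hs
    refine ⟨h1, ?_, ?_, ?_⟩
    · rw [Finset.sum_congr rfl hr]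
      exact rel_two h hm
    · have h3 := rel_three h hm
      have e1 : ∑ i ∈ Icc 1 (Fintype.card ι / 2),
          (((Fintype.card ι : ℝ) - 2 * i) ^ 2 - Fintype.card ι) * r i =
          ∑ i ∈ Icc 1 (Fintype.card ι / 2),
          (((Fintype.card ι : ℝ) - 2 * i) ^ 2 - Fintype.card ι) *
            (radonNum (univ.map x) i : ℝ) :=
        Finset.sum_congr rfl (fun i hi => by rw [hr i hi])
      have e2 : ∑ i ∈ Icc 1 (d / 2 + 1), (((d : ℝ) + 2 - 2 * i) ^ 2 - (d + 2)) * P i =
          ∑ i ∈ Icc 1 (d / 2 + 1), (((d : ℝ) + 2 - 2 * i) ^ 2 - (d + 2)) *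
            (primNum (univ.map x) i : ℝ) :=
        Finset.sum_congr rfl (fun i hi => by rw [hP i hi])
      rw [e1, e2]
      exact h3
    · intro hd' hs'
      rw [Finset.sum_congr rfl (fun i hi => by rw [hr i hi])]
      exact rel_four h hm hd' hs'

theorem system_of_mem {d s : ℕ} (hs : d + 2 ≤ s)
    {v : (Fin (s / 2) → ℝ) × (Fin (d / 2 + 1) → ℝ)} (hv : v ∈ V d s) :
    System d s (coord v.1) (coord v.2) := by
  classical
  obtain ⟨S, hc, hS, rfl⟩ := hv
  subst hc
  obtain ⟨m, hm⟩ : ∃ m, S.card = d + 1 + (m + 1) := ⟨S.card - (d + 2), by omega⟩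
  have hgp := hS.gp (by omega)
  set x : S ↪ (Fin d → ℝ) := Function.Embedding.subtype _ with hx
  have hmap : (univ : Finset S).map x = S := by
    ext y
    simp [hx]
  have hcard : Fintype.card S = S.card := Fintype.card_coe S
  have key := system_of_family (x := x) hgp (m := m) (by rw [hcard, hm])
    (r := coord (fun i : Fin (S.card / 2) => (radonNum S (i + 1) : ℝ)))
    (P := coord (fun i : Fin (d / 2 + 1) => (primNum S (i + 1) : ℝ)))
    (by
      intro i hi
      rw [hcard] at hi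
      rw [coord_eq (fun j => (radonNum S j : ℝ)) hi, hmap])
    (by
      intro i hi
      rw [coord_eq (fun j => (primNum S j : ℝ)) hi, hmap])
    (coord_zero _)
  rw [hcard] at key
  exact key

theorem sum_lin (I : Finset ℕ) (γ a b e : ℕ → ℝ) (c : ℝ) :
    ∑ i ∈ I, γ i * (c * (a i - b i) + e i) =
      c * (∑ i ∈ I, γ i * a i - ∑ i ∈ I, γ i * b i) + ∑ i ∈ I, γ i * e i := by
  rw [← Finset.sum_sub_distrib, Finset.mul_sum, ← Finset.sum_add_distrib]
  apply Finset.sum_congr rfl
  intro i _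
  ring

theorem sum_lin' (I : Finset ℕ) (a b e : ℕ → ℝ) (c : ℝ) :
    ∑ i ∈ I, (c * (a i - b i) + e i) =
      c * (∑ i ∈ I, a i - ∑ i ∈ I, b i) + ∑ i ∈ I, e i := by
  have := sum_lin I (fun _ => 1) a b e c
  simpa only [one_mul] using this

theorem System.lin {d s : ℕ} {r P r' P' r'' P'' : ℕ → ℝ} (h : System d s r P)
    (h' : System d s r' P') (h'' : System d s r'' P'') (c : ℝ) :
    System d s (fun i => c * (r i - r' i) + r'' i) (fun i => c * (P i - P' i) + P'' i) := by
  obtain ⟨h1, h2, h3, h4⟩ := h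
  obtain ⟨h1', h2', h3', h4'⟩ := h'
  obtain ⟨h1'', h2'', h3'', h4''⟩ := h''
  refine ⟨?_, ?_, ?_, ?_⟩
  · intro hd
    obtain ⟨a1, a2⟩ := h1 hd
    obtain ⟨b1, b2⟩ := h1' hd
    obtain ⟨c1, c2⟩ := h1'' hd
    refine ⟨?_, ?_⟩
    · intro i hi
      simp only
      rw [a1 i hi, b1 i hi, c1 i hi]
      ring
    · simp only
      rw [a2, b2, c2]
      ring
  · intro hd hs
    obtain ⟨a1, a2⟩ := h2 hd hs
    obtain ⟨b1, b2⟩ := h2' hd hs
    obtain ⟨c1, c2⟩ := h2'' hd hs
    refine ⟨?_, ?_⟩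
    · intro i hi
      simp only
      rw [a1 i hi, b1 i hi, c1 i hi]
    · simp only
      rw [sum_lin', a2, b2, c2]
      ring
  · intro hd hs
    obtain ⟨a1, a2⟩ := h3 hd hs
    obtain ⟨b1, b2⟩ := h3' hd hs
    obtain ⟨c1, c2⟩ := h3'' hd hs
    refine ⟨?_, ?_⟩
    · intro i hi
      have a := a1 i hi
      have b := b1 i hi
      have c' := c1 i hi
      simp only
      linear_combination c * a - c * b + c'
    · simp only
      rw [sum_lin', a2, b2, c2]
      ring
  · intro hd hs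
    obtain ⟨a1, a2, a3, a4⟩ := h4 hd hs
    obtain ⟨b1, b2, b3, b4⟩ := h4' hd hs
    obtain ⟨c1, c2, c3, c4⟩ := h4'' hd hs
    refine ⟨?_, ?_, ?_, ?_⟩
    · simp only
      rw [sum_lin', a1, b1, c1]
      ring
    · simp only
      rw [sum_lin', a2, b2, c2]
      ring
    · simp only
      rw [sum_lin, sum_lin, a3, b3, c3]
    · intro hd' hs'
      simp only
      rw [sum_lin, a4 hd' hs', b4 hd' hs', c4 hd' hs']
      ring

/-- The symmetric extension of a function on `{1, …, n / 2}`. -/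
def ext (n : ℕ) (α : ℕ → ℝ) (j : ℕ) : ℝ := α (min j (n - j))

theorem ext_of_le {n j : ℕ} (α : ℕ → ℝ) (h : 2 * j ≤ n) : ext n α j = α j := by
  unfold ext
  rw [min_eq_left (by omega)]

theorem ext_symm {n j : ℕ} (α : ℕ → ℝ) (h : j ≤ n) : ext n α j = ext n α (n - j) := by
  unfold ext
  congr 1
  omega

/-- The value of a functional which satisfies the functional equation is determined
by the system. -/
theorem value_eq {d s m : ℕ} (hd : 1 ≤ d) (hm : s = d + 1 + (m + 1)) {α β : ℕ → ℝ}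
    (hFE : FE d (m + 1) (ext s α) (ext (d + 2) β)) {r P r' P' : ℕ → ℝ}
    (h : System d s r P) (h' : System d s r' P') (hP0 : P 0 = 0) (hP0' : P' 0 = 0) :
    ∑ i ∈ Icc 1 (s / 2), α i * r i + ∑ i ∈ Icc 1 (d / 2 + 1), β i * P i =
      ∑ i ∈ Icc 1 (s / 2), α i * r' i + ∑ i ∈ Icc 1 (d / 2 + 1), β i * P' i := by
  classical
  rcases Nat.lt_or_ge d 2 with hd2 | hd2
  · -- dimension one
    obtain rfl : d = 1 := by omega
    obtain ⟨a1, a2⟩ := h.1 rfl
    obtain ⟨b1, b2⟩ := h'.1 rfl
    congr 1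
    · apply Finset.sum_congr rfl
      intro i hi
      rw [a1 i hi, b1 i hi]
    · have e : 1 / 2 + 1 = 1 := by norm_num
      rw [e, Finset.Icc_self, Finset.sum_singleton, Finset.sum_singleton, a2, b2]
  rcases Nat.lt_or_ge s (d + 3) with hs | hs
  · -- `s = d + 2`
    obtain rfl : m = 0 := by omega
    have hs' : s = d + 2 := by omega
    have e : (d + 2) / 2 = d / 2 + 1 := by omega
    have h1 := fe_one hFE
    have key : ∀ r P : ℕ → ℝ, System d s r P →
        ∑ i ∈ Icc 1 (s / 2), α i * r i + ∑ i ∈ Icc 1 (d / 2 + 1), β i * P i =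
          ext s α 1 + ext (d + 2) β 1 := by
      intro r P h
      obtain ⟨a1, a2⟩ := h.2.1 hd2 hs'
      rw [hs', e] at a1
      have e2 : s / 2 = d / 2 + 1 := by omega
      rw [e2, ← Finset.sum_add_distrib]
      have e3 : ∀ i ∈ Icc 1 (d / 2 + 1), α i * r i + β i * P i =
          (ext s α 1 + ext (d + 2) β 1) * P i := by
        intro i hi
        rw [a1 i hi]
        rw [Finset.mem_Icc] at hi
        have h2 := h1 i hi.1 (by omega)
        rw [ext_of_le α (by omega : 2 * i ≤ s), ext_of_le β (by omega : 2 * i ≤ d + 2)] at h2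
        rw [← h2]; ring
      rw [Finset.sum_congr rfl e3, ← Finset.mul_sum, a2, mul_one]
    rw [key r P h, key r' P' h']
  rcases Nat.lt_or_ge s (d + 4) with hs4 | hs4
  · -- `s = d + 3`
    obtain rfl : m = 1 := by omega
    have hs' : s = d + 3 := by omega
    have h1 := fe_two hFE
    set κ := ext (d + 2) β 1 + (ext s α 1 + ext s α 2) / 2 with hκ
    have key : ∀ r P : ℕ → ℝ, System d s r P → P 0 = 0 →
        ∑ i ∈ Icc 1 (s / 2), α i * r i + ∑ i ∈ Icc 1 (d / 2 + 1), β i * P i =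
          κ * (s.choose (d + 2) : ℝ) := by
      intro r P h hP0
      obtain ⟨a1, a2⟩ := h.2.2.1 hd2 hs'
      have e1 : 2 * ∑ i ∈ Icc 1 (s / 2), α i * r i =
          ∑ j ∈ Icc 1 (d / 2 + 1), (ext s α j + ext s α (j + 1)) * P j := by
        rw [Finset.mul_sum]
        have e2 : ∀ i ∈ Icc 1 (s / 2), 2 * (α i * r i) = ∑ j ∈ Icc 1 (d / 2 + 1),
            α i * (((if min j (s - j) = i then 1 else 0) +
              (if min (j + 1) (s - (j + 1)) = i then 1 else 0)) * P j) := by
          intro i hi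
          have e3 := a1 i hi
          have hi' := hi
          rw [hs'] at hi'
          rw [← dual_explicit hP0 hi', ← hs'] at e3
          rw [← Finset.mul_sum, ← e3]
          ring
        rw [Finset.sum_congr rfl e2, Finset.sum_comm]
        apply Finset.sum_congr rfl
        intro j hj
        rw [Finset.mem_Icc] at hj
        have e4 : ∀ i ∈ Icc 1 (s / 2), α i * (((if min j (s - j) = i then 1 else 0) +
              (if min (j + 1) (s - (j + 1)) = i then 1 else 0)) * P j) =
            (if min j (s - j) = i then α i * P j else 0) +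
              (if min (j + 1) (s - (j + 1)) = i then α i * P j else 0) := by
          intro i _
          split_ifs <;> ring
        rw [Finset.sum_congr rfl e4, Finset.sum_add_distrib, Finset.sum_ite_eq, Finset.sum_ite_eq,
          if_pos (by rw [Finset.mem_Icc]; omega), if_pos (by rw [Finset.mem_Icc]; omega)]
        unfold ext
        ring
      have e5 : ∑ j ∈ Icc 1 (d / 2 + 1), κ * P j =
          ∑ j ∈ Icc 1 (d / 2 + 1), ((ext s α j + ext s α (j + 1)) * P j) / 2 +
            ∑ j ∈ Icc 1 (d / 2 + 1), β j * P j := by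
        rw [← Finset.sum_add_distrib]
        apply Finset.sum_congr rfl
        intro j hj
        rw [Finset.mem_Icc] at hj
        have h2 := h1 j hj.1 (by omega)
        rw [ext_of_le β (by omega : 2 * j ≤ d + 2)] at h2
        rw [← h2]; ring
      rw [← a2, Finset.mul_sum, e5, ← Finset.sum_div, ← e1]
      ring
    rw [key r P h hP0, key r' P' h' hP0']
  · -- the main case
    obtain ⟨A, C, c, e, h1, h2, h3⟩ := fe_main hd2 (by omega : 3 ≤ m + 1) hFE
      (by
        intro j hj hj'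
        rw [ext_symm α (by omega : j ≤ s)]
        congr 1
        omega)
      (by
        intro j hj hj'
        exact ext_symm β (by omega : j ≤ d + 2))
    have hs' : ((d : ℝ) + 1 + ((m + 1 : ℕ) : ℝ)) = s := by
      rw [hm]; push_cast; ring
    have key : ∀ r P : ℕ → ℝ, System d s r P →
        ∑ i ∈ Icc 1 (s / 2), α i * r i + ∑ i ∈ Icc 1 (d / 2 + 1), β i * P i =
          (A + c * s) * (2 ^ (s - 1) - ∑ k ∈ range (d + 1), ((s - 1).choose k : ℝ)) +
            (e - c * (d + 2)) * (s.choose (d + 2) : ℝ) := by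
      intro r P h
      obtain ⟨a1, a2, a3, a4⟩ := h.2.2.2 hd2 hs4
      have e1 : ∑ i ∈ Icc 1 (s / 2), α i * r i =
          (A + c * s) * ∑ i ∈ Icc 1 (s / 2), r i + C * ∑ i ∈ Icc 1 (s / 2), (-1 : ℝ) ^ i * r i +
            c * ∑ i ∈ Icc 1 (s / 2), (((s : ℝ) - 2 * i) ^ 2 - s) * r i := by
        rw [Finset.mul_sum, Finset.mul_sum, Finset.mul_sum, ← Finset.sum_add_distrib,
          ← Finset.sum_add_distrib]
        apply Finset.sum_congr rfl
        intro i hi
        rw [Finset.mem_Icc] at hi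
        have h4 := h1 i hi.1 (by omega)
        rw [ext_of_le α (by omega : 2 * i ≤ s), hs'] at h4
        rw [h4]; ring
      have e2 : ∑ i ∈ Icc 1 (d / 2 + 1), β i * P i =
          (e - c * (d + 2)) * ∑ i ∈ Icc 1 (d / 2 + 1), P i -
            c * ∑ i ∈ Icc 1 (d / 2 + 1), (((d : ℝ) + 2 - 2 * i) ^ 2 - (d + 2)) * P i := by
        rw [Finset.mul_sum, Finset.mul_sum, ← Finset.sum_sub_distrib]
        apply Finset.sum_congr rfl
        intro i hi
        rw [Finset.mem_Icc] at hi
        have h4 := h2 i hi.1 (by omega)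
        rw [ext_of_le β (by omega : 2 * i ≤ d + 2)] at h4
        rw [h4]; ring
      have e3 : C * ∑ i ∈ Icc 1 (s / 2), (-1 : ℝ) ^ i * r i = 0 := by
        by_cases hC : C = 0
        · rw [hC, zero_mul]
        · obtain ⟨h5, h6⟩ := h3 hC
          rw [a4 h5 (by
            rw [Nat.odd_iff] at h5 h6
            rw [Nat.even_iff]
            omega), mul_zero]
      rw [e1, e2, e3, a1, a2, a3]
      ring
    rw [key r P h, key r' P' h']

/-- The value of the functional `(α, β)` at the vector `v`. -/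
noncomputable def val (d s : ℕ) (α β : ℕ → ℝ)
    (v : (Fin (s / 2) → ℝ) × (Fin (d / 2 + 1) → ℝ)) : ℝ :=
  ∑ i ∈ Icc 1 (s / 2), α i * coord v.1 i + ∑ i ∈ Icc 1 (d / 2 + 1), β i * coord v.2 i

theorem exists_vec {d s m : ℕ} (hs : s = d + 1 + (m + 1)) (hd : 1 ≤ d) {ι : Type} [Fintype ι]
    [DecidableEq ι] {x : ι → (Fin d → ℝ)} (h : GP x) (hm : Fintype.card ι = s) (α β : ℕ → ℝ) :
    ∃ v ∈ V d s, wsum x m (ext s α) (ext (d + 2) β) = 2 * val d s α β v := by
  classical
  subst hm
  have hinj : Function.Injective x := h.injective (by rw [finrank_fin_fun]; exact hd)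
  set y : ι ↪ (Fin d → ℝ) := ⟨x, hinj⟩ with hy
  have hyx : (y : ι → (Fin d → ℝ)) = x := rfl
  have hgp : GP y := h
  have hc : ((univ : Finset ι).map y).card = Fintype.card ι := by
    rw [Finset.card_map, Finset.card_univ]
  refine ⟨_, ⟨univ.map y, hc, hgp.genPos, rfl⟩, ?_⟩
  have h1 := sum_radon hgp hs α
  have h2 := sum_prim hgp hs β
  unfold wsum val
  rw [hyx] at h1 h2
  unfold ext
  rw [h1, h2, ← mul_add]
  congr 2
  · apply Finset.sum_congr rfl
    intro i hi
    rw [coord_eq (fun j => (radonNum (univ.map y) j : ℝ)) hi]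
  · apply Finset.sum_congr rfl
    intro i hi
    rw [coord_eq (fun j => (primNum (univ.map y) j : ℝ)) hi]

theorem fe_of_const {d s m : ℕ} (hs : s = d + 1 + (m + 1)) (hd : 1 ≤ d) {α β : ℕ → ℝ}
    (hc : ∀ v ∈ V d s, ∀ w ∈ V d s, val d s α β v = val d s α β w) :
    FE d (m + 1) (ext s α) (ext (d + 2) β) := by
  classical
  intro p k hp hpd hk
  obtain ⟨ι, i1, i2, x, D, lD, h, u, i0, M, hcp, hck⟩ := exists_mut (m := m) hp hpd hk
  have hcard : Fintype.card ι = s := by rw [M.card, finrank_fin_fun, hs]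
  obtain ⟨y, z, hy, hz, hyz⟩ := M.diff (a := ext s α) (b := ext (d + 2) β)
    (by
      intro j hj
      rw [finrank_fin_fun, ← hs] at hj ⊢
      exact ext_symm α hj)
    (by
      intro j hj
      rw [finrank_fin_fun] at hj ⊢
      exact ext_symm β hj)
  obtain ⟨v, hv, hv'⟩ := exists_vec hs hd hy hcard α β
  obtain ⟨w, hw, hw'⟩ := exists_vec hs hd hz hcard α β
  rw [hv', hw', hc v hv w hw, sub_self, hcp, hck] at hyz
  push_cast at hyz ⊢
  linarith

theorem V_nonempty {d s : ℕ} (hd : 1 ≤ d) (hs : d + 2 ≤ s) : (V d s).Nonempty := by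
  classical
  obtain ⟨m, hm⟩ : ∃ m, s = d + 1 + (m + 1) := ⟨s - (d + 2), by omega⟩
  obtain ⟨ι, i1, i2, x, D, lD, h, u, i0, M, -, -⟩ :=
    exists_mut (d := d) (m := m) (p := 1) (k := 0) le_rfl hd (Nat.zero_le _)
  obtain ⟨y, z, hy, hz, -⟩ := M.diff (a := fun _ => 0) (b := fun _ => 0)
    (by intro j hj; rfl) (by intro j hj; rfl)
  obtain ⟨v, hv, -⟩ := exists_vec hm hd hy (by rw [M.card, finrank_fin_fun, hm]) (fun _ => 0)
    (fun _ => 0)
  exact ⟨v, hv⟩

theorem subset_system {d s : ℕ} (hs : d + 2 ≤ s)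
    {v : (Fin (s / 2) → ℝ) × (Fin (d / 2 + 1) → ℝ)} (hv : v ∈ affineSpan ℝ (V d s)) :
    System d s (coord v.1) (coord v.2) := by
  refine affineSpan_induction (p := fun v => System d s (coord v.1) (coord v.2)) hv ?_ ?_
  · intro v hv
    exact system_of_mem hs hv
  · intro c u v w hu hv hw
    have h1 := hu.lin hv hw c
    have e1 : (fun i => c * (coord u.1 i - coord v.1 i) + coord w.1 i) =
        coord (c • (u -ᵥ v) +ᵥ w).1 := by
      ext i
      rw [← coord_lin]
      rfl
    have e2 : (fun i => c * (coord u.2 i - coord v.2 i) + coord w.2 i) =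
        coord (c • (u -ᵥ v) +ᵥ w).2 := by
      ext i
      rw [← coord_lin]
      rfl
    rw [e1, e2] at h1
    exact h1

/-- The coefficients of a linear functional. -/
theorem exists_coeff {d s : ℕ}
    (g : ((Fin (s / 2) → ℝ) × (Fin (d / 2 + 1) → ℝ)) →ₗ[ℝ] ℝ) :
    ∃ α β : ℕ → ℝ, ∀ v, g v = val d s α β v := by
  classical
  refine ⟨fun i => if h : 1 ≤ i ∧ i ≤ s / 2 then g (Pi.single ⟨i - 1, by omega⟩ 1, 0) else 0,
    fun i => if h : 1 ≤ i ∧ i ≤ d / 2 + 1 then g (0, Pi.single ⟨i - 1, by omega⟩ 1) else 0, ?_⟩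
  rintro ⟨r, P⟩
  have h1 : ((r, P) : (Fin (s / 2) → ℝ) × (Fin (d / 2 + 1) → ℝ)) =
      ∑ j, r j • ((Pi.single j 1, 0) : (Fin (s / 2) → ℝ) × (Fin (d / 2 + 1) → ℝ)) +
      ∑ j, P j • ((0, Pi.single j 1) : (Fin (s / 2) → ℝ) × (Fin (d / 2 + 1) → ℝ)) := by
    rw [Prod.ext_iff]
    constructor
    · rw [Prod.fst_add, Prod.fst_sum, Prod.fst_sum]
      ext k
      simp [Finset.sum_apply, Pi.single_apply]
    · rw [Prod.snd_add, Prod.snd_sum, Prod.snd_sum]
      ext k
      simp [Finset.sum_apply, Pi.single_apply]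
  rw [h1, map_add, map_sum, map_sum, ← h1]
  unfold val
  have key : ∀ (n : ℕ) (f : Fin n → ℝ) (w : Fin n → ℝ),
      ∑ j, f j * w j = ∑ i ∈ Icc 1 n, (if h : 1 ≤ i ∧ i ≤ n then w ⟨i - 1, by omega⟩ else 0) *
        coord f i := by
    intro n f w
    have h2 : Icc 1 n = (range n).map ⟨fun i => i + 1, add_left_injective 1⟩ := by
      ext i
      rw [Finset.mem_Icc, Finset.mem_map]
      constructor
      · rintro ⟨h3, h4⟩
        exact ⟨i - 1, by rw [Finset.mem_range]; omega, by simp; omega⟩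
      · rintro ⟨j, hj, rfl⟩
        rw [Finset.mem_range] at hj
        simp only [Function.Embedding.coeFn_mk]
        omega
    rw [h2, Finset.sum_map, ← Fin.sum_univ_eq_sum_range
      (fun i => (if h : 1 ≤ (⟨fun i => i + 1, add_left_injective 1⟩ : ℕ ↪ ℕ) i ∧
        (⟨fun i => i + 1, add_left_injective 1⟩ : ℕ ↪ ℕ) i ≤ n then
        w ⟨(⟨fun i => i + 1, add_left_injective 1⟩ : ℕ ↪ ℕ) i - 1, by omega⟩ else 0) *
        coord f ((⟨fun i => i + 1, add_left_injective 1⟩ : ℕ ↪ ℕ) i)) n]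
    apply Finset.sum_congr rfl
    intro j _
    have hj : 1 ≤ (j : ℕ) + 1 ∧ (j : ℕ) + 1 ≤ n := by omega
    simp only [Function.Embedding.coeFn_mk]
    rw [dif_pos hj]
    unfold coord
    rw [dif_pos hj, mul_comm]
    rfl
  congr 1
  · rw [← key (s / 2) r (fun j => g (Pi.single j 1, 0))]
    apply Finset.sum_congr rfl
    intro j _
    rw [map_smul, smul_eq_mul]
  · rw [← key (d / 2 + 1) P (fun j => g (0, Pi.single j 1))]
    apply Finset.sum_congr rfl
    intro j _
    rw [map_smul, smul_eq_mul]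

theorem affineSpan_V {d s : ℕ} (hd : 1 ≤ d) (hs : d + 2 ≤ s) :
    (affineSpan ℝ (V d s) : Set ((Fin (s / 2) → ℝ) × (Fin (d / 2 + 1) → ℝ))) =
      {v | System d s (coord v.1) (coord v.2)} := by
  classical
  apply Set.Subset.antisymm
  · intro v hv
    exact subset_system hs hv
  · intro v hv
    rw [Set.mem_ofPred_eq] at hv
    obtain ⟨m, hm⟩ : ∃ m, s = d + 1 + (m + 1) := ⟨s - (d + 2), by omega⟩
    obtain ⟨v0, hv0⟩ := V_nonempty hd hs
    have hv0' : v0 ∈ affineSpan ℝ (V d s) := subset_affineSpan ℝ _ hv0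
    by_contra hcon
    have h1 : v -ᵥ v0 ∉ (affineSpan ℝ (V d s)).direction := by
      intro h'
      exact hcon ((AffineSubspace.vsub_right_mem_direction_iff_mem hv0' v).1 h')
    obtain ⟨g, hg, hgW⟩ := Submodule.exists_le_ker_of_notMem h1
    obtain ⟨α, β, hαβ⟩ := exists_coeff g
    have hFE : FE d (m + 1) (ext s α) (ext (d + 2) β) := by
      apply fe_of_const hm hd
      intro u hu w hw
      rw [← hαβ, ← hαβ, ← sub_eq_zero, ← map_sub]
      apply LinearMap.mem_ker.1
      apply hgW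
      exact AffineSubspace.vsub_mem_direction (subset_affineSpan ℝ _ hu)
        (subset_affineSpan ℝ _ hw)
    have h2 := value_eq hd hm hFE hv (system_of_mem hs hv0) (coord_zero _) (coord_zero _)
    apply hg
    rw [vsub_eq_sub, map_sub, hαβ, hαβ, sub_eq_zero]
    exact h2

end Pool.Agent.U280.Radon
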