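import Pool.Agent.U280.Radon.Geo

/-!
Mutations: a point moves through the hyperplane spanned by `d` other points.
-/

set_option autoImplicit false
set_option linter.unusedSectionVars false
set_option linter.unusedVariables false
set_option linter.unusedSimpArgs false

namespace Pool.Agent.U280.Radon

open Finset Module Filter Topology

variable {ι : Type*} [Fintype ι] [DecidableEq ι]
variable {E : Type*} [AddCommGroup E] [Module ℝ E] [FiniteDimensional ℝ E]

/-- The data of a mutation. The points of `D` are in the hyperplane `h = 0`, the point `i0` of `D` moves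
in the direction `u`. -/
structure MutData (x : ι → E) (D : Finset ι) (lD : ι → ℝ) (h : E →ₗ[ℝ] ℝ) (u : E) (i0 : ι)
    (m : ℕ) : Prop where
  card : Fintype.card ι = finrank ℝ E + 1 + (m + 1)
  cardD : D.card = finrank ℝ E + 1
  gp0 : ∀ l ∈ dep x, (supp l).card ≤ finrank ℝ E + 1 → l = 0 ∨ supp l = D
  lD_mem : lD ∈ dep x
  lD_supp : supp lD = D
  hD : ∀ i ∈ D, h (x i) = 0
  hnD : ∀ i, i ∉ D → h (x i) ≠ 0
  hu : h u = 1
  i0D : i0 ∈ D
  i0pos : 0 < lD i0

/-- The moving family. -/
def xt (x : ι → E) (u : E) (i0 : ι) (t : ℝ) : ι → E := fun i => x i + (if i = i0 then t • u else 0)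

theorem Phi_xt (x : ι → E) (u : E) (i0 : ι) (t : ℝ) (l : ι → ℝ) :
    Phi (xt x u i0 t) l = Phi x l + (0, (t * l i0) • u) := by
  simp only [Phi_apply, xt, Prod.mk_add_mk, add_zero, Prod.mk.injEq, true_and, smul_add,
    Finset.sum_add_distrib]
  congr 1
  rw [Finset.sum_eq_single i0]
  · rw [if_pos rfl, smul_smul, mul_comm]
  · intro j _ hj
    rw [if_neg hj, smul_zero]
  · intro h'
    exact absurd (Finset.mem_univ _) h'

theorem mem_dep_iff {x : ι → E} {l : ι → ℝ} : l ∈ dep x ↔ Phi x l = 0 := LinearMap.mem_ker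

variable {x : ι → E} {D : Finset ι} {lD : ι → ℝ} {h : E →ₗ[ℝ] ℝ} {u : E} {i0 : ι} {m : ℕ}

namespace MutData

theorem height (M : MutData x D lD h u i0 m) (l : ι → ℝ) :
    h (∑ i, l i • x i) = ∑ i ∈ Dᶜ, l i * h (x i) := by
  rw [map_sum]
  symm
  have : ∑ i ∈ Dᶜ, l i * h (x i) = ∑ i ∈ Dᶜ, h (l i • x i) := by
    apply Finset.sum_congr rfl
    intro i _
    rw [map_smul, smul_eq_mul]
  rw [this]
  apply Finset.sum_subset (Finset.subset_univ _)
  intro i _ hi
  rw [Finset.mem_compl, not_not] at hi
  rw [map_smul, M.hD i hi, smul_zero]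

/-- Solving for the direction `u` with a `(d+1)`-set other than `D`. -/
theorem exists_nu (M : MutData x D lD h u i0 m) {B : Finset ι}
    (hB : B.card = finrank ℝ E + 1) (hBD : B ≠ D) :
    ∃ ν ∈ vanish Bᶜ, Phi x ν = (0, u) := by
  apply surj_of_inj
  · rw [Finset.card_compl, hB, M.card]; omega
  · intro l hl hlB
    have h1 := supp_subset_iff.2 hlB
    have h2 := Finset.card_le_card h1
    rcases M.gp0 l hl (by omega) with h3 | h3
    · exact h3
    · exfalso
      rw [h3] at h1
      exact hBD (Finset.eq_of_subset_of_card_le h1 (by rw [hB, M.cardD])).symm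

theorem ev_GP (M : MutData x D lD h u i0 m) : ∀ᶠ t in 𝓝[≠] (0 : ℝ), GP (xt x u i0 t) := by
  classical
  choose! ν hν1 hν2 using fun (B : Finset ι) (hB : B.card = finrank ℝ E + 1 ∧ B ≠ D) =>
    M.exists_nu hB.1 hB.2
  have h1 : ∀ᶠ t in 𝓝[≠] (0 : ℝ), ∀ B : Finset ι, |t * ν B i0| < 1 := by
    apply Filter.Eventually.filter_mono nhdsWithin_le_nhds
    rw [Filter.eventually_all]
    intro B
    have hc : ContinuousAt (fun t : ℝ => |t * ν B i0|) 0 := by fun_prop
    have := hc.tendsto
    simp only [zero_mul, abs_zero] at this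
    exact this.eventually (gt_mem_nhds one_pos)
  filter_upwards [h1, self_mem_nhdsWithin] with t ht ht0
  have ht0' : t ≠ 0 := ht0
  intro l hl hls
  obtain ⟨B, hlB, hB⟩ := Finset.exists_superset_card_eq hls
    (by rw [M.card]; omega : finrank ℝ E + 1 ≤ Fintype.card ι)
  rw [mem_dep_iff, Phi_xt] at hl
  by_cases hBD : B = D
  · subst hBD
    have h2 : t * l i0 = 0 := by
      have h3 := congrArg Prod.snd hl
      simp only [Phi_apply, Prod.snd_add, Prod.snd_zero] at h3
      have h4 := congrArg h h3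
      rw [map_add, M.height, map_smul, M.hu, map_zero, smul_eq_mul, mul_one] at h4
      rw [Finset.sum_eq_zero, zero_add] at h4
      · exact h4
      · intro i hi
        have : l i = 0 := (supp_subset_iff.1 hlB) i hi
        rw [this, zero_mul]
    have h3 : l i0 = 0 := (mul_eq_zero.1 h2).resolve_left ht0'
    have h4 : l ∈ dep x := by
      rw [mem_dep_iff]
      rw [h3, mul_zero, zero_smul] at hl
      simpa using hl
    rcases M.gp0 l h4 hls with h5 | h5
    · exact h5
    · exfalso
      have := M.i0D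
      rw [← h5, mem_supp] at this
      exact this h3
  · have hν := hν2 B ⟨hB, hBD⟩
    have hνB := hν1 B ⟨hB, hBD⟩
    have h2 : l + (t * l i0) • ν B ∈ dep x := by
      rw [mem_dep_iff, map_add, map_smul, hν, Prod.smul_mk, smul_zero]
      exact hl
    have h3 : l + (t * l i0) • ν B ∈ vanish Bᶜ :=
      Submodule.add_mem _ (supp_subset_iff.1 hlB) (Submodule.smul_mem _ _ hνB)
    have h4 := Finset.card_le_card (supp_subset_iff.2 h3)
    have h5 : l + (t * l i0) • ν B = 0 := by
      rcases M.gp0 _ h2 (by omega) with h5 | h5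
      · exact h5
      · exfalso
        have h6 := supp_subset_iff.2 h3
        rw [h5] at h6
        exact hBD (Finset.eq_of_subset_of_card_le h6 (by rw [hB, M.cardD])).symm
    have h6 := congrFun h5 i0
    simp only [Pi.add_apply, Pi.smul_apply, smul_eq_mul, Pi.zero_apply] at h6
    have h7 : l i0 * (1 + t * ν B i0) = 0 := by linarith
    have h8 : 1 + t * ν B i0 ≠ 0 := by
      have := abs_lt.1 (ht B)
      intro h'; linarith [this.1]
    have h9 : l i0 = 0 := (mul_eq_zero.1 h7).resolve_right h8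
    rw [h9, mul_zero, zero_smul, add_zero] at h5
    exact h5

/-- Circuits which do not contain `D` persist. -/
theorem ev_pos (M : MutData x D lD h u i0 m) {K A : Finset ι} (hK : K.card = m)
    (hKD : (K ∩ D).Nonempty) (hA : Pos (dep x ⊓ vanish K) (univ \ K) A) :
    ∀ᶠ t in 𝓝 (0 : ℝ), Pos (dep (xt x u i0 t) ⊓ vanish K) (univ \ K) A := by
  classical
  obtain ⟨l, hl, h1⟩ := hA
  by_cases hi0 : i0 ∈ K
  · apply Filter.Eventually.of_forall
    intro t
    refine ⟨l, ⟨?_, hl.2⟩, h1⟩
    show l ∈ dep (xt x u i0 t)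
    rw [mem_dep_iff, Phi_xt, mem_dep_iff.1 hl.1, hl.2 i0 hi0]
    simp
  · set B := Kᶜ.erase i0 with hBdef
    have hBc : B.card = finrank ℝ E + 1 := by
      rw [hBdef, Finset.card_erase_of_mem (Finset.mem_compl.2 hi0), Finset.card_compl, M.card, hK]
      omega
    have hBD : B ≠ D := by
      intro h'
      have := M.i0D
      rw [← h', hBdef] at this
      simp at this
    obtain ⟨ν, hν1, hν2⟩ := M.exists_nu hBc hBD
    have hνi0 : ν i0 = 0 := hν1 i0 (by simp [hBdef])
    obtain ⟨ε, hε, h2⟩ := small (univ \ K) (fun i => sg A i * l i)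
      (fun i => -(sg A i * (l i0 * ν i))) h1
    have h3 : ∀ᶠ t in 𝓝 (0 : ℝ), |t| ≤ ε := by
      have : ContinuousAt (fun t : ℝ => |t|) 0 := by fun_prop
      have := this.tendsto
      simp only [abs_zero] at this
      filter_upwards [this.eventually (gt_mem_nhds hε)] with t ht using ht.le
    filter_upwards [h3] with t ht
    refine ⟨l - (t * l i0) • ν, ⟨?_, ?_⟩, ?_⟩
    · show _ ∈ dep (xt x u i0 t)
      rw [mem_dep_iff, Phi_xt, map_sub, map_smul, hν2, mem_dep_iff.1 hl.1]
      simp only [Pi.sub_apply, Pi.smul_apply, smul_eq_mul, hνi0, mul_zero, sub_zero,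
        Prod.smul_mk, smul_zero, zero_sub]
      simp
    · intro i hi
      have e1 : ν i = 0 := hν1 i (by
        rw [hBdef]
        simp only [Finset.mem_compl, Finset.mem_erase, not_and, not_not]
        intro _; exact hi)
      simp [hl.2 i hi, e1]
    · intro i hi
      have := h2 t ht i hi
      simp only [Pi.sub_apply, Pi.smul_apply, smul_eq_mul]
      nlinarith

theorem exists_pos (M : MutData x D lD h u i0 m) {K : Finset ι} (hK : K.card = m)
    (hKD : (K ∩ D).Nonempty) : ∃ A, Pos (dep x ⊓ vanish K) (univ \ K) A := by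
  classical
  have h1 : ∃ l ∈ dep x ⊓ vanish K, l ≠ 0 := by
    by_contra hcon
    push Not at hcon
    have hinj : Function.Injective ((Phi x).comp (vanish K).subtype) := by
      rw [← LinearMap.ker_eq_bot, Submodule.eq_bot_iff]
      intro l hl
      rw [LinearMap.mem_ker] at hl
      exact Subtype.ext (hcon l.1 ⟨mem_dep_iff.2 hl, l.2⟩)
    have h2 := LinearMap.finrank_le_finrank_of_injective hinj
    rw [finrank_vanish, Module.finrank_prod, finrank_self, M.card, hK] at h2
    omega
  obtain ⟨l, hl, hl0⟩ := h1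
  have hsub : supp l ⊆ Kᶜ := by
    rw [supp_subset_iff, compl_compl]; exact hl.2
  have hfull : supp l = Kᶜ := by
    apply Finset.eq_of_subset_of_card_le hsub
    rw [Finset.card_compl, M.card, hK]
    by_contra hcon
    push Not at hcon
    rcases M.gp0 l hl.1 (by omega) with h3 | h3
    · exact hl0 h3
    · rw [h3] at hsub
      obtain ⟨j, hj⟩ := hKD
      rw [Finset.mem_inter] at hj
      exact (Finset.mem_compl.1 (hsub hj.2)) hj.1
  refine ⟨univ.filter (fun i => 0 < l i), l, hl, ?_⟩
  intro i hi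
  have hine : l i ≠ 0 := by
    rw [← mem_supp, hfull, Finset.mem_compl]
    exact (Finset.mem_sdiff.1 hi).2
  rcases lt_or_gt_of_ne hine with h4 | h4
  · rw [sg_of_notMem (by simp [h4.le])]; linarith
  · rw [sg_of_mem (by simp [h4])]; linarith

end MutData

theorem Pos.compl {L : Submodule ℝ (ι → ℝ)} {S A : Finset ι} (hA : Pos L S A) : Pos L S Aᶜ := by
  obtain ⟨l, hl, h1⟩ := hA
  refine ⟨-l, L.neg_mem hl, ?_⟩
  intro i hi
  have h2 := h1 i hi
  by_cases hiA : i ∈ A
  · rw [sg_of_mem hiA] at h2
    rw [sg_of_notMem (by simpa using hiA)]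
    simp only [Pi.neg_apply]; linarith
  · rw [sg_of_notMem hiA] at h2
    rw [sg_of_mem (by simpa using hiA)]
    simp only [Pi.neg_apply]; linarith

theorem sg_compl (A : Finset ι) (i : ι) : sg Aᶜ i = - sg A i := by
  unfold sg
  by_cases h : i ∈ A <;> simp [h]

theorem GP.gen_circuit {x : ι → E} (hx : GP x) {m : ℕ}
    (hm : Fintype.card ι = finrank ℝ E + 1 + (m + 1)) {K : Finset ι} (hK : K.card = m) :
    Gen (dep x ⊓ vanish K) (univ \ K) 1 := by
  have := (hx.gen hm).contract (K := K) (T := univ \ K) (Finset.subset_univ _)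
    (Finset.subset_univ _) Finset.disjoint_sdiff
  rwa [hK, Nat.add_sub_cancel_left] at this

namespace MutData

/-- Circuits which do not contain `D` are the same for all small `t ≠ 0`. -/
theorem ev_iff (M : MutData x D lD h u i0 m) : ∀ᶠ t in 𝓝[≠] (0 : ℝ), ∀ K : Finset ι, K.card = m →
    (K ∩ D).Nonempty → ∀ A, (Pos (dep (xt x u i0 t) ⊓ vanish K) (univ \ K) A ↔
      Pos (dep x ⊓ vanish K) (univ \ K) A) := by
  classical
  have h1 : ∀ᶠ t in 𝓝[≠] (0 : ℝ), ∀ K : Finset ι, ∀ A : Finset ι, K.card = m →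
      (K ∩ D).Nonempty → Pos (dep x ⊓ vanish K) (univ \ K) A →
      Pos (dep (xt x u i0 t) ⊓ vanish K) (univ \ K) A := by
    apply Filter.Eventually.filter_mono nhdsWithin_le_nhds
    rw [Filter.eventually_all]
    intro K
    rw [Filter.eventually_all]
    intro A
    by_cases hh : K.card = m ∧ (K ∩ D).Nonempty ∧ Pos (dep x ⊓ vanish K) (univ \ K) A
    · filter_upwards [M.ev_pos hh.1 hh.2.1 hh.2.2] with t ht _ _ _ using ht
    · apply Filter.Eventually.of_forall
      intro t a b c
      exact absurd ⟨a, b, c⟩ hh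
  filter_upwards [h1, M.ev_GP] with t ht hGP K hK hKD A
  constructor
  · intro hA
    obtain ⟨A0, hA0⟩ := M.exists_pos hK hKD
    have hA0t := ht K A0 hK hKD hA0
    have hG := hGP.gen_circuit M.card hK
    rcases hG.dim_one hA hA0t with h2 | h2
    · exact (Pos.congr h2).2 hA0
    · refine (Pos.congr (B := A0ᶜ) ?_).2 hA0.compl
      intro i hi
      rw [h2 i hi, sg_compl]
  · intro hA
    exact ht K A hK hKD hA

/-- The circuits which contain `D`. -/
theorem ev_D (M : MutData x D lD h u i0 m) : ∀ᶠ t in 𝓝[≠] (0 : ℝ), ∀ e, e ∉ D →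
    ∀ A : Finset ι, (∀ i ∈ D, (i ∈ A ↔ 0 < lD i)) → (e ∈ A ↔ t * h (x e) < 0) →
    Pos (dep (xt x u i0 t) ⊓ vanish (Dᶜ.erase e)) (univ \ Dᶜ.erase e) A := by
  classical
  have hkey : ∀ e, e ∉ D → ∀ᶠ t in 𝓝[≠] (0 : ℝ), 
      ∀ A : Finset ι, (∀ i ∈ D, (i ∈ A ↔ 0 < lD i)) → (e ∈ A ↔ t * h (x e) < 0) →
      Pos (dep (xt x u i0 t) ⊓ vanish (Dᶜ.erase e)) (univ \ Dᶜ.erase e) A := by
    intro e he
    set B := insert e (D.erase i0) with hBdef
    have heD : e ∉ D.erase i0 := fun h' => he (Finset.mem_of_mem_erase h')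
    have hei0 : e ≠ i0 := fun h' => he (h' ▸ M.i0D)
    have hBc : B.card = finrank ℝ E + 1 := by
      rw [hBdef, Finset.card_insert_of_notMem heD, Finset.card_erase_of_mem M.i0D, M.cardD]
      omega
    have hBD : B ≠ D := by
      intro h'
      apply he
      rw [← h', hBdef]
      exact Finset.mem_insert_self _ _
    obtain ⟨ν, hν1, hν2⟩ := M.exists_nu hBc hBD
    have hνi0 : ν i0 = 0 := hν1 i0 (by
      rw [hBdef]; simp [hei0.symm])
    have hνe : ν e * h (x e) = 1 := by
      have h3 := congrArg (fun v : ℝ × E => h v.2) hν2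
      simp only [Phi_apply] at h3
      rw [M.height, M.hu] at h3
      rw [Finset.sum_eq_single e] at h3
      · exact h3
      · intro j hj hje
        have : ν j = 0 := hν1 j (by
          rw [hBdef]
          simp only [Finset.mem_compl, Finset.mem_insert, Finset.mem_erase, not_or, not_and]
          exact ⟨hje, fun _ h' => (Finset.mem_compl.1 hj) h'⟩)
        rw [this, zero_mul]
      · intro h'
        exact absurd (Finset.mem_compl.2 he) h'
    have hpos : ∀ i ∈ D, 0 < |lD i| := by
      intro i hi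
      rw [abs_pos, ← mem_supp, M.lD_supp]; exact hi
    obtain ⟨ε, hε, h2⟩ := small D (fun i => |lD i|) (fun i => -(|lD i0| * |ν i|)) hpos
    have h3 : ∀ᶠ t in 𝓝[≠] (0 : ℝ), |t| ≤ ε := by
      apply Filter.Eventually.filter_mono nhdsWithin_le_nhds
      have : ContinuousAt (fun t : ℝ => |t|) 0 := by fun_prop
      have := this.tendsto
      simp only [abs_zero] at this
      filter_upwards [this.eventually (gt_mem_nhds hε)] with t ht using ht.le
    filter_upwards [h3, self_mem_nhdsWithin] with t ht ht0 A hAD hAe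
    have ht0' : t ≠ 0 := ht0
    refine ⟨lD - (t * lD i0) • ν, ⟨?_, ?_⟩, ?_⟩
    · show _ ∈ dep (xt x u i0 t)
      rw [mem_dep_iff, Phi_xt, map_sub, map_smul, hν2, mem_dep_iff.1 M.lD_mem]
      simp only [Pi.sub_apply, Pi.smul_apply, smul_eq_mul, hνi0, mul_zero, sub_zero,
        Prod.smul_mk, smul_zero, zero_sub]
      simp
    · intro i hi
      rw [Finset.mem_erase, Finset.mem_compl] at hi
      have e1 : ν i = 0 := hν1 i (by
        rw [hBdef]
        simp only [Finset.mem_compl, Finset.mem_insert, Finset.mem_erase, not_or, not_and]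
        exact ⟨hi.1, fun _ h' => hi.2 h'⟩)
      have e2 : lD i = 0 := by
        by_contra h'
        apply hi.2
        rw [← M.lD_supp, mem_supp]; exact h'
      simp [e1, e2]
    · intro i hi
      simp only [Finset.mem_sdiff, Finset.mem_univ, true_and, Finset.mem_erase,
        Finset.mem_compl, not_and, not_not] at hi
      simp only [Pi.sub_apply, Pi.smul_apply, smul_eq_mul]
      by_cases hie : i = e
      · subst hie
        have e2 : lD i = 0 := by
          by_contra h'
          apply he
          rw [← M.lD_supp, mem_supp]; exact h'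
        rw [e2, zero_sub]
        have hhe := M.hnD i he
        have hν : ν i = 1 / h (x i) := by field_simp; exact hνe
        have hl0 := M.i0pos
        by_cases hiA : i ∈ A
        · rw [sg_of_mem hiA, one_mul, hν]
          have h4 := hAe.1 hiA
          have : -(t * lD i0 * (1 / h (x i))) = (-(t * h (x i))) * lD i0 * (1 / h (x i)) ^ 2 := by
            field_simp
          rw [this]
          have h5 : 0 < (1 / h (x i)) ^ 2 := by positivity
          have h6 : 0 < -(t * h (x i)) := by linarith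
          positivity
        · rw [sg_of_notMem hiA, hν]
          have h4 : 0 < t * h (x i) := by
            have h5 : ¬ t * h (x i) < 0 := fun h' => hiA (hAe.2 h')
            have h6 : t * h (x i) ≠ 0 := mul_ne_zero ht0' hhe
            exact lt_of_le_of_ne (not_lt.1 h5) h6.symm
          have : -1 * -(t * lD i0 * (1 / h (x i))) =
              (t * h (x i)) * lD i0 * (1 / h (x i)) ^ 2 := by
            field_simp
          rw [this]
          have h5 : 0 < (1 / h (x i)) ^ 2 := by positivity
          positivity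
      · have hiD : i ∈ D := hi hie
        have h4 := h2 |t| (by rw [abs_abs]; exact ht) i hiD
        have h5 : |t * lD i0 * ν i| = |t| * (|lD i0| * |ν i|) := by
          rw [abs_mul, abs_mul]; ring
        have h6 : |t * lD i0 * ν i| < |lD i| := by rw [h5]; linarith
        have h7 := abs_lt.1 h6
        by_cases hiA : i ∈ A
        · have h8 := (hAD i hiD).1 hiA
          rw [sg_of_mem hiA, abs_of_pos h8] at *
          linarith [h7.2]
        · have h8 : lD i < 0 := by
            have h9 : ¬ 0 < lD i := fun h' => hiA ((hAD i hiD).2 h')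
            exact lt_of_le_of_ne (not_lt.1 h9) (abs_pos.1 (hpos i hiD))
          rw [abs_of_neg h8] at h7
          rw [sg_of_notMem hiA]
          linarith [h7.1]
  have hall : ∀ᶠ t in 𝓝[≠] (0 : ℝ), ∀ e : ι, e ∉ D →
      ∀ A : Finset ι, (∀ i ∈ D, (i ∈ A ↔ 0 < lD i)) → (e ∈ A ↔ t * h (x e) < 0) →
      Pos (dep (xt x u i0 t) ⊓ vanish (Dᶜ.erase e)) (univ \ Dᶜ.erase e) A := by
    rw [Filter.eventually_all]
    intro e
    by_cases he : e ∈ D
    · apply Filter.Eventually.of_forall
      intro t h'
      exact absurd he h'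
    · filter_upwards [hkey e he] with t ht _ using ht
  exact hall

/-- The sign vector which is not a Radon partition for `t`. -/
theorem not_pos (M : MutData x D lD h u i0 m) {t : ℝ} (ht : t ≠ 0) {A : Finset ι}
    (hAD : i0 ∈ A) (hA : ∀ i, i ∉ D → (i ∈ A ↔ 0 < t * h (x i))) :
    ¬ Pos (dep (xt x u i0 t)) univ A := by
  classical
  rintro ⟨l, hl, h1⟩
  rw [mem_dep_iff, Phi_xt] at hl
  have h3 := congrArg Prod.snd hl
  simp only [Phi_apply, Prod.snd_add, Prod.snd_zero] at h3
  have h4 := congrArg h h3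
  rw [map_add, M.height, map_smul, M.hu, map_zero, smul_eq_mul, mul_one] at h4
  have h5 : 0 < l i0 := by
    have := h1 i0 (Finset.mem_univ _)
    rwa [sg_of_mem hAD, one_mul] at this
  have h6 : 0 ≤ ∑ i ∈ Dᶜ, l i * (t * h (x i)) := by
    apply Finset.sum_nonneg
    intro i hi
    rw [Finset.mem_compl] at hi
    have h7 := h1 i (Finset.mem_univ _)
    by_cases hiA : i ∈ A
    · rw [sg_of_mem hiA, one_mul] at h7
      exact (mul_pos h7 ((hA i hi).1 hiA)).le
    · rw [sg_of_notMem hiA] at h7
      have h8 : t * h (x i) ≤ 0 := not_lt.1 (fun h' => hiA ((hA i hi).2 h'))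
      nlinarith
  have h7 : ∑ i ∈ Dᶜ, l i * (t * h (x i)) = t * ∑ i ∈ Dᶜ, l i * h (x i) := by
    rw [Finset.mul_sum]
    apply Finset.sum_congr rfl
    intro i _; ring
  have h8 : ∑ i ∈ Dᶜ, l i * h (x i) = - (t * l i0) := by linarith
  rw [h7, h8] at h6
  have h9 : 0 < t * t * l i0 := mul_pos (mul_self_pos.2 ht) h5
  nlinarith

end MutData

end Pool.Agent.U280.Radon
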