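import Pool.Agent.U280.Radon.Count

/-!
The relations.
-/

set_option autoImplicit false
set_option linter.unusedSectionVars false
set_option linter.unusedVariables false
set_option linter.unusedSimpArgs false

namespace Pool.Agent.U280.Radon

open Finset Module

variable {d : ℕ} {ι : Type*} [Fintype ι] [DecidableEq ι]

theorem sum_radon {x : ι ↪ (Fin d → ℝ)} (h : GP x) {m : ℕ}
    (hm : Fintype.card ι = d + 1 + m) (α : ℕ → ℝ) :
    ∑ A ∈ topes (dep x) univ, α (min A.card (Fintype.card ι - A.card)) =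
      2 * ∑ i ∈ Icc 1 (Fintype.card ι / 2), α i * (radonNum (univ.map x) i : ℝ) := by
  classical
  rw [sum_type (topes (dep x) univ) (fun A => A.card) (Fintype.card ι) _ α, Finset.mul_sum]
  · apply Finset.sum_congr rfl
    intro i hi
    rw [Finset.mem_Icc] at hi
    rw [← two_radonNum h hm (by omega)]
    push_cast
    ring
  · intro A hA
    rw [mem_topes] at hA
    have h1 := pos_ne (x := x) (M := dep x) (T := univ) (A := A) le_rfl
      (fun l _ i hi => absurd (Finset.mem_univ i) hi)
      (by rw [← Finset.card_pos, Finset.card_univ]; omega) hA.1 hA.2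
    rwa [Finset.card_univ] at h1

theorem sum_circ (x : ι → (Fin d → ℝ)) (m : ℕ) (f : ℕ → ℝ) :
    ∑ p ∈ circ x m, f p.2.card =
      ∑ K ∈ univ.powersetCard m, ∑ A ∈ topes (dep x ⊓ vanish K) (univ \ K), f A.card := by
  rw [circ, Finset.sum_sigma]

theorem circ_card {x : ι → (Fin d → ℝ)} {m : ℕ} (hm : Fintype.card ι = d + 1 + (m + 1))
    {p : Σ _ : Finset ι, Finset ι} (hp : p ∈ circ x m) : 1 ≤ p.2.card ∧ p.2.card < d + 2 := by
  classical
  rw [mem_circ] at hp
  have hc : (univ \ p.1).card = d + 2 := by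
    rw [Finset.card_sdiff_of_subset (Finset.subset_univ _), Finset.card_univ, hm, hp.1]; omega
  have h1 := pos_ne (x := x) (M := dep x ⊓ vanish p.1) (T := univ \ p.1) (A := p.2) inf_le_left
    (fun l hl i hi => hl.2 i (by
      by_contra h'
      exact hi (Finset.mem_sdiff.2 ⟨Finset.mem_univ i, h'⟩)))
    (by rw [← Finset.card_pos, hc]; omega) hp.2.1 hp.2.2
  rwa [hc] at h1

theorem sum_prim {x : ι ↪ (Fin d → ℝ)} (h : GP x) {m : ℕ}
    (hm : Fintype.card ι = d + 1 + (m + 1)) (β : ℕ → ℝ) :
    ∑ K ∈ univ.powersetCard m, ∑ A ∈ topes (dep x ⊓ vanish K) (univ \ K),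
      β (min A.card (d + 2 - A.card)) =
      2 * ∑ i ∈ Icc 1 (d / 2 + 1), β i * (primNum (univ.map x) i : ℝ) := by
  classical
  rw [← sum_circ x m (fun j => β (min j (d + 2 - j))),
    sum_type (circ x m) (fun p => p.2.card) (d + 2) (fun p hp => circ_card hm hp) β,
    Finset.mul_sum]
  have e : (d + 2) / 2 = d / 2 + 1 := by omega
  rw [e]
  apply Finset.sum_congr rfl
  intro i hi
  rw [Finset.mem_Icc] at hi
  rw [← two_primNum h hm (by omega)]
  push_cast
  ring

/-- `R1` -/
theorem rel_one {x : ι ↪ (Fin d → ℝ)} (h : GP x) {m : ℕ}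
    (hm : Fintype.card ι = d + 1 + (m + 1)) :
    ∑ i ∈ Icc 1 (d / 2 + 1), (primNum (univ.map x) i : ℝ) =
      ((Fintype.card ι).choose (d + 2) : ℝ) := by
  classical
  have h1 := sum_prim h hm (fun _ => 1)
  simp only [one_mul] at h1
  have hG : Gen (dep x) univ (m + 1) := h.gen (by rw [finrank_fin_fun]; exact hm)
  have h2 : ∀ K ∈ (univ : Finset ι).powersetCard m,
      ∑ A ∈ topes (dep x ⊓ vanish K) (univ \ K), (1 : ℝ) = 2 := by
    intro K hK
    rw [Finset.mem_powersetCard] at hK
    have hc : (univ \ K).card = d + 2 := by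
      rw [Finset.card_sdiff_of_subset hK.1, Finset.card_univ, hm, hK.2]; omega
    have hG' : Gen (dep x ⊓ vanish K) (univ \ K) 1 := by
      have h9 := hG.contract (K := K) (T := univ \ K) (Finset.subset_univ _)
        (Finset.subset_univ _) Finset.disjoint_sdiff
      have h10 : m + 1 - K.card = 1 := by rw [hK.2]; omega
      rwa [h10] at h9
    rw [Finset.sum_const, nsmul_eq_mul, mul_one,
      card_topes (by rw [← Finset.card_pos, hc]; omega) hG']
    simp
  rw [Finset.sum_congr rfl h2, Finset.sum_const, Finset.card_powersetCard, Finset.card_univ,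
    nsmul_eq_mul] at h1
  have h3 : (Fintype.card ι).choose (d + 2) = (Fintype.card ι).choose m := by
    apply Nat.choose_symm_of_eq_add
    omega
  rw [h3]
  linarith

/-- `R2` -/
theorem rel_two {x : ι ↪ (Fin d → ℝ)} (h : GP x) {m : ℕ}
    (hm : Fintype.card ι = d + 1 + (m + 1)) :
    ∑ i ∈ Icc 1 (Fintype.card ι / 2), (radonNum (univ.map x) i : ℝ) =
      2 ^ (Fintype.card ι - 1) - ∑ k ∈ range (d + 1), ((Fintype.card ι - 1).choose k : ℝ) := by
  classical
  have h1 := sum_radon h hm (fun _ => 1)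
  simp only [one_mul] at h1
  have hG : Gen (dep x) univ (m + 1) := h.gen (by rw [finrank_fin_fun]; exact hm)
  rw [Finset.sum_const, nsmul_eq_mul, mul_one,
    card_topes (by rw [← Finset.card_pos, Finset.card_univ]; omega) hG, Finset.card_univ] at h1
  have h2 : ∑ k ∈ range (m + 1), ((Fintype.card ι - 1).choose k : ℝ) +
      ∑ k ∈ range (d + 1), ((Fintype.card ι - 1).choose k : ℝ) = 2 ^ (Fintype.card ι - 1) := by
    have e1 : Fintype.card ι - 1 + 1 = (m + 1) + (d + 1) := by omega
    have h3 := Nat.sum_range_choose (Fintype.card ι - 1)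
    have h4 : ∑ k ∈ range (Fintype.card ι - 1 + 1), ((Fintype.card ι - 1).choose k : ℝ) =
        2 ^ (Fintype.card ι - 1) := by exact_mod_cast h3
    have h5 : ∑ k ∈ range (d + 1), ((Fintype.card ι - 1).choose k : ℝ) =
        ∑ k ∈ range (d + 1), ((Fintype.card ι - 1).choose (m + 1 + k) : ℝ) := by
      rw [← Finset.sum_range_reflect]
      apply Finset.sum_congr rfl
      intro k hk
      rw [Finset.mem_range] at hk
      congr 1
      apply Nat.choose_symm_of_eq_add
      omega
    rw [← h4, e1, h5]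
    exact (Finset.sum_range_add (fun k => ((Fintype.card ι - 1).choose k : ℝ)) (m + 1) (d + 1)).symm
  linarith

theorem sum_sg {S A : Finset ι} (hA : A ⊆ S) : ∑ i ∈ S, sg A i = 2 * (A.card : ℝ) - S.card := by
  classical
  rw [← Finset.sum_sdiff hA]
  have h1 : ∑ i ∈ A, sg A i = A.card := by
    rw [Finset.sum_congr rfl (fun i hi => sg_of_mem hi)]; simp
  have h2 : ∑ i ∈ S \ A, sg A i = - ((S \ A).card : ℝ) := by
    rw [Finset.sum_congr rfl (fun i hi => sg_of_notMem (Finset.mem_sdiff.1 hi).2)]; simp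
  rw [h1, h2, Finset.card_sdiff_of_subset hA, Nat.cast_sub (Finset.card_le_card hA)]
  ring

theorem sq_min (n j : ℕ) (hj : j ≤ n) :
    ((n : ℝ) - 2 * (min j (n - j) : ℕ)) ^ 2 = (2 * (j : ℝ) - n) ^ 2 := by
  rcases le_total j (n - j) with h | h
  · rw [min_eq_left h]; ring
  · rw [min_eq_right h, Nat.cast_sub hj]; ring

/-- `R3` -/
theorem rel_three {x : ι ↪ (Fin d → ℝ)} (h : GP x) {m : ℕ}
    (hm : Fintype.card ι = d + 1 + (m + 1)) :
    ∑ i ∈ Icc 1 (Fintype.card ι / 2), (((Fintype.card ι : ℝ) - 2 * i) ^ 2 - Fintype.card ι) *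
      (radonNum (univ.map x) i : ℝ) =
      ∑ i ∈ Icc 1 (d / 2 + 1), (((d : ℝ) + 2 - 2 * i) ^ 2 - (d + 2)) *
        (primNum (univ.map x) i : ℝ) := by
  classical
  have hG : Gen (dep x) univ (m + 1) := h.gen (by rw [finrank_fin_fun]; exact hm)
  have h1 := sum_radon h hm (fun i => ((Fintype.card ι : ℝ) - 2 * i) ^ 2 - Fintype.card ι)
  have h2 := sum_prim h hm (fun i => ((d : ℝ) + 2 - 2 * i) ^ 2 - (d + 2))
  have h3 := hG.quad
  have h4 : ∑ A ∈ topes (dep x) univ, ((∑ i ∈ univ, sg A i) ^ 2 - ((univ : Finset ι).card : ℝ)) =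
      ∑ A ∈ topes (dep x) univ, (((Fintype.card ι : ℝ) - 2 *
        (min A.card (Fintype.card ι - A.card) : ℕ)) ^ 2 - Fintype.card ι) := by
    apply Finset.sum_congr rfl
    intro A hA
    rw [sum_sg (Finset.subset_univ A), sq_min _ _ (Finset.card_le_univ A), Finset.card_univ]
  have h5 : ∑ K ∈ univ.powersetCard m, ∑ A ∈ topes (dep x ⊓ vanish K) (univ \ K),
        ((∑ i ∈ univ \ K, sg A i) ^ 2 - ((univ \ K).card : ℝ)) =
      ∑ K ∈ univ.powersetCard m, ∑ A ∈ topes (dep x ⊓ vanish K) (univ \ K),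
        (((d : ℝ) + 2 - 2 * (min A.card (d + 2 - A.card) : ℕ)) ^ 2 - (d + 2)) := by
    apply Finset.sum_congr rfl
    intro K hK
    apply Finset.sum_congr rfl
    intro A hA
    rw [Finset.mem_powersetCard] at hK
    rw [mem_topes] at hA
    have hc : (univ \ K).card = d + 2 := by
      rw [Finset.card_sdiff_of_subset hK.1, Finset.card_univ, hm, hK.2]; omega
    have hA' := Finset.card_le_card hA.1
    have h6 := sq_min (d + 2) A.card (by omega)
    push_cast at h6
    rw [sum_sg hA.1, hc]
    push_cast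
    rw [h6]
  linarith

/-- `R4` -/
theorem rel_four {x : ι ↪ (Fin d → ℝ)} (h : GP x) {m : ℕ}
    (hm : Fintype.card ι = d + 1 + (m + 1)) (hd : Odd d) (hs : Even (Fintype.card ι)) :
    ∑ i ∈ Icc 1 (Fintype.card ι / 2), (-1 : ℝ) ^ i * (radonNum (univ.map x) i : ℝ) = 0 := by
  classical
  have hG : Gen (dep x) univ (m + 1) := h.gen (by rw [finrank_fin_fun]; exact hm)
  have h1 := sum_radon h hm (fun i => (-1 : ℝ) ^ i)
  have hodd : Odd m := by
    rw [hm] at hs
    rw [Nat.odd_iff] at hd ⊢
    rw [Nat.even_iff] at hs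
    omega
  have h2 := hG.parity (by rw [Finset.card_univ]; omega) hodd
  have h3 : ∑ A ∈ topes (dep x) univ, (-1 : ℝ) ^ (min A.card (Fintype.card ι - A.card)) =
      ∑ A ∈ topes (dep x) univ, (-1 : ℝ) ^ A.card := by
    apply Finset.sum_congr rfl
    intro A hA
    rcases le_total A.card (Fintype.card ι - A.card) with h | h
    · rw [min_eq_left h]
    · rw [min_eq_right h]
      have h4 := Finset.card_le_univ A
      have h5 : (-1 : ℝ) ^ (Fintype.card ι - A.card) * (-1) ^ A.card = 1 := by
        rw [← pow_add, Nat.sub_add_cancel h4, hs.neg_one_pow]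
      rcases neg_one_pow_eq_or ℝ A.card with h6 | h6
      · rw [h6] at h5 ⊢; linarith
      · rw [h6] at h5 ⊢; linarith
  have h4 : ∑ A ∈ topes (dep x) univ, (-1 : ℝ) ^ A.card = 0 := by exact_mod_cast h2
  linarith

theorem rel_zero {x : ι ↪ (Fin d → ℝ)} (h : GP x) (hm : Fintype.card ι = d + 1 + (0 + 1)) :
    ∀ i ∈ Icc 1 (Fintype.card ι / 2),
      (radonNum (univ.map x) i : ℝ) = (primNum (univ.map x) i : ℝ) := by
  classical
  intro i hi
  have h1 := sum_radon h hm (fun j => if j = i then 1 else 0)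
  have h2 := sum_prim h hm (fun j => if j = i then 1 else 0)
  have e1 : Fintype.card ι = d + 2 := by omega
  have e2 : (d + 2) / 2 = d / 2 + 1 := by omega
  rw [Finset.powersetCard_zero, Finset.sum_singleton, vanish_empty, inf_top_eq,
    Finset.sdiff_empty] at h2
  rw [e1, h2, e2] at h1
  rw [e1, e2] at hi
  simp only [ite_mul, one_mul, zero_mul, Finset.sum_ite_eq', hi, if_true] at h1
  linarith

theorem rel_dual {x : ι ↪ (Fin d → ℝ)} (h : GP x) (hm : Fintype.card ι = d + 1 + (1 + 1)) :
    ∀ i ∈ Icc 1 (Fintype.card ι / 2), 2 * (radonNum (univ.map x) i : ℝ) =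
      ∑ j ∈ Icc 1 (d / 2 + 1), ((if min j (Fintype.card ι - j) = i then 1 else 0) +
        (if min (j + 1) (Fintype.card ι - (j + 1)) = i then 1 else 0)) *
        (primNum (univ.map x) j : ℝ) := by
  classical
  intro i hi
  have hG : Gen (dep x) univ 2 := h.gen (by rw [finrank_fin_fun]; exact hm)
  have h1 := sum_radon h hm (fun j => if j = i then 1 else 0)
  have h2 := sum_prim h hm (fun j => (if min j (Fintype.card ι - j) = i then 1 else 0) +
        (if min (j + 1) (Fintype.card ι - (j + 1)) = i then 1 else 0))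
  have h3 := hG.two_sum (by rw [Finset.card_univ]; omega)
    (fun j => if min j (Fintype.card ι - j) = i then 1 else 0)
  have h3' : (2 : ℝ) * ∑ A ∈ topes (dep x) univ,
      (if min A.card (Fintype.card ι - A.card) = i then 1 else 0) =
      ∑ K ∈ univ.powersetCard 1, ∑ A ∈ topes (dep x ⊓ vanish K) (univ \ K),
      ((if min A.card (Fintype.card ι - A.card) = i then 1 else 0) +
        (if min (A.card + 1) (Fintype.card ι - (A.card + 1)) = i then 1 else 0)) := by
    exact_mod_cast h3
  have h4 : ∑ K ∈ univ.powersetCard 1, ∑ A ∈ topes (dep x ⊓ vanish K) (univ \ K),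
      ((if min A.card (Fintype.card ι - A.card) = i then (1 : ℝ) else 0) +
        (if min (A.card + 1) (Fintype.card ι - (A.card + 1)) = i then 1 else 0)) =
      ∑ K ∈ univ.powersetCard 1, ∑ A ∈ topes (dep x ⊓ vanish K) (univ \ K),
      ((if min (min A.card (d + 2 - A.card)) (Fintype.card ι - (min A.card (d + 2 - A.card))) = i
          then 1 else 0) +
        (if min ((min A.card (d + 2 - A.card)) + 1)
          (Fintype.card ι - ((min A.card (d + 2 - A.card)) + 1)) = i then 1 else 0)) := by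
    rw [← sum_circ x 1 (fun c => (if min c (Fintype.card ι - c) = i then (1 : ℝ) else 0) +
        (if min (c + 1) (Fintype.card ι - (c + 1)) = i then 1 else 0)),
      ← sum_circ x 1 (fun c => (if min (min c (d + 2 - c)) (Fintype.card ι -
        (min c (d + 2 - c))) = i then (1 : ℝ) else 0) +
        (if min ((min c (d + 2 - c)) + 1)
          (Fintype.card ι - ((min c (d + 2 - c)) + 1)) = i then 1 else 0))]
    apply Finset.sum_congr rfl
    intro p hp
    have hc := circ_card hm hp
    rcases le_total p.2.card (d + 2 - p.2.card) with h5 | h5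
    · rw [min_eq_left h5]
    · rw [min_eq_right h5, add_comm]
      have e1 : min (d + 2 - p.2.card + 1) (Fintype.card ι - (d + 2 - p.2.card + 1)) =
          min p.2.card (Fintype.card ι - p.2.card) := by omega
      have e2 : min (d + 2 - p.2.card) (Fintype.card ι - (d + 2 - p.2.card)) =
          min (p.2.card + 1) (Fintype.card ι - (p.2.card + 1)) := by omega
      rw [e1, e2]
  rw [h1, h4, h2] at h3'
  simp only [ite_mul, one_mul, zero_mul, Finset.sum_ite_eq', hi, if_true] at h3'
  linarith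

/-- the explicit form of the relations for `s = d + 3`. -/
theorem dual_explicit {d : ℕ} {P : ℕ → ℝ} (hP : P 0 = 0) {i : ℕ} (hi : i ∈ Icc 1 ((d + 3) / 2)) :
    ∑ j ∈ Icc 1 (d / 2 + 1), ((if min j (d + 3 - j) = i then 1 else 0) +
        (if min (j + 1) (d + 3 - (j + 1)) = i then 1 else 0)) * P j =
      P (i - 1) + (if 2 * i < d + 2 then 1 else if 2 * i = d + 2 then 2 else 0) * P i := by
  classical
  rw [Finset.mem_Icc] at hi
  have h1 : ∀ j ∈ Icc 1 (d / 2 + 1), ((if min j (d + 3 - j) = i then (1 : ℝ) else 0) +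
        (if min (j + 1) (d + 3 - (j + 1)) = i then 1 else 0)) * P j =
      (if j = i - 1 then P j else 0) + ((if j = i then P j else 0) +
        (if j = i then (if 2 * i = d + 2 then P j else 0) else 0)) := by
    intro j hj
    rw [Finset.mem_Icc] at hj
    have e1 : (min j (d + 3 - j) = i) ↔ j = i := by omega
    have e2 : (min (j + 1) (d + 3 - (j + 1)) = i) ↔ (j = i - 1 ∨ (j = i ∧ 2 * i = d + 2)) := by
      omega
    simp only [e1, e2]
    by_cases h1 : j = i - 1
    · have h2 : j ≠ i := by omega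
      rw [if_neg h2, if_pos (Or.inl h1), if_pos h1, if_neg h2, if_neg h2]; ring
    · by_cases h2 : j = i
      · by_cases h3 : 2 * i = d + 2
        · rw [if_pos h2, if_pos (Or.inr ⟨h2, h3⟩), if_neg h1, if_pos h2, if_pos h2, if_pos h3]; ring
        · rw [if_pos h2, if_neg (by tauto), if_neg h1, if_pos h2, if_pos h2, if_neg h3]; ring
      · rw [if_neg h2, if_neg (by tauto), if_neg h1, if_neg h2, if_neg h2]; ring
  rw [Finset.sum_congr rfl h1, Finset.sum_add_distrib, Finset.sum_add_distrib,
    Finset.sum_ite_eq', Finset.sum_ite_eq', Finset.sum_ite_eq']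
  have h2 : (if i - 1 ∈ Icc 1 (d / 2 + 1) then P (i - 1) else 0) = P (i - 1) := by
    by_cases h : i = 1
    · subst h; simp [hP]
    · rw [if_pos]
      rw [Finset.mem_Icc]; omega
  rw [h2]
  congr 1
  by_cases h3 : 2 * i < d + 2
  · have h4 : i ∈ Icc 1 (d / 2 + 1) := by rw [Finset.mem_Icc]; omega
    rw [if_pos h4, if_pos h4, if_neg (by omega), if_pos h3]; ring
  · by_cases h5 : 2 * i = d + 2
    · have h4 : i ∈ Icc 1 (d / 2 + 1) := by rw [Finset.mem_Icc]; omega
      rw [if_pos h4, if_pos h4, if_pos h5, if_neg h3, if_pos h5]; ring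
    · have h4 : i ∉ Icc 1 (d / 2 + 1) := by rw [Finset.mem_Icc]; omega
      rw [if_neg h4, if_neg h4, if_neg h3, if_neg h5]; ring

end Pool.Agent.U280.Radon
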